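import Mathlib

/-!
# MP_45e9b0_lc (dynamical compressibility): definitions

Goal: a countably infinite group with Kazhdan's property (T) and only countably many
subgroups, no proper subgroup of infinite index of which maps onto an infinite quotient of the
group itself, is not dynamically compressible.
-/

set_option autoImplicit false

open MeasureTheory Filter Topology ENNReal

namespace Pool.Agent.T4h92.DC

/-- `G` is dynamically compressible: the body of the frozen statement `S14647` for the group `G`. -/
def DynComp (G : Type) [Group G] : Prop :=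
  ∀ (X : Type) [MeasurableSpace X] [StandardBorelSpace X] [MulAction G X],
      (∀ g : G, Measurable (fun x : X => g • x)) →
      (∀ x : X, (MulAction.orbit G x).Infinite) →
      ∃ (Y : Type) (_ : MeasurableSpace Y) (_ : StandardBorelSpace Y) (_ : MulAction G Y),
        (∀ g : G, Measurable (fun y : Y => g • y)) ∧
        (∀ y : Y, (MulAction.orbit G y).Infinite) ∧
        (∃ c : Y → Y, Measurable c ∧ Function.Injective c ∧
          (∀ y : Y, c y ∈ MulAction.orbit G y) ∧
          (∀ y : Y, ∃ z ∈ MulAction.orbit G y, ∀ w : Y, c w ≠ z)) ∧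
        (∃ f : X → Y, Measurable f ∧
          ∀ x x' : X, (x' ∈ MulAction.orbit G x ↔ f x' ∈ MulAction.orbit G (f x)))

/-- Kazhdan's property (T): some finite set `S` and `κ > 0` such that every unitary
representation of `G` on a complex Hilbert space with an `(S, κ)`-invariant unit vector has a
nonzero invariant vector. -/
def PropertyT (G : Type) [Group G] : Prop :=
  ∃ (S : Finset G) (κ : ℝ), 0 < κ ∧
    ∀ (H : Type) [NormedAddCommGroup H] [InnerProductSpace ℂ H] [CompleteSpace H]
      (π : G →* (H ≃ₗᵢ[ℂ] H)) (v : H), ‖v‖ = 1 → (∀ s ∈ S, ‖π s v - v‖ < κ) →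
        ∃ u : H, u ≠ 0 ∧ ∀ g : G, π g u = u

/-- An action of `G` on `Ω` by maps preserving the measure `m` (finite or not). -/
structure PMP {G Ω : Type} [Group G] [MeasurableSpace Ω] (m : Measure Ω) (T : G → Ω → Ω) :
    Prop where
  one : ∀ x, T 1 x = x
  mul : ∀ g h x, T (g * h) x = T g (T h x)
  mp : ∀ g, MeasurePreserving (T g) m m

/-- Mixing. -/
def Mix {G Ω : Type} [MeasurableSpace Ω] (m : Measure Ω) (T : G → Ω → Ω) : Prop :=
  ∀ A B : Set Ω, MeasurableSet A → MeasurableSet B →
    Tendsto (fun g : G => m (A ∩ T g ⁻¹' B)) cofinite (𝓝 (m A * m B))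

/-- Ergodic for the members of `K`: sets invariant (a.e.) under all `T g`, `g ∈ K`, have measure
`0` or `1`. -/
def ErgOn {G Ω : Type} [MeasurableSpace Ω] (m : Measure Ω) (T : G → Ω → Ω) (K : Set G) : Prop :=
  ∀ A : Set Ω, MeasurableSet A → (∀ g ∈ K, T g ⁻¹' A =ᵐ[m] A) → m A = 0 ∨ m A = 1

/-- The diagonal action on a product. -/
def pact {G X Y : Type} (T : G → X → X) (T' : G → Y → Y) (g : G) (z : X × Y) : X × Y :=
  (T g z.1, T' g z.2)

/-- The shift of `G` on `B^G`. -/
def sh {G B : Type} [Group G] (g : G) (x : G → B) : G → B := fun h => x (g⁻¹ * h)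

/-- The product (Bernoulli) measure on `B^G`. -/
noncomputable def ber (G : Type) {B : Type} [MeasurableSpace B] (β : Measure B)
    [IsProbabilityMeasure β] : Measure (G → B) :=
  Measure.infinitePi (fun _ : G => β)

instance ber_prob (G : Type) {B : Type} [MeasurableSpace B] (β : Measure B)
    [IsProbabilityMeasure β] : IsProbabilityMeasure (ber G β) := by
  unfold ber; infer_instance

/-- `w` is a cocycle of the action `T` with values in the group `Γ`, with measurable fibres. -/
structure Coc {G Ω Γ : Type} [Group G] [Group Γ] [MeasurableSpace Ω]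
    (T : G → Ω → Ω) (w : G → Ω → Γ) : Prop where
  mul : ∀ g h x, w (g * h) x = w g (T h x) * w h x
  meas : ∀ g γ, MeasurableSet {x | w g x = γ}

/-- All fibres of `Φ` are measurable. -/
def CM {Ω Γ : Type} [MeasurableSpace Ω] (Φ : Ω → Γ) : Prop :=
  ∀ γ : Γ, MeasurableSet {x | Φ x = γ}

/-- The space `B^G × (B × [0,1])^G`. -/
abbrev BZ (G B : Type) : Type := (G → B) × (G → B × unitInterval)

/-- Its measure `β^G × (β × Lebesgue)^G`. -/
noncomputable def bz (G : Type) {B : Type} [MeasurableSpace B] (β : Measure B)
    [IsProbabilityMeasure β] : Measure (BZ G B) :=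
  (ber G β).prod (ber G (β.prod (volume : Measure unitInterval)))

instance bz_prob (G : Type) {B : Type} [MeasurableSpace B] (β : Measure B)
    [IsProbabilityMeasure β] : IsProbabilityMeasure (bz G β) := by
  unfold bz; infer_instance

open Classical in
/-- The path of factor maps `B^G × (B × [0,1])^G → B^G`: at the time `t` the coordinate `h` of `x`
is replaced by the coordinate `h` of the second configuration if the clock of `h` is below `t`.
Time `0`: the first configuration.  Any time above `1`: the second. -/
noncomputable def mixm {G B : Type} (t : ℝ) (z : BZ G B) : G → B :=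
  fun h => if ((z.2 h).2 : ℝ) < t then (z.2 h).1 else z.1 h

/-- The second configuration. -/
def snd' {G B : Type} (v : G → B × unitInterval) : G → B := fun h => (v h).1

/-- The fair coin. -/
noncomputable def coin : Measure Bool := (PMF.uniformOfFintype Bool).toMeasure

instance coin_prob : IsProbabilityMeasure coin := by
  unfold coin; infer_instance

/-- The normaliser of a subgroup, and the quotient `N(F)/F`. -/
abbrev Nor {G : Type} [Group G] (F : Subgroup G) : Subgroup G := Subgroup.normalizer (F : Set G)

/-- The group `N(F)/F`. -/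
abbrev NQ {G : Type} [Group G] (F : Subgroup G) : Type := Nor F ⧸ F.subgroupOf (Nor F)

/-- The full preimage in `G` of the image of a homomorphism `ρ : G → N(F)/F`. -/
def pre {G : Type} [Group G] (F : Subgroup G) (ρ : G →* NQ F) : Subgroup G :=
  ((ρ.range).comap (QuotientGroup.mk' (F.subgroupOf (Nor F)))).map (Nor F).subtype

end Pool.Agent.T4h92.DC
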