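import Pool.Agent.T4h92.DC.Stm

/-!
# MP_45e9b0_lc, task CMP (helper7): compressible actions have no invariant finite measure
-/

set_option autoImplicit false

open MeasureTheory Filter Topology ENNReal

namespace Pool.Agent.T4h92.DC.CMP

open Pool.Agent.T4h92.DC

theorem t_CMP : S_CMP := by
  intro G _ _ Y _ _ _ c hY hc hcinj hco hcn ν _ hν
  classical
  obtain ⟨e, he⟩ := exists_surjective_nat G
  -- the invariance of the measure
  have hpre : ∀ (g : G) (B : Set Y), MeasurableSet B → ν ((fun y => g • y) ⁻¹' B) = ν B := by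
    intro g B hB
    conv_rhs => rw [← hν g]
    rw [Measure.map_apply (hY g) hB]
  have himg : ∀ (g : G) (B : Set Y), (fun y => g • y) '' B = (fun y => g⁻¹ • y) ⁻¹' B := by
    intro g B
    ext y
    constructor
    · rintro ⟨z, hz, rfl⟩
      show g⁻¹ • g • z ∈ B
      rwa [inv_smul_smul]
    · intro h
      exact ⟨g⁻¹ • y, h, smul_inv_smul g y⟩
  -- the partition
  have hex : ∀ y, ∃ n : ℕ, c y = e n • y := by
    intro y
    obtain ⟨g, hg⟩ := hco y
    obtain ⟨n, hn⟩ := he g
    exact ⟨n, by rw [hn]; exact hg.symm⟩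
  let D : ℕ → Set Y := fun n => {y | Nat.find (hex y) = n}
  have hDm : ∀ n, MeasurableSet (D n) := by
    intro n
    have h1 : Measurable fun y => Nat.find (hex y) :=
      measurable_find hex fun k => measurableSet_eq_fun hc (hY (e k))
    exact h1 (measurableSet_singleton n)
  have hDc : ∀ n, ∀ y ∈ D n, c y = e n • y := by
    intro n y hy
    have h1 := Nat.find_spec (hex y)
    rw [show Nat.find (hex y) = n from hy] at h1
    exact h1
  have hDi : ∀ n, c '' D n = (fun y => e n • y) '' D n := by
    intro n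
    exact Set.image_congr fun y hy => hDc n y hy
  have hDν : ∀ n, MeasurableSet (c '' D n) ∧ ν (c '' D n) = ν (D n) := by
    intro n
    rw [hDi, himg]
    exact ⟨hY _ (hDm n), hpre _ _ (hDm n)⟩
  have hDd : Pairwise (fun i j => Disjoint (D i) (D j)) := by
    intro i j hij
    rw [Set.disjoint_left]
    intro y hy hy'
    exact hij ((show Nat.find (hex y) = i from hy).symm.trans hy')
  have hDU : ⋃ n, D n = Set.univ := by
    rw [Set.eq_univ_iff_forall]
    intro y
    exact Set.mem_iUnion.2 ⟨_, rfl⟩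
  have hcU : ⋃ n, c '' D n = Set.range c := by
    rw [← Set.image_iUnion, hDU, Set.image_univ]
  have hcd : Pairwise (fun i j => Disjoint (c '' D i) (c '' D j)) := by
    intro i j hij
    exact (Set.disjoint_image_iff hcinj).2 (hDd hij)
  have hr : ν (Set.range c) = ν Set.univ := by
    rw [← hcU, ← hDU, measure_iUnion hcd (fun n => (hDν n).1), measure_iUnion hDd hDm]
    exact tsum_congr fun n => (hDν n).2
  have hrm : MeasurableSet (Set.range c) := by
    rw [← hcU]
    exact MeasurableSet.iUnion fun n => (hDν n).1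
  have hN : ν (Set.range c)ᶜ = 0 := by
    rw [measure_compl hrm (measure_ne_top ν _), hr, tsub_self]
  have hU : ν (⋃ n : ℕ, (fun y => e n • y) ⁻¹' (Set.range c)ᶜ) = 0 := by
    rw [measure_iUnion_null_iff]
    intro n
    rw [hpre _ _ hrm.compl, hN]
  rw [← Measure.measure_univ_eq_zero]
  refine measure_mono_null ?_ hU
  intro y _
  obtain ⟨z, hz, hzc⟩ := hcn y
  obtain ⟨g, hg⟩ := hz
  obtain ⟨n, hn⟩ := he g
  rw [Set.mem_iUnion]
  refine ⟨n, ?_⟩
  rintro ⟨w, hw⟩
  apply hzc w
  rw [hw, hn]
  exact hg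

end Pool.Agent.T4h92.DC.CMP
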