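import Pool.Agent.T4h92.DC.Stm

/-!
# MP_45e9b0_lc, task CO1 (helper7): one subgroup is the stabiliser of almost every point
-/

set_option autoImplicit false

open MeasureTheory Filter Topology ENNReal

namespace Pool.Agent.T4h92.DC.CO1

open Pool.Agent.T4h92.DC

theorem meas_stab {G Y Ω : Type} [Group G] [Countable G] [MeasurableSpace Y]
    [StandardBorelSpace Y] [MulAction G Y] [MeasurableSpace Ω] (f : Ω → Y)
    (hY : ∀ g : G, Measurable (fun y : Y => g • y)) (hf : Measurable f) (F : Subgroup G) :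
    MeasurableSet {x | MulAction.stabilizer G (f x) = F} := by
  classical
  have h : {x | MulAction.stabilizer G (f x) = F} =
      ⋂ g : G, {x | (g • f x = f x ↔ g ∈ F)} := by
    ext x
    rw [Set.mem_iInter]
    show MulAction.stabilizer G (f x) = F ↔ ∀ g : G, (g • f x = f x ↔ g ∈ F)
    rw [SetLike.ext_iff]
    rfl
  rw [h]
  refine MeasurableSet.iInter fun g => ?_
  have h1 : MeasurableSet {x | g • f x = f x} :=
    measurableSet_eq_fun ((hY g).comp hf) hf
  by_cases hg : g ∈ F
  · have e : {x | (g • f x = f x ↔ g ∈ F)} = {x | g • f x = f x} := by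
      ext x
      exact iff_true_right hg
    rw [e]
    exact h1
  · have e : {x | (g • f x = f x ↔ g ∈ F)} = {x | g • f x = f x}ᶜ := by
      ext x
      exact iff_false_right hg
    rw [e]
    exact h1.compl

theorem t_CO1 (hMBE : S_MBE) (hERG : S_ERG) : S_CO1 := by
  intro G _ _ _ _ Y _ _ _ f X₀ hY hf hX₀ hae hinv horb
  classical
  obtain ⟨hT, hmix⟩ := hMBE G Bool coin
  have hE := hERG G (G → Bool) (ber G coin) sh hT hmix Set.univ Set.infinite_univ
  -- one subgroup has positive measure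
  obtain ⟨F, hF⟩ : ∃ F : Subgroup G,
      ber G coin (X₀ ∩ {x | MulAction.stabilizer G (f x) = F}) ≠ 0 := by
    by_contra hcon
    push Not at hcon
    have h1 : ber G coin (⋃ F : Subgroup G, X₀ ∩ {x | MulAction.stabilizer G (f x) = F}) = 0 :=
      measure_iUnion_null_iff.2 hcon
    have h2 : X₀ ⊆ ⋃ F : Subgroup G, X₀ ∩ {x | MulAction.stabilizer G (f x) = F} := by
      intro x hx
      exact Set.mem_iUnion.2 ⟨MulAction.stabilizer G (f x), hx, rfl⟩
    have h3 : ber G coin X₀ = 0 := measure_mono_null h2 h1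
    have h4 : ber G coin X₀ = 1 := (prob_compl_eq_zero_iff hX₀).1 (mem_ae_iff.1 hae)
    rw [h3] at h4
    exact zero_ne_one h4
  obtain ⟨e, he⟩ := exists_surjective_nat G
  set X₁ : Set (G → Bool) := X₀ ∩ {x | ∃ n : ℕ, MulAction.stabilizer G (e n • f x) = F} with hX₁
  have hX₁m : MeasurableSet X₁ := by
    refine hX₀.inter ?_
    have e1 : {x | ∃ n : ℕ, MulAction.stabilizer G (e n • f x) = F} =
        ⋃ n : ℕ, {x | MulAction.stabilizer G (e n • f x) = F} := by
      ext x
      rw [Set.mem_iUnion]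
      rfl
    rw [e1]
    exact MeasurableSet.iUnion fun n => meas_stab (fun x => e n • f x) hY ((hY _).comp hf) F
  have hX₁inv : ∀ g : G, ∀ x ∈ X₁, sh g x ∈ X₁ := by
    rintro g x ⟨hx, n, hn⟩
    refine ⟨hinv g x hx, ?_⟩
    obtain ⟨b, hb⟩ := horb g x hx
    have hb : b • f x = f (sh g x) := hb
    obtain ⟨k, hk⟩ := he (e n * b⁻¹)
    refine ⟨k, ?_⟩
    rw [hk, ← hb, mul_smul, inv_smul_smul]
    exact hn
  have hX₁ae : ∀ᵐ x ∂(ber G coin), x ∈ X₁ := by
    have h1 : ∀ g ∈ (Set.univ : Set G), sh g ⁻¹' X₁ =ᵐ[ber G coin] X₁ := by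
      intro g _
      have e2 : sh g ⁻¹' X₁ = X₁ := by
        ext x
        constructor
        · intro h
          have h5 := hX₁inv g⁻¹ _ h
          rwa [← hT.mul, inv_mul_cancel, hT.one] at h5
        · exact hX₁inv g x
      exact Filter.EventuallyEq.of_eq e2
    rcases hE X₁ hX₁m h1 with h | h
    · exfalso
      apply hF
      refine measure_mono_null ?_ h
      rintro x ⟨hx, hx2⟩
      refine ⟨hx, ?_⟩
      obtain ⟨n, hn⟩ := he 1
      exact ⟨n, by rw [hn, one_smul]; exact hx2⟩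
    · exact mem_ae_iff.2 ((prob_compl_eq_zero_iff hX₁m).2 h)
  -- the map
  have hp : ∀ x : G → Bool, ∃ n : ℕ, MulAction.stabilizer G (e n • f x) = F ∨ x ∉ X₁ := by
    intro x
    by_cases hx : x ∈ X₁
    · obtain ⟨n, hn⟩ := hx.2
      exact ⟨n, Or.inl hn⟩
    · exact ⟨0, Or.inr hx⟩
  refine ⟨F, fun x => e (Nat.find (hp x)) • f x, X₁, ?_, hX₁m, Set.inter_subset_left, hX₁ae,
    hX₁inv, ?_⟩
  · refine Measurable.find (f := fun n x => e n • f x)
      (p := fun n x => MulAction.stabilizer G (e n • f x) = F ∨ x ∉ X₁)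
      (fun n => (hY _).comp hf) (fun n => ?_) hp
    exact (meas_stab (fun x => e n • f x) hY ((hY _).comp hf) F).union hX₁m.compl
  · intro x hx
    refine ⟨MulAction.mem_orbit _ _, ?_⟩
    rcases Nat.find_spec (hp x) with h | h
    · exact h
    · exact absurd hx h

end Pool.Agent.T4h92.DC.CO1
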