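import Pool.Agent.T4h92.DC.Stm

/-!
# MP_45e9b0_lc, task CO2 (helper7): the cocycle of a map with constant stabiliser
-/

set_option autoImplicit false

open MeasureTheory Filter Topology ENNReal

namespace Pool.Agent.T4h92.DC.CO2

open Pool.Agent.T4h92.DC

theorem mem_nor {G Y : Type} [Group G] [MulAction G Y] {F : Subgroup G} {y y' : Y} {n : G}
    (hy : MulAction.stabilizer G y = F) (hy' : MulAction.stabilizer G y' = F)
    (h : n • y = y') : n ∈ Nor F := by
  rw [Subgroup.mem_normalizer_iff]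
  intro k
  rw [← hy']
  conv_lhs => rw [hy', ← hy]
  rw [MulAction.mem_stabilizer_iff, MulAction.mem_stabilizer_iff, ← h, mul_smul, mul_smul,
    inv_smul_smul]
  exact (MulAction.injective n).eq_iff.symm

theorem t_CO2 : S_CO2 := by
  intro G _ _ Ω _ m T Y _ _ _ F u X₁ hY hT hu hX1m hX1ae hX1inv hst horb
  classical
  -- the value
  have hex : ∀ (g : G) (x : Ω), ∃ q : NQ F,
      (x ∈ X₁ → ∀ n : Nor F, (QuotientGroup.mk n : NQ F) = q ↔ u (T g x) = (n : G) • u x) ∧
      (x ∉ X₁ → q = 1) := by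
    intro g x
    by_cases hx : x ∈ X₁
    · obtain ⟨n, hn⟩ := horb g x hx
      have hn : n • u x = u (T g x) := hn
      have hmem : n ∈ Nor F := mem_nor (hst x hx) (hst _ (hX1inv g x hx)) hn
      refine ⟨QuotientGroup.mk (⟨n, hmem⟩ : Nor F), fun _ n' => ?_, fun h => absurd hx h⟩
      have hF : ∀ k : G, k ∈ F ↔ k • u x = u x := fun k => by
        rw [← MulAction.mem_stabilizer_iff, hst x hx]
      rw [QuotientGroup.eq, Subgroup.mem_subgroupOf, hF, ← hn]
      show ((n' : G)⁻¹ * n) • u x = u x ↔ _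
      rw [mul_smul, inv_smul_eq_iff]
    · exact ⟨1, fun h => absurd h hx, fun _ => rfl⟩
  choose w hw1 hw2 using hex
  have hout : ∀ (g : G) (x : Ω), x ∉ X₁ → T g x ∉ X₁ := by
    intro g x hx h
    apply hx
    have h1 := hX1inv g⁻¹ _ h
    rwa [← hT.mul, inv_mul_cancel, hT.one] at h1
  refine ⟨w, ⟨?_, ?_⟩, ?_⟩
  · intro g h x
    by_cases hx : x ∈ X₁
    · obtain ⟨n1, hn1⟩ := QuotientGroup.mk_surjective (w g (T h x))
      obtain ⟨n2, hn2⟩ := QuotientGroup.mk_surjective (w h x)
      have e1 := (hw1 g (T h x) (hX1inv h x hx) n1).1 hn1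
      have e2 := (hw1 h x hx n2).1 hn2
      rw [← hn1, ← hn2, ← QuotientGroup.mk_mul]
      symm
      rw [hw1 (g * h) x hx, hT.mul, e1, e2, Subgroup.coe_mul, mul_smul]
    · rw [hw2 _ _ hx, hw2 _ _ hx, hw2 _ _ (hout h x hx), mul_one]
  · intro g γ
    obtain ⟨n, hn⟩ := QuotientGroup.mk_surjective γ
    have hset : {x | w g x = γ} = (X₁ ∩ {x | u (T g x) = (n : G) • u x}) ∪
        (X₁ᶜ ∩ {x | (1 : NQ F) = γ}) := by
      ext x
      simp only [Set.mem_ofPred_eq, Set.mem_union, Set.mem_inter_iff, Set.mem_compl_iff]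
      by_cases hx : x ∈ X₁
      · have h1 := hw1 g x hx n
        rw [hn] at h1
        constructor
        · intro h
          exact Or.inl ⟨hx, h1.1 h.symm⟩
        · rintro (⟨-, h⟩ | ⟨h, -⟩)
          · exact (h1.2 h).symm
          · exact absurd hx h
      · rw [hw2 g x hx]
        constructor
        · intro h
          exact Or.inr ⟨hx, h⟩
        · rintro (⟨h, -⟩ | ⟨-, h⟩)
          · exact absurd h hx
          · exact h
    rw [hset]
    refine (hX1m.inter ?_).union (hX1m.compl.inter (MeasurableSet.const _))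
    exact measurableSet_eq_fun (hu.comp (hT.mp g).measurable) ((hY n).comp hu)
  · intro g x hx n hn
    exact (hw1 g x hx n).1 hn

end Pool.Agent.T4h92.DC.CO2
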