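import Pool.Agent.T4h92.DC.Stm

/-!
# MP_45e9b0_lc, task COC (helper7): equivariant maps up to orbits give cocycles
-/

set_option autoImplicit false

open MeasureTheory Filter Topology ENNReal

namespace Pool.Agent.T4h92.DC.COC

open Pool.Agent.T4h92.DC

theorem t_COC (hCO1 : S_CO1) (hCO2 : S_CO2) (hMBE : S_MBE) : S_COC := by
  intro G _ _ _ _ Y _ _ _ f X₀ hY hf hX₀ hae hinv hf2
  obtain ⟨F, u, X₁, hu, hX1m, hsub, hX1ae, hX1inv, hX1⟩ := hCO1 G Y f X₀ hY hf hX₀ hae hinv hf2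
  obtain ⟨w, hw, hwu⟩ := hCO2 G (G → Bool) (ber G coin) sh Y F u X₁ hY (hMBE G Bool coin).1 hu
    hX1m hX1ae hX1inv (fun x hx => (hX1 x hx).2) (fun g x hx => by
      have h1 := (hX1 _ (hX1inv g x hx)).1
      have h2 := hf2 g x (hsub hx)
      have h3 := (hX1 x hx).1
      rw [← MulAction.orbit_eq_iff] at h1 h2 h3 ⊢
      rw [h1, h2, h3])
  refine ⟨F, u, w, hw, hu, ?_, ?_⟩
  · filter_upwards [hX1ae] with x hx
    exact hX1 x hx
  · intro g
    filter_upwards [hX1ae] with x hx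
    exact hwu g x hx

end Pool.Agent.T4h92.DC.COC
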