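import Pool.Agent.T4h92.DC.Stm2

set_option autoImplicit false

open MeasureTheory Filter Topology ENNReal
open Pool.Agent.T4h92.DC

namespace Pool.Agent.T4h92.DC.CONV

section Ind

variable {G H W : Type} [Group G] [Group H] (L : Subgroup G) (p : L →* H) (A : H → W → W)

theorem out_mem (g : G) (c : G ⧸ L) :
    ((g • c : G ⧸ L).out)⁻¹ * g * c.out ∈ L := by
  rw [mul_assoc, ← QuotientGroup.eq]
  rw [QuotientGroup.out_eq']
  rw [← smul_eq_mul, ← MulAction.Quotient.smul_mk, QuotientGroup.out_eq']

/-- The cocycle. -/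
noncomputable def lam (g : G) (c : G ⧸ L) : L := ⟨((g • c : G ⧸ L).out)⁻¹ * g * c.out, out_mem L g c⟩

theorem lam_one (c : G ⧸ L) : lam L 1 c = 1 := by
  apply Subtype.ext
  simp [lam]

theorem lam_mul (g h : G) (c : G ⧸ L) : lam L (g * h) c = lam L g (h • c) * lam L h c := by
  apply Subtype.ext
  simp only [lam, mul_smul, Subgroup.coe_mul]
  group

/-- The induced action. -/
noncomputable def act (g : G) (y : W × (G ⧸ L)) : W × (G ⧸ L) :=
  (A (p (lam L g y.2)) y.1, g • y.2)

/-- The induced action as a `MulAction`. -/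
@[reducible] noncomputable def indAction (h1 : ∀ w, A 1 w = w) (h2 : ∀ a b w, A (a * b) w = A a (A b w)) :
    MulAction G (W × (G ⧸ L)) where
  smul := act L p A
  one_smul y := by
    show act L p A 1 y = y
    unfold act
    rw [lam_one, map_one, h1, one_smul]
  mul_smul g h y := by
    show act L p A (g * h) y = act L p A g (act L p A h y)
    unfold act
    simp only
    rw [lam_mul, map_mul, h2, mul_smul]

theorem exists_act (hp : Function.Surjective p) (y : W × (G ⧸ L)) (a : H) (c' : G ⧸ L) :
    ∃ g : G, act L p A g y = (A a y.1, c') := by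
  obtain ⟨l, hl⟩ := hp a
  refine ⟨c'.out * l * (y.2.out)⁻¹, ?_⟩
  have hc : ((c'.out * l * (y.2.out)⁻¹ : G) • y.2 : G ⧸ L) = c' := by
    calc ((c'.out * l * (y.2.out)⁻¹ : G) • y.2 : G ⧸ L)
        = (c'.out * l * (y.2.out)⁻¹ : G) • (QuotientGroup.mk y.2.out : G ⧸ L) := by
          rw [QuotientGroup.out_eq']
      _ = QuotientGroup.mk (c'.out * l * (y.2.out)⁻¹ * y.2.out) := rfl
      _ = QuotientGroup.mk (c'.out * (l : G)) := by rw [inv_mul_cancel_right]
      _ = QuotientGroup.mk c'.out := by
          rw [QuotientGroup.eq]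
          have : (c'.out * (l : G))⁻¹ * c'.out = ((l : G))⁻¹ := by group
          rw [this]
          exact L.inv_mem l.2
      _ = c' := QuotientGroup.out_eq' c'
  unfold act
  rw [hc]
  congr 2
  rw [← hl]
  congr 1
  apply Subtype.ext
  simp only [lam]
  rw [hc]
  group

end Ind

section Sel

variable {G X : Type} [Group G] [MulAction G X] (M : Subgroup G) [Finite M] (e : X → ℝ)

theorem exists_min (x : X) : ∃ m : M, ∀ m' : M, e ((m : G) • x) ≤ e ((m' : G) • x) := by
  exact Finite.exists_min (fun m : M => e ((m : G) • x))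

/-- The selector of the orbits of the finite group `M`. -/
noncomputable def sel (x : X) : X := ((exists_min M e x).choose : G) • x

theorem sel_eq (x : X) : ∃ m : M, sel M e x = (m : G) • x := ⟨_, rfl⟩

theorem sel_min (x : X) (m' : M) : e (sel M e x) ≤ e ((m' : G) • x) :=
  (exists_min M e x).choose_spec m'

variable {e}

theorem sel_unique (he : Function.Injective e) (x : X) (m : M)
    (h : ∀ m' : M, e ((m : G) • x) ≤ e ((m' : G) • x)) : sel M e x = (m : G) • x := by
  obtain ⟨m₀, hm₀⟩ := sel_eq M e x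
  apply he
  apply le_antisymm
  · exact sel_min M e x m
  · rw [hm₀]; exact h m₀

theorem sel_smul (he : Function.Injective e) (x : X) (m : M) :
    sel M e ((m : G) • x) = sel M e x := by
  obtain ⟨m₀, hm₀⟩ := sel_eq M e x
  have h1 := sel_unique M he ((m : G) • x) (m₀ * m⁻¹) (by
    intro m'
    have h2 := sel_min M e x (m' * m)
    rw [hm₀] at h2
    simp only [smul_smul, Subgroup.coe_mul, Subgroup.coe_inv, inv_mul_cancel_right]
    simpa using h2)
  rw [h1, hm₀]
  simp [smul_smul]

theorem sel_sel (he : Function.Injective e) (x : X) : sel M e (sel M e x) = sel M e x := by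
  obtain ⟨m₀, hm₀⟩ := sel_eq M e x
  conv_lhs => rw [hm₀]
  exact sel_smul M he x m₀

theorem sel_smul_sel [M.Normal] (he : Function.Injective e) (g : G) (x : X) :
    sel M e (g • sel M e x) = sel M e (g • x) := by
  obtain ⟨m₀, hm₀⟩ := sel_eq M e x
  rw [hm₀]
  have : g • (m₀ : G) • x = ((⟨g * m₀ * g⁻¹, Subgroup.Normal.conj_mem inferInstance _ m₀.2 g⟩ : M) : G) • (g • x) := by
    simp [smul_smul]
  rw [this, sel_smul M he]

theorem sel_measurable [MeasurableSpace X] (he : Function.Injective e) (hem : Measurable e)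
    (hact : ∀ g : G, Measurable (fun x : X => g • x)) : Measurable (sel M e) := by
  intro B hB
  have : sel M e ⁻¹' B = ⋃ m : M, ({x | ∀ m' : M, e ((m : G) • x) ≤ e ((m' : G) • x)} ∩
      (fun x : X => (m : G) • x) ⁻¹' B) := by
    ext x
    simp only [Set.mem_preimage, Set.mem_iUnion, Set.mem_inter_iff, Set.mem_ofPred_eq]
    constructor
    · intro hx
      refine ⟨(exists_min M e x).choose, (exists_min M e x).choose_spec, hx⟩
    · rintro ⟨m, h1, h2⟩
      rw [sel_unique M he x m h1]
      exact h2
  rw [this]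
  refine MeasurableSet.iUnion fun m => MeasurableSet.inter ?_ (hact m hB)
  have : {x | ∀ m' : M, e ((m : G) • x) ≤ e ((m' : G) • x)} =
      ⋂ m' : M, {x | e ((m : G) • x) ≤ e ((m' : G) • x)} := by
    ext x; simp
  rw [this]
  exact MeasurableSet.iInter fun m' => measurableSet_le (hem.comp (hact m)) (hem.comp (hact m'))

end Sel

theorem t_CONV : S_CONV := by
  intro G _ _ _ M _ L p hM hL hp X _ _ _ hact horb
  obtain ⟨e, he⟩ : ∃ e : X → ℝ, MeasurableEmbedding e := ⟨_, measurableEmbedding_embeddingReal X⟩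
  have hei := he.injective
  have hem := he.measurable
  have hs := sel_measurable M hei hem hact
  let s : X → X := sel M e
  let W : Type := {x : X // s x = x}
  have hWm : MeasurableSet {x : X | s x = x} := measurableSet_eq_fun hs measurable_id
  have : StandardBorelSpace W := hWm.standardBorel
  -- the action of G ⧸ M
  let A : (G ⧸ M) → W → W := fun a w => ⟨s (a.out • w.1), sel_sel M hei _⟩
  have hA : ∀ (g : G) (w : W), (A (QuotientGroup.mk g) w).1 = s (g • w.1) := by
    intro g w
    have h1 : ((QuotientGroup.mk g : G ⧸ M).out)⁻¹ * g ∈ M := by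
      rw [← QuotientGroup.eq, QuotientGroup.out_eq']
    show s (((QuotientGroup.mk g : G ⧸ M).out) • w.1) = s (g • w.1)
    set o := ((QuotientGroup.mk g : G ⧸ M).out)
    have h2 : g * o⁻¹ ∈ M := by
      have := Subgroup.Normal.conj_mem (H := M) inferInstance _ h1 o
      have h3 : o * (o⁻¹ * g) * o⁻¹ = g * o⁻¹ := by group
      rwa [h3] at this
    have h3 : g • w.1 = ((⟨g * o⁻¹, h2⟩ : M) : G) • (o • w.1) := by
      simp [smul_smul]
    rw [h3]
    exact (sel_smul M hei _ _).symm
  have hA1 : ∀ w, A 1 w = w := by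
    intro w
    apply Subtype.ext
    have := hA 1 w
    rw [one_smul] at this
    exact this.trans w.2
  have hA2 : ∀ a b w, A (a * b) w = A a (A b w) := by
    intro a b w
    obtain ⟨g, rfl⟩ := QuotientGroup.mk_surjective a
    obtain ⟨h, rfl⟩ := QuotientGroup.mk_surjective b
    apply Subtype.ext
    rw [← QuotientGroup.mk_mul, hA, hA, hA, mul_smul]
    exact (sel_smul_sel M hei g (h • w.1)).symm
  have hAm : ∀ a, Measurable (A a) := by
    intro a
    exact Measurable.subtype_mk (hs.comp ((hact _).comp measurable_subtype_coe))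
  let mQ : MeasurableSpace (G ⧸ L) := ⊤
  have : DiscreteMeasurableSpace (G ⧸ L) := ⟨fun _ => trivial⟩
  have : Countable (G ⧸ L) := Function.Surjective.countable (QuotientGroup.mk_surjective (s := L))
  have hQinf : Infinite (G ⧸ L) := by
    by_contra h
    rw [not_infinite_iff_finite] at h
    exact hL Subgroup.finiteIndex_of_finite_quotient
  let Y : Type := W × (G ⧸ L)
  let aY : MulAction G Y := indAction L p A hA1 hA2
  have hsm : ∀ (g : G) (y : Y), @HSMul.hSMul G Y Y (@instHSMul G Y aY.toSMul) g y = act L p A g y :=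
    fun g y => rfl
  obtain ⟨D⟩ := nonempty_denumerable (G ⧸ L)
  let E : (G ⧸ L) ≃ ℕ := Denumerable.eqv (G ⧸ L)
  refine ⟨Y, inferInstance, inferInstance, aY, ?_, ?_, ?_, ?_⟩
  · intro g
    show Measurable (fun y : W × (G ⧸ L) => act L p A g y)
    apply measurable_from_prod_countable_left
    intro c
    have h2 : Measurable[_, mQ] (fun _ : W => (g • c : G ⧸ L)) := measurable_const
    exact @Measurable.prodMk _ _ _ _ _ mQ _ _ (hAm (p (lam L g c))) h2
  · intro y
    have hinj : Function.Injective (fun c : G ⧸ L => ((y.1, c) : Y)) := by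
      intro c c' h
      exact (Prod.mk.inj h).2
    refine (Set.infinite_range_of_injective hinj).mono ?_
    rintro _ ⟨c, rfl⟩
    obtain ⟨g, hg⟩ := exists_act L p A hp y 1 c
    refine ⟨g, ?_⟩
    show act L p A g y = _
    rw [hg, hA1]
  · refine ⟨fun y => (y.1, E.symm (E y.2 + 1)), ?_, ?_, ?_, ?_⟩
    · exact measurable_fst.prodMk ((Measurable.of_discrete
        (f := fun c : G ⧸ L => E.symm (E c + 1))).comp measurable_snd)
    · intro y y' h
      have h1 := (Prod.mk.inj h).1
      have h2 := (Prod.mk.inj h).2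
      have h3 : E y.2 + 1 = E y'.2 + 1 := E.symm.injective h2
      exact Prod.ext h1 (E.injective (by omega))
    · intro y
      obtain ⟨g, hg⟩ := exists_act L p A hp y 1 (E.symm (E y.2 + 1))
      refine ⟨g, ?_⟩
      show act L p A g y = _
      rw [hg, hA1]
    · intro y
      refine ⟨(y.1, E.symm 0), ?_, ?_⟩
      · obtain ⟨g, hg⟩ := exists_act L p A hp y 1 (E.symm 0)
        refine ⟨g, ?_⟩
        show act L p A g y = _
        rw [hg, hA1]
      · intro w h
        have h2 := (Prod.mk.inj h).2
        have h3 : E w.2 + 1 = 0 := E.symm.injective h2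
        omega
  · refine ⟨fun x => (⟨s x, sel_sel M hei x⟩, QuotientGroup.mk 1), ?_, ?_⟩
    · exact (Measurable.subtype_mk hs).prodMk measurable_const
    · intro x x'
      constructor
      · rintro ⟨g, rfl⟩
        obtain ⟨k, hk⟩ := exists_act L p A hp ((⟨s x, sel_sel M hei x⟩, QuotientGroup.mk 1) : Y)
          (QuotientGroup.mk g) (QuotientGroup.mk 1)
        refine ⟨k, ?_⟩
        show act L p A k _ = _
        rw [hk]
        refine Prod.ext ?_ rfl
        apply Subtype.ext
        rw [hA]
        exact sel_smul_sel M hei g x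
      · rintro ⟨k, hk⟩
        have hk' : act L p A k ((⟨s x, sel_sel M hei x⟩, QuotientGroup.mk 1) : Y) =
          (⟨s x', sel_sel M hei x'⟩, QuotientGroup.mk 1) := hk
        have h1 := (Prod.mk.inj hk').1
        obtain ⟨g, hg⟩ := QuotientGroup.mk_surjective (p (lam L k (QuotientGroup.mk 1 : G ⧸ L)))
        rw [← hg] at h1
        have h2 := congrArg Subtype.val h1
        rw [hA] at h2
        -- h2 : s (g • s x) = s x'
        obtain ⟨m1, hm1⟩ := sel_eq M e x
        obtain ⟨m2, hm2⟩ := sel_eq M e x'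
        obtain ⟨m3, hm3⟩ := sel_eq M e (g • s x)
        have h3 : (m3 : G) • (g • ((m1 : G) • x)) = (m2 : G) • x' := by
          rw [← hm2, ← hm1]
          exact hm3.symm.trans h2
        refine ⟨(m2 : G)⁻¹ * m3 * g * m1, ?_⟩
        show ((m2 : G)⁻¹ * m3 * g * m1) • x = x'
        rw [mul_smul, mul_smul, mul_smul, h3, inv_smul_smul]

end Pool.Agent.T4h92.DC.CONV
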