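import Pool.Agent.T4h92.DC.Stm2

set_option autoImplicit false

open MeasureTheory Filter Topology ENNReal
open Pool.Agent.T4h92.DC

namespace Pool.Agent.T4h92.DC.CRIT

/-- The surjection `pre F ρ → ρ.range`. -/
theorem exists_surj (G : Type) [Group G] (F : Subgroup G) (ρ : G →* NQ F) :
    ∃ p : pre F ρ →* ρ.range, Function.Surjective p := by
  let M : Subgroup (Nor F) := (ρ.range).comap (QuotientGroup.mk' (F.subgroupOf (Nor F)))
  have hML : pre F ρ = M.map (Nor F).subtype := rfl
  let e : M ≃* (pre F ρ) := M.equivMapOfInjective (Nor F).subtype (Nor F).subtype_injective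
  let q : M →* ρ.range :=
    ((QuotientGroup.mk' (F.subgroupOf (Nor F))).comp M.subtype).codRestrict ρ.range
      (fun m => m.2)
  have hq : Function.Surjective q := by
    rintro ⟨y, hy⟩
    obtain ⟨n, hn⟩ := QuotientGroup.mk'_surjective (F.subgroupOf (Nor F)) y
    refine ⟨⟨n, ?_⟩, ?_⟩
    · show QuotientGroup.mk' (F.subgroupOf (Nor F)) n ∈ ρ.range
      rw [hn]; exact hy
    · apply Subtype.ext
      exact hn
  exact ⟨q.comp e.symm.toMonoidHom, hq.comp e.symm.surjective⟩

theorem t_CRIT (hMAIN2 : S_MAIN2) (hCONV : S_CONV) : S_CRIT := by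
  intro G _ _ _ _ hT
  constructor
  · intro hD
    obtain ⟨F, ρ, hfin, hidx⟩ := hMAIN2 G hT hD
    obtain ⟨p, hp⟩ := exists_surj G F ρ
    exact ⟨ρ.ker, inferInstance, pre F ρ,
      ((QuotientGroup.quotientKerEquivRange ρ).symm.toMonoidHom).comp p, hfin, hidx,
      (QuotientGroup.quotientKerEquivRange ρ).symm.surjective.comp hp⟩
  · rintro ⟨M, hM, L, p, hfin, hidx, hp⟩
    exact hCONV G M L p hfin hidx hp

/-- Groups all of whose proper subgroups are finite or cyclic violate the criterion: they would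
map onto an infinite cyclic group modulo a finite normal subgroup. -/
theorem monsters (hNOZ : S_NOZ) (G : Type) [Group G] [Infinite G] (hT : PropertyT G)
    (hsub : ∀ H : Subgroup G, H ≠ ⊤ → Finite H ∨ IsCyclic H) :
    ¬ ∃ (M : Subgroup G) (_ : M.Normal) (L : Subgroup G) (p : L →* G ⧸ M),
      Finite M ∧ ¬ L.FiniteIndex ∧ Function.Surjective p := by
  rintro ⟨M, hM, L, p, hfin, hidx, hp⟩
  have hne : L ≠ ⊤ := by
    rintro rfl
    exact hidx inferInstance
  have hinf : Infinite (G ⧸ M) := by
    by_contra h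
    rw [not_infinite_iff_finite] at h
    have h2 : Finite G := Finite.of_equiv _ (Subgroup.groupEquivQuotientProdSubgroup (s := M)).symm
    exact not_finite G
  rcases hsub L hne with hf | hc
  · have : Finite (G ⧸ M) := Finite.of_surjective p hp
    exact not_finite (G ⧸ M)
  · have hcyc : IsCyclic (G ⧸ M) := isCyclic_of_surjective p hp
    let E := intCyclicMulEquiv (G := G ⧸ M)
    let χ : G →* Multiplicative ℤ := E.symm.toMonoidHom.comp (QuotientGroup.mk' M)
    have h1 := hNOZ G hT χ
    have h2 : Function.Surjective χ := E.symm.surjective.comp (QuotientGroup.mk'_surjective M)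
    obtain ⟨g, hg⟩ := h2 (Multiplicative.ofAdd 1)
    rw [h1 g] at hg
    have : (0 : ℤ) = 1 := congrArg Multiplicative.toAdd hg
    omega

end Pool.Agent.T4h92.DC.CRIT
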