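import Pool.Agent.T4h92.DC.Stm

set_option autoImplicit false

open MeasureTheory Filter Topology ENNReal

namespace Pool.Agent.T4h92.DC.ERC

open Pool.Agent.T4h92.DC

theorem t_ERC : S_ERC := by
  intro G Ω Y _ _ m _ T _ _ K hE θ hθ hinv
  have : NeZero m := ⟨IsProbabilityMeasure.ne_zero m⟩
  have : Nonempty Ω := by
    by_contra h
    have : IsEmpty Ω := not_nonempty_iff.1 h
    exact IsProbabilityMeasure.ne_zero m (Measure.eq_zero_of_isEmpty m)
  have : Nonempty Y := ⟨θ (Classical.arbitrary Ω)⟩
  have key := Filter.exists_eventuallyEq_const_of_forall_separating (l := ae m) (f := θ)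
    (fun s : Set Y => MeasurableSet s) (by
      intro U hU
      have hpre : MeasurableSet (θ ⁻¹' U) := hθ hU
      have h1 : ∀ g ∈ K, T g ⁻¹' (θ ⁻¹' U) =ᵐ[m] (θ ⁻¹' U) := by
        intro g hg
        filter_upwards [hinv g hg] with x hx
        apply propext
        show θ (T g x) ∈ U ↔ θ x ∈ U
        rw [hx]
      rcases hE _ hpre h1 with h0 | h0
      · right
        rw [ae_iff]; simp only [not_not]; exact h0
      · left
        rw [ae_iff]
        have : m (θ ⁻¹' U)ᶜ = 0 := by
          rw [prob_compl_eq_zero_iff hpre]; exact h0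
        exact this)
  obtain ⟨a, ha⟩ := key
  exact ⟨a, ha⟩

end Pool.Agent.T4h92.DC.ERC
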