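import Pool.Agent.T4h92.DC.Stm

set_option autoImplicit false

open MeasureTheory Filter Topology ENNReal

namespace Pool.Agent.T4h92.DC.ERG

open Pool.Agent.T4h92.DC

theorem t_ERG : S_ERG := by
  intro G Ω _ _ m _ T hT hM K hK A hA hinv
  have h1 := hM A A hA hA
  have h2 : ∃ᶠ g in cofinite, g ∈ K := by
    rw [Filter.frequently_cofinite_iff_infinite]; exact hK
  have h3 : ∃ᶠ g in cofinite, m (A ∩ T g ⁻¹' A) = m A := h2.mono (fun g hg => by
     have h : (A ∩ T g ⁻¹' A : Set Ω) =ᵐ[m] (A ∩ A : Set Ω) :=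
       (ae_eq_refl A).inter (hinv g hg)
     rw [Set.inter_self] at h
     exact measure_congr h)
  have h4 : m A * m A = m A := by
    by_contra hne
    exact h3 (h1.eventually_ne hne)
  by_cases h0 : m A = 0
  · exact Or.inl h0
  · right
    have h5 : m A * m A = m A * 1 := by rw [h4, mul_one]
    exact (ENNReal.mul_right_inj h0 (measure_ne_top m A)).1 h5

end Pool.Agent.T4h92.DC.ERG
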