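import Pool.Agent.T4h92.DC.Stm2

set_option autoImplicit false

open MeasureTheory Filter Topology ENNReal
open Pool.Agent.T4h92.DC

namespace Pool.Agent.T4h92.DC.FIM2

theorem t_FIM2 (hMBE : S_MBE) (hERG : S_ERG) (hERC : S_ERC) : S_FIM2 := by
  intro G _ _ _ Y _ _ _ F ρ θ hθ heq hinf
  obtain ⟨hP, hM⟩ := hMBE G Bool coin
  have hK : (ρ.ker : Set G).Infinite := Set.infinite_coe_iff.1 hinf
  refine hERC G (G → Bool) Y (ber G coin) sh (ρ.ker : Set G) (hERG G _ _ _ hP hM _ hK) θ hθ ?_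
  intro g hg
  have h1 := heq g 1 (by
    rw [SetLike.mem_coe, MonoidHom.mem_ker] at hg
    rw [hg]; rfl)
  filter_upwards [h1] with x hx
  rw [hx]
  simp

end Pool.Agent.T4h92.DC.FIM2
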