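import Pool.Agent.T4h92.DC.Stm

set_option autoImplicit false

open MeasureTheory Filter Topology ENNReal

namespace Pool.Agent.T4h92.DC.FRA

open Pool.Agent.T4h92.DC

theorem coin_sing (b : Bool) : coin {b} = 2⁻¹ := by
  unfold coin
  rw [PMF.toMeasure_apply_singleton _ _ (MeasurableSet.singleton b)]
  simp [PMF.uniformOfFintype_apply]

theorem box (G : Type) (t : Finset G) (y : G → Bool) :
    ber G coin {x | ∀ h ∈ t, x h = y h} = (2⁻¹ : ℝ≥0∞) ^ t.card := by
  have h1 : {x : G → Bool | ∀ h ∈ t, x h = y h} = Set.pi (t : Set G) (fun h => {y h}) := by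
    ext x; simp [Set.mem_pi]
  rw [h1]
  unfold ber
  rw [Measure.infinitePi_pi (fun _ : G => coin) (by intro i _; exact MeasurableSet.singleton _)]
  simp [coin_sing]

theorem half_pow_tendsto : Tendsto (fun n : ℕ => (2⁻¹ : ℝ≥0∞) ^ n) atTop (𝓝 0) :=
  ENNReal.tendsto_pow_atTop_nhds_zero_of_lt_one (by simp)

theorem exists_sep (G : Type) [Group G] [Infinite G] (g : G) (hg : g ≠ 1) (n : ℕ) :
    ∃ s : Finset G, s.card = n ∧ ∀ h ∈ s, g * h ∉ s := by
  classical
  induction n with
  | zero => exact ⟨∅, by simp, by simp⟩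
  | succ n ih =>
    obtain ⟨s, hs, hs2⟩ := ih
    obtain ⟨h, hh⟩ := Infinite.exists_notMem_finset
      (s ∪ s.image (fun k => g * k) ∪ s.image (fun k => g⁻¹ * k))
    simp only [Finset.mem_union, Finset.mem_image, not_or, not_exists, not_and] at hh
    obtain ⟨⟨h1, h2⟩, h3⟩ := hh
    refine ⟨insert h s, by rw [Finset.card_insert_of_notMem h1, hs], ?_⟩
    intro k hk hgk
    rw [Finset.mem_insert] at hk hgk
    rcases hk with rfl | hk
    · rcases hgk with hgk | hgk
      · exact hg (mul_eq_right.1 hgk)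
      · exact h3 _ hgk (by group)
    · rcases hgk with hgk | hgk
      · exact h2 k hk hgk
      · exact hs2 k hk hgk

theorem bound (G : Type) [Group G] (g : G) (s : Finset G)
    (hs : ∀ h ∈ s, g * h ∉ s) :
    ber G coin {x | sh g x = x} ≤ (2⁻¹ : ℝ≥0∞) ^ s.card := by
  classical
  set t : Finset G := s ∪ s.image (fun k => g⁻¹ * k) with ht
  have hdisj : Disjoint s (s.image (fun k => g⁻¹ * k)) := by
    rw [Finset.disjoint_left]
    intro a ha hb
    obtain ⟨k, hk, hka⟩ := Finset.mem_image.1 hb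
    apply hs a ha
    rw [← hka]
    simpa using hk
  have htc : t.card = 2 * s.card := by
    rw [ht, Finset.card_union_of_disjoint hdisj,
      Finset.card_image_of_injective _ (mul_right_injective g⁻¹)]
    ring
  have hsub : {x : G → Bool | sh g x = x} ⊆
      ⋃ e ∈ s.powerset, {x : G → Bool | ∀ h ∈ t, x h = decide (h ∈ e ∨ g * h ∈ e)} := by
    intro x hx
    have hx' : ∀ h, x (g⁻¹ * h) = x h := fun h => congrFun hx h
    simp only [Set.mem_iUnion]
    refine ⟨s.filter (fun h => x h = true), Finset.mem_powerset.2 (Finset.filter_subset _ _), ?_⟩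
    intro h hh
    rw [ht, Finset.mem_union] at hh
    rcases hh with hh | hh
    · have h1 : g * h ∉ s := hs h hh
      simp only [Finset.mem_filter, hh, h1, true_and, false_and, or_false]
      cases x h <;> simp
    · obtain ⟨k, hk, rfl⟩ := Finset.mem_image.1 hh
      have h2 : g⁻¹ * k ∉ s := fun hc => hs _ hc (by simpa using hk)
      have h3 : g * (g⁻¹ * k) = k := by group
      simp only [Finset.mem_filter, h2, h3, hk, true_and, false_and, false_or]
      rw [hx' k]
      cases x k <;> simp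
  calc ber G coin {x | sh g x = x}
      ≤ ber G coin (⋃ e ∈ s.powerset,
          {x : G → Bool | ∀ h ∈ t, x h = decide (h ∈ e ∨ g * h ∈ e)}) := measure_mono hsub
    _ ≤ ∑ e ∈ s.powerset, ber G coin
          {x : G → Bool | ∀ h ∈ t, x h = decide (h ∈ e ∨ g * h ∈ e)} :=
        measure_biUnion_finset_le _ _
    _ = ∑ e ∈ s.powerset, (2⁻¹ : ℝ≥0∞) ^ t.card := by
        apply Finset.sum_congr rfl
        intro e _
        exact box G t (fun h => decide (h ∈ e ∨ g * h ∈ e))
    _ = (2 : ℝ≥0∞) ^ s.card * ((2⁻¹ : ℝ≥0∞) ^ s.card * (2⁻¹ : ℝ≥0∞) ^ s.card) := by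
        rw [Finset.sum_const, Finset.card_powerset, htc, nsmul_eq_mul, two_mul, pow_add]
        push_cast
        rfl
    _ = (2⁻¹ : ℝ≥0∞) ^ s.card := by
        rw [← mul_assoc, ← mul_pow, ENNReal.mul_inv_cancel (by simp) (by simp), one_pow, one_mul]

theorem t_FRA : S_FRA := by
  intro G _ _ _ g hg
  rw [ae_iff]
  simp only [ne_eq, not_not]
  apply le_antisymm _ zero_le
  refine ge_of_tendsto' half_pow_tendsto (fun n => ?_)
  obtain ⟨s, hs, hs2⟩ := exists_sep G g hg n
  rw [← hs]
  exact bound G g s hs2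

end Pool.Agent.T4h92.DC.FRA
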