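import Pool.Agent.T4h92.DC.T_FRA

set_option autoImplicit false

open MeasureTheory Filter Topology ENNReal

namespace Pool.Agent.T4h92.DC.FRB

open Pool.Agent.T4h92.DC

theorem t_FRB : S_FRB := by
  intro G _ _ x
  apply le_antisymm _ zero_le
  refine ge_of_tendsto' FRA.half_pow_tendsto (fun n => ?_)
  obtain ⟨s, hs⟩ := Infinite.exists_subset_card_eq G n
  rw [← hs, ← FRA.box G s x]
  apply measure_mono
  intro y hy h _
  rw [Set.mem_singleton_iff.1 hy]

end Pool.Agent.T4h92.DC.FRB
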