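import Pool.Agent.T4h92.DC.Stm

set_option autoImplicit false

open MeasureTheory Filter Topology ENNReal

namespace Pool.Agent.T4h92.DC.KOO

open Pool.Agent.T4h92.DC

theorem sq_norm {Λ : Type} [MeasurableSpace Λ] {ℓ : Measure Λ} (w : Lp ℂ 2 ℓ) :
    ∫⁻ z, ‖w z‖ₑ ^ 2 ∂ℓ = ENNReal.ofReal (‖w‖ ^ 2) := by
  have h1 := eLpNorm_nnreal_pow_eq_lintegral (f := (w : Λ → ℂ)) (μ := ℓ) (p := 2) (by norm_num)
  have h2 : ∫⁻ z, ‖w z‖ₑ ^ 2 ∂ℓ = (eLpNorm (w : Λ → ℂ) 2 ℓ) ^ 2 := by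
    have h3 : ((2 : NNReal) : ℝ) = ((2 : ℕ) : ℝ) := by norm_num
    rw [h3, ENNReal.rpow_natCast] at h1
    simp only [ENNReal.rpow_natCast] at h1
    exact h1.symm
  rw [h2, ← Lp.enorm_def, ← ofReal_norm_eq_enorm, ENNReal.ofReal_pow (norm_nonneg _)]

theorem t_KOO (hQT : S_QT) (hKRP : S_KRP) : S_KOO := by
  classical
  intro G _ _ hT
  obtain ⟨S, κ, hκ, h⟩ := hQT G hT
  refine ⟨S.image (fun s => s⁻¹), ?_⟩
  intro δ hδ
  refine ⟨κ ^ 2 * δ / 2, by positivity, ?_⟩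
  intro Λ _ ℓ _ R hR A hA hAfin hsm
  obtain ⟨π, hπ⟩ := hKRP G Λ ℓ R hR
  set v : Lp ℂ 2 ℓ := indicatorConstLp 2 hA hAfin (1 : ℂ) with hv
  have hvA : (v : Λ → ℂ) =ᵐ[ℓ] A.indicator (fun _ => (1 : ℂ)) := indicatorConstLp_coeFn
  have hd : (0 : ℝ) < Real.sqrt δ := Real.sqrt_pos.2 hδ
  have hd2 : Real.sqrt δ ^ 2 = δ := Real.sq_sqrt hδ.le
  obtain ⟨u, hu, hvu⟩ := h (Lp ℂ 2 ℓ) π v (Real.sqrt δ) hd (by
    intro s hs
    have h1 := hsm s⁻¹ (Finset.mem_image_of_mem _ hs)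
    have h2 : ∫⁻ z, ‖(π s v - v : Lp ℂ 2 ℓ) z‖ₑ ^ 2 ∂ℓ = ℓ (symmDiff A (R s⁻¹ ⁻¹' A)) := by
      have hm : MeasurableSet (symmDiff A (R s⁻¹ ⁻¹' A)) :=
        hA.symmDiff ((hR.mp s⁻¹).measurable hA)
      rw [← lintegral_indicator_one hm]
      apply lintegral_congr_ae
      have e1 := Lp.coeFn_sub (π s v) v
      have e2 := hπ s v
      have e3 := (hR.mp s⁻¹).quasiMeasurePreserving.ae hvA
      filter_upwards [e1, e2, e3, hvA] with z e1 e2 e3 e4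
      rw [e1, Pi.sub_apply, e2, e3, e4]
      by_cases hz : z ∈ A <;> by_cases hz' : R s⁻¹ z ∈ A <;>
        simp [Set.indicator, hz, hz', Set.mem_symmDiff]
    rw [sq_norm] at h2
    have h3 : ENNReal.ofReal (‖π s v - v‖ ^ 2) ≤ ENNReal.ofReal (κ ^ 2 * δ / 2) := by
      rw [h2]; exact h1
    have h4 : ‖π s v - v‖ ^ 2 ≤ κ ^ 2 * δ / 2 :=
      (ENNReal.ofReal_le_ofReal_iff (by positivity)).1 h3
    have h5 : ‖π s v - v‖ ^ 2 < (κ * Real.sqrt δ) ^ 2 := by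
      rw [mul_pow, hd2]
      have : 0 < κ ^ 2 * δ := by positivity
      linarith
    exact lt_of_pow_lt_pow_left₀ 2 (by positivity) h5)
  refine ⟨u, (Lp.stronglyMeasurable u).measurable, ?_, ?_⟩
  · intro g
    have h1 := hπ g⁻¹ u
    rw [hu g⁻¹, inv_inv] at h1
    filter_upwards [h1] with z hz
    exact hz.symm
  · have h1 : ∫⁻ z, ‖u z - A.indicator (fun _ => (1 : ℂ)) z‖ₑ ^ 2 ∂ℓ
        = ∫⁻ z, ‖(u - v : Lp ℂ 2 ℓ) z‖ₑ ^ 2 ∂ℓ := by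
      apply lintegral_congr_ae
      filter_upwards [Lp.coeFn_sub u v, hvA] with z e1 e2
      rw [e1, Pi.sub_apply, e2]
    rw [h1, sq_norm]
    apply ENNReal.ofReal_le_ofReal
    rw [← hd2]
    apply pow_le_pow_left₀ (norm_nonneg _)
    rw [norm_sub_rev]
    exact hvu

end Pool.Agent.T4h92.DC.KOO
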