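import Pool.Agent.T4h92.DC.Stm

set_option autoImplicit false

open MeasureTheory Filter Topology ENNReal

namespace Pool.Agent.T4h92.DC.KRP

open Pool.Agent.T4h92.DC

variable {G Λ : Type} [Group G] [MeasurableSpace Λ] {ℓ : Measure Λ} {R : G → Λ → Λ}

/-- The Koopman operator of a group element. -/
noncomputable def cm (h : PMP ℓ R) (g : G) : Lp ℂ 2 ℓ →ₗᵢ[ℂ] Lp ℂ 2 ℓ :=
  Lp.compMeasurePreservingₗᵢ ℂ (R g) (h.mp g)

theorem cm_coe (h : PMP ℓ R) (g : G) (f : Lp ℂ 2 ℓ) :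
    (cm h g f : Λ → ℂ) =ᵐ[ℓ] fun z => f (R g z) :=
  Lp.coeFn_compMeasurePreserving f (h.mp g)

theorem cm_cm (h : PMP ℓ R) (a b : G) (f : Lp ℂ 2 ℓ) : cm h a (cm h b f) = cm h (b * a) f := by
  apply Lp.ext
  have h1 := cm_coe h a (cm h b f)
  have h2 := (h.mp a).quasiMeasurePreserving.ae (cm_coe h b f)
  have h3 := cm_coe h (b * a) f
  filter_upwards [h1, h2, h3] with z e1 e2 e3
  rw [e1, e2, e3, h.mul]

theorem cm_one (h : PMP ℓ R) (f : Lp ℂ 2 ℓ) : cm h 1 f = f := by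
  apply Lp.ext
  filter_upwards [cm_coe h 1 f] with z e1
  rw [e1, h.one]

/-- The Koopman representation. -/
noncomputable def koop (h : PMP ℓ R) : G →* (Lp ℂ 2 ℓ ≃ₗᵢ[ℂ] Lp ℂ 2 ℓ) where
  toFun g :=
    { toFun := fun w => cm h g⁻¹ w
      invFun := fun w => cm h g w
      map_add' := fun a b => map_add (cm h g⁻¹) a b
      map_smul' := fun c a => map_smul (cm h g⁻¹) c a
      left_inv := fun a => by
        show cm h g (cm h g⁻¹ a) = a
        rw [cm_cm, inv_mul_cancel, cm_one]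
      right_inv := fun a => by
        show cm h g⁻¹ (cm h g a) = a
        rw [cm_cm, mul_inv_cancel, cm_one]
      norm_map' := fun a => (cm h g⁻¹).norm_map a }
  map_one' := by
    apply LinearIsometryEquiv.ext
    intro w
    show cm h (1 : G)⁻¹ w = w
    rw [inv_one, cm_one]
  map_mul' := by
    intro a b
    apply LinearIsometryEquiv.ext
    intro w
    show cm h (a * b)⁻¹ w = cm h a⁻¹ (cm h b⁻¹ w)
    rw [cm_cm, mul_inv_rev]

theorem t_KRP : S_KRP := by
  intro G _ Λ _ ℓ R h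
  exact ⟨koop h, fun g f => cm_coe h g⁻¹ f⟩

end Pool.Agent.T4h92.DC.KRP
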