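import Pool.Agent.T4h92.DC.Stm

set_option autoImplicit false

open MeasureTheory Filter Topology ENNReal

namespace Pool.Agent.T4h92.DC.LOA

open Pool.Agent.T4h92.DC

theorem coc_one {G Ω Γ : Type} [Group G] [Group Γ] [MeasurableSpace Ω] {m : Measure Ω}
    {T : G → Ω → Ω} {w : G → Ω → Γ} (hT : PMP m T) (hw : Coc T w) (x : Ω) : w 1 x = 1 := by
  have h := hw.mul 1 1 x
  rw [mul_one, hT.one] at h
  exact (mul_eq_left.1 h.symm)

theorem t_LOA : S_LOA := by
  intro G Ω Γ _ _ m _ _ _ _ _ T w w' hT hw hw'
  set R : G → Ω × Γ → Ω × Γ := fun g z => (T g z.1, w' g z.1 * z.2 * (w g z.1)⁻¹) with hR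
  have mw : ∀ g, Measurable (w g) := fun g => measurable_to_countable' fun γ => hw.meas g γ
  have mw' : ∀ g, Measurable (w' g) := fun g => measurable_to_countable' fun γ => hw'.meas g γ
  have hRm : ∀ g, Measurable (R g) := by
    intro g
    have h1 : Measurable (fun z : Ω × Γ => T g z.1) := (hT.mp g).measurable.comp measurable_fst
    have h2 : Measurable (fun z : Ω × Γ => w g z.1) := (mw g).comp measurable_fst
    have h3 : Measurable (fun z : Ω × Γ => w' g z.1) := (mw' g).comp measurable_fst
    exact h1.prodMk ((h3.mul measurable_snd).mul h2.inv)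
  -- bijections of the fibres
  have hcount : ∀ (a b : Γ) (S : Set Γ),
      (Measure.count : Measure Γ) ((fun c => a * c * b⁻¹) ⁻¹' S) = Measure.count S := by
    intro a b S
    have e : (fun c : Γ => a * c * b⁻¹) ⁻¹' S = (fun c : Γ => a⁻¹ * c * b) '' S := by
      ext c
      simp only [Set.mem_preimage, Set.mem_image]
      constructor
      · intro h
        exact ⟨_, h, by group⟩
      · rintro ⟨d, hd, rfl⟩
        have : a * (a⁻¹ * d * b) * b⁻¹ = d := by group
        rwa [this]
    rw [e]
    refine Measure.count_injective_image ?_ S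
    intro c d hcd
    have h1 : a⁻¹ * c * b = a⁻¹ * d * b := hcd
    exact mul_left_cancel (mul_right_cancel h1)
  have hmp : ∀ g, MeasurePreserving (R g) (m.prod (Measure.count : Measure Γ))
      (m.prod (Measure.count : Measure Γ)) := by
    intro g
    refine ⟨hRm g, ?_⟩
    ext D hD
    rw [Measure.map_apply (hRm g) hD, Measure.prod_apply ((hRm g) hD), Measure.prod_apply hD]
    have e1 : ∀ x : Ω, (Measure.count : Measure Γ) (Prod.mk x ⁻¹' (R g ⁻¹' D))
        = (Measure.count : Measure Γ) (Prod.mk (T g x) ⁻¹' D) := by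
      intro x
      have e2 : Prod.mk x ⁻¹' (R g ⁻¹' D)
          = (fun c => w' g x * c * (w g x)⁻¹) ⁻¹' (Prod.mk (T g x) ⁻¹' D) := rfl
      rw [e2, hcount]
    simp_rw [e1]
    have h2 : Measurable (fun x : Ω => (Measure.count : Measure Γ) (Prod.mk x ⁻¹' D)) :=
      measurable_measure_prodMk_left hD
    exact (hT.mp g).lintegral_comp h2
  refine ⟨⟨?_, ?_, hmp⟩, ?_⟩
  · intro z
    show (T 1 z.1, w' 1 z.1 * z.2 * (w 1 z.1)⁻¹) = z
    rw [hT.one, coc_one hT hw, coc_one hT hw']
    simp
  · intro g h z
    show (T (g * h) z.1, w' (g * h) z.1 * z.2 * (w (g * h) z.1)⁻¹)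
      = (T g (T h z.1), w' g (T h z.1) * (w' h z.1 * z.2 * (w h z.1)⁻¹) * (w g (T h z.1))⁻¹)
    rw [hT.mul, hw.mul, hw'.mul]
    congr 1
    group
  · intro g
    have hA : MeasurableSet {z : Ω × Γ | z.2 = 1} :=
      measurable_snd (measurableSet_singleton (1 : Γ))
    have hD : MeasurableSet (symmDiff {z : Ω × Γ | z.2 = 1} (R g ⁻¹' {z : Ω × Γ | z.2 = 1})) :=
      hA.symmDiff ((hRm g) hA)
    show (m.prod (Measure.count : Measure Γ))
      (symmDiff {z : Ω × Γ | z.2 = 1} (R g ⁻¹' {z : Ω × Γ | z.2 = 1})) ≤ _
    rw [Measure.prod_apply hD]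
    have hE : MeasurableSet {x | w g x ≠ w' g x} := by
      have : {x | w g x ≠ w' g x} = ⋃ a : Γ, {x | w g x = a} ∩ {x | w' g x = a}ᶜ := by
        ext x
        simp only [Set.mem_ofPred_eq, Set.mem_iUnion, Set.mem_inter_iff, Set.mem_compl_iff]
        constructor
        · intro hx
          exact ⟨w g x, rfl, fun hh => hx hh.symm⟩
        · rintro ⟨a, h1, h2⟩ h3
          exact h2 (by rw [← h3, h1])
      rw [this]
      exact MeasurableSet.iUnion fun a => (hw.meas g a).inter (hw'.meas g a).compl
    have hle : ∀ x : Ω, (Measure.count : Measure Γ)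
        (Prod.mk x ⁻¹' (symmDiff {z : Ω × Γ | z.2 = 1} (R g ⁻¹' {z : Ω × Γ | z.2 = 1})))
        ≤ Set.indicator {x | w g x ≠ w' g x} (fun _ => (2 : ℝ≥0∞)) x := by
      intro x
      by_cases hx : w g x = w' g x
      · have e0 : Prod.mk x ⁻¹' (symmDiff {z : Ω × Γ | z.2 = 1} (R g ⁻¹' {z : Ω × Γ | z.2 = 1}))
            = ∅ := by
          ext c
          simp only [Set.mem_preimage, Set.mem_symmDiff, Set.mem_ofPred_eq, hR,
            Set.mem_empty_iff_false, iff_false]
          have : w' g x * c * (w g x)⁻¹ = 1 ↔ c = 1 := by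
            rw [hx]
            constructor
            · intro hh
              have h4 : w' g x * c = w' g x := by
                have := congrArg (· * w' g x) hh
                simpa using this
              exact mul_eq_left.1 h4
            · intro hh
              rw [hh]
              group
          tauto
        rw [e0]
        simp
      · rw [Set.indicator_of_mem (show x ∈ {x | w g x ≠ w' g x} from hx)]
        have hsub : Prod.mk x ⁻¹' (symmDiff {z : Ω × Γ | z.2 = 1} (R g ⁻¹' {z : Ω × Γ | z.2 = 1}))
            ⊆ {1} ∪ {(w' g x)⁻¹ * w g x} := by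
          intro c hc
          simp only [Set.mem_preimage, Set.mem_symmDiff, Set.mem_ofPred_eq, hR] at hc
          rcases hc with ⟨h1, _⟩ | ⟨h1, _⟩
          · exact Or.inl h1
          · refine Or.inr ?_
            have h2 : w' g x * c = w g x := by
              have := congrArg (· * w g x) h1
              simpa using this
            rw [Set.mem_singleton_iff, ← h2]
            group
        refine (measure_mono hsub).trans ((measure_union_le _ _).trans ?_)
        rw [Measure.count_singleton, Measure.count_singleton]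
        norm_num
    refine (lintegral_mono hle).trans ?_
    rw [lintegral_indicator_const hE]

end Pool.Agent.T4h92.DC.LOA
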