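import Pool.Agent.T4h92.DC.Stm

set_option autoImplicit false

open MeasureTheory Filter Topology ENNReal

namespace Pool.Agent.T4h92.DC.LOB

open Pool.Agent.T4h92.DC

theorem term_ge (z : ℂ) (h : 1 / 2 ≤ ‖z‖) : ENNReal.ofReal (1 / 4) ≤ ‖z‖ₑ ^ 2 := by
  rw [← ofReal_norm, ← ENNReal.ofReal_pow (norm_nonneg z)]
  apply ENNReal.ofReal_le_ofReal
  nlinarith [norm_nonneg z]

theorem t_LOB : S_LOB := by
  classical
  intro G Ω Γ _ _ _ m _ _ _ T w w' F hT hE hw hw' hF heq hsum
  set M : Ω → Γ → Prop := fun x γ => 1 / 2 < ‖F x γ‖ with hM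
  have hMm : ∀ γ, MeasurableSet {x | M x γ} := fun γ =>
    measurableSet_lt measurable_const (hF γ).norm
  set S : Set Ω := {x | ∃ γ, M x γ ∧ ∀ γ', γ' ≠ γ → ¬ M x γ'} with hSdef
  have hS : MeasurableSet S := by
    have e : S = ⋃ γ, ({x | M x γ} ∩ ⋂ γ', {x | γ' ≠ γ → ¬ M x γ'}) := by
      ext x
      simp [hSdef]
    rw [e]
    refine MeasurableSet.iUnion (fun γ => (hMm γ).inter (MeasurableSet.iInter (fun γ' => ?_)))
    by_cases hγ : γ' = γ
    · have : {x | γ' ≠ γ → ¬ M x γ'} = Set.univ := by ext x; simp [hγ]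
      rw [this]; exact MeasurableSet.univ
    · have : {x | γ' ≠ γ → ¬ M x γ'} = {x | M x γ'}ᶜ := by ext x; simp [hγ]
      rw [this]; exact (hMm γ').compl
  -- equivariance of M
  have hME : ∀ g : G, ∀ᵐ x ∂m, ∀ γ : Γ, (M (T g x) (w' g x * γ * (w g x)⁻¹) ↔ M x γ) := by
    intro g
    filter_upwards [heq g] with x hx γ
    simp only [hM]
    rw [hx γ]
  -- the unique element is mapped to the unique element
  have hmap : ∀ (g : G) (x : Ω), (∀ γ : Γ, (M (T g x) (w' g x * γ * (w g x)⁻¹) ↔ M x γ)) →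
      ∀ γ : Γ, (M x γ ∧ ∀ γ', γ' ≠ γ → ¬ M x γ') →
      (M (T g x) (w' g x * γ * (w g x)⁻¹) ∧
        ∀ γ', γ' ≠ w' g x * γ * (w g x)⁻¹ → ¬ M (T g x) γ') := by
    intro g x hx γ hγ
    refine ⟨(hx γ).2 hγ.1, fun γ' hne hM' => ?_⟩
    have e : γ' = w' g x * ((w' g x)⁻¹ * γ' * w g x) * (w g x)⁻¹ := by group
    rw [e] at hM'
    have h2 := (hx _).1 hM'
    refine hγ.2 _ ?_ h2
    intro h3
    apply hne
    rw [← h3]
    group
  have hinv : ∀ g ∈ (Set.univ : Set G), T g ⁻¹' S =ᵐ[m] S := by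
    intro g _
    refine Filter.eventuallyEq_set.2 ?_
    filter_upwards [hME g] with x hx
    constructor
    · rintro ⟨γ, hγ⟩
      refine ⟨(w' g x)⁻¹ * γ * w g x, ?_, ?_⟩
      · rw [← hx]
        have e : w' g x * ((w' g x)⁻¹ * γ * w g x) * (w g x)⁻¹ = γ := by group
        rw [e]; exact hγ.1
      · intro γ' hne hM'
        rw [← hx] at hM'
        refine hγ.2 _ ?_ hM'
        intro h3
        apply hne
        rw [← h3]
        group
    · rintro ⟨γ, hγ⟩
      exact ⟨_, hmap g x hx γ hγ⟩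
  have h01 := hE S hS hinv
  -- the set is not null
  have hlow : ∀ x, x ∉ S → ENNReal.ofReal (1 / 4) ≤
      ∑' γ : Γ, ‖F x γ - Set.indicator {(1 : Γ)} (fun _ => (1 : ℂ)) γ‖ₑ ^ 2 := by
    intro x hx
    by_cases h1 : M x 1
    · have : ∃ γ', γ' ≠ 1 ∧ M x γ' := by
        by_contra hc
        push Not at hc
        exact hx ⟨1, h1, hc⟩
      obtain ⟨γ', hne, hγ'⟩ := this
      refine le_trans ?_ (ENNReal.le_tsum γ')
      apply term_ge
      rw [Set.indicator_of_notMem (by simpa using hne), sub_zero]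
      exact hγ'.le
    · refine le_trans ?_ (ENNReal.le_tsum 1)
      apply term_ge
      rw [Set.indicator_of_mem (by simp)]
      have h2 : ‖F x 1‖ ≤ 1 / 2 := not_lt.1 h1
      have h3 : ‖(1 : ℂ)‖ - ‖F x 1‖ ≤ ‖F x 1 - 1‖ := by
        rw [← norm_neg (F x 1 - 1), neg_sub]
        exact norm_sub_norm_le _ _
      rw [norm_one] at h3
      linarith
  have hfm : ∀ γ : Γ, Measurable (fun x =>
      ‖F x γ - Set.indicator {(1 : Γ)} (fun _ => (1 : ℂ)) γ‖ₑ ^ 2) := by
    intro γ
    exact (((hF γ).sub_const _).enorm).pow_const 2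
  have hS1 : m S = 1 := by
    rcases h01 with h0 | h1
    · exfalso
      have hc : m Sᶜ = 1 := by
        rw [prob_compl_eq_one_iff hS]; exact h0
      have hmk := mul_meas_ge_le_lintegral (μ := m)
        (Measurable.ennreal_tsum hfm) (ENNReal.ofReal (1 / 4))
      rw [lintegral_tsum (fun γ => (hfm γ).aemeasurable)] at hmk
      have h2 : ENNReal.ofReal (1 / 4) * m Sᶜ ≤ ENNReal.ofReal (1 / 8) := by
        refine le_trans ?_ (hmk.trans hsum)
        gcongr
        intro x hx
        exact hlow x hx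
      rw [hc, mul_one] at h2
      have h3 := (ENNReal.ofReal_le_ofReal_iff (by norm_num : (0:ℝ) ≤ 1 / 8)).1 h2
      norm_num at h3
    · exact h1
  have hSae : ∀ᵐ x ∂m, x ∈ S := (mem_ae_iff_prob_eq_one hS).2 hS1
  -- the transfer function
  set Φ : Ω → Γ := fun x => if h : x ∈ S then h.choose else 1 with hΦ
  have hΦS : ∀ x, x ∈ S → ∀ γ, M x γ → Φ x = γ := by
    intro x hx γ hγ
    have h1 := (hx : ∃ γ, M x γ ∧ ∀ γ', γ' ≠ γ → ¬ M x γ').choose_spec
    simp only [hΦ, dif_pos hx]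
    by_contra hne
    exact h1.2 γ (Ne.symm hne) hγ
  have hΦM : ∀ x, x ∈ S → M x (Φ x) := by
    intro x hx
    have h1 := (hx : ∃ γ, M x γ ∧ ∀ γ', γ' ≠ γ → ¬ M x γ').choose_spec
    simp only [hΦ, dif_pos hx]
    exact h1.1
  refine ⟨Φ, ?_, ?_⟩
  · intro γ
    have e : {x | Φ x = γ} = (S ∩ {x | M x γ}) ∪ (Sᶜ ∩ {x | (1 : Γ) = γ}) := by
      ext x
      by_cases hx : x ∈ S
      · constructor
        · intro h
          left
          refine ⟨hx, ?_⟩
          have := hΦM x hx
          rw [h] at this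
          exact this
        · rintro (h | h)
          · exact hΦS x hx γ h.2
          · exact absurd hx h.1
      · constructor
        · intro h
          right
          refine ⟨hx, ?_⟩
          have h' : Φ x = γ := h
          simp only [hΦ, dif_neg hx] at h'
          exact h'
        · rintro (h | h)
          · exact absurd h.1 hx
          · have h' : (1 : Γ) = γ := h.2
            show Φ x = γ
            simp only [hΦ, dif_neg hx]
            exact h'
    rw [e]
    exact (hS.inter (hMm γ)).union (hS.compl.inter (MeasurableSet.const _))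
  · intro g
    have h2 : ∀ᵐ x ∂m, T g x ∈ S := (hT.mp g).quasiMeasurePreserving.ae hSae
    filter_upwards [hME g, hSae, h2] with x hx hxS hTS
    have h3 := (hx (Φ x)).2 (hΦM x hxS)
    have h4 := hΦS (T g x) hTS _ h3
    rw [h4]
    group

end Pool.Agent.T4h92.DC.LOB
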