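import Pool.Agent.T4h92.DC.Stm

set_option autoImplicit false

open MeasureTheory Filter Topology ENNReal

namespace Pool.Agent.T4h92.DC.LOC

open Pool.Agent.T4h92.DC

theorem t_LOC (hKOO : S_KOO) (hLOA : S_LOA) (hLOB : S_LOB) : S_LOC := by
  intro G _ _ hG
  obtain ⟨S, hS⟩ := hKOO G hG
  obtain ⟨η, hη, hη2⟩ := hS (1 / 8) (by norm_num)
  refine ⟨S, η / 2, by positivity, ?_⟩
  intro Ω Γ _ m _ _ _ T w w' hT hErg hw hw' hsmall
  letI : MeasurableSpace Γ := ⊤
  haveI : DiscreteMeasurableSpace Γ := ⟨fun _ => trivial⟩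
  obtain ⟨hPMP, hsym⟩ := hLOA G Ω Γ m T w w' hT hw hw'
  have hA : MeasurableSet {z : Ω × Γ | z.2 = 1} :=
    measurable_snd (measurableSet_singleton (1 : Γ))
  have hAm : (m.prod (Measure.count : Measure Γ)) {z : Ω × Γ | z.2 = 1} ≠ ⊤ := by
    have e : {z : Ω × Γ | z.2 = 1} = Set.univ ×ˢ {(1 : Γ)} := by
      ext z
      simp
    rw [e, Measure.prod_prod, Measure.count_singleton, measure_univ]
    simp
  obtain ⟨F, hF, hFinv, hFint⟩ := hη2 (Ω × Γ) (m.prod (Measure.count : Measure Γ))
    (fun g z => (T g z.1, w' g z.1 * z.2 * (w g z.1)⁻¹)) hPMP {z : Ω × Γ | z.2 = 1} hA hAm (by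
      intro s hs
      refine (hsym s).trans ?_
      refine (mul_le_mul_right (hsmall s hs) 2).trans ?_
      rw [show (2 : ℝ≥0∞) = ENNReal.ofReal 2 by norm_num, ← ENNReal.ofReal_mul (by norm_num)]
      refine ENNReal.ofReal_le_ofReal ?_
      linarith)
  refine hLOB G Ω Γ m T w w' (fun x γ => F (x, γ)) hT hErg hw hw' ?_ ?_ ?_
  · intro γ
    exact hF.comp (measurable_id.prodMk measurable_const)
  · intro g
    have h1 := Measure.ae_ae_of_ae_prod (hFinv g)
    filter_upwards [h1] with x hx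
    have h2 := Measure.ae_count_iff.1 hx
    exact h2
  · have h1 : (∑' γ : Γ, ∫⁻ x, ‖F (x, γ) - Set.indicator {(1 : Γ)} (fun _ => (1 : ℂ)) γ‖ₑ ^ 2 ∂m)
        = ∫⁻ z, ‖F z - {z : Ω × Γ | z.2 = 1}.indicator (fun _ => (1 : ℂ)) z‖ₑ ^ 2
          ∂(m.prod (Measure.count : Measure Γ)) := by
      rw [lintegral_prod_symm, lintegral_count]
      · refine tsum_congr fun γ => ?_
        refine lintegral_congr fun x => ?_
        have e : Set.indicator {(1 : Γ)} (fun _ => (1 : ℂ)) γ
            = {z : Ω × Γ | z.2 = 1}.indicator (fun _ => (1 : ℂ)) (x, γ) := by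
          by_cases hγ : γ = 1
          · subst hγ
            rw [Set.indicator_of_mem (Set.mem_singleton _), Set.indicator_of_mem]
            rfl
          · rw [Set.indicator_of_notMem (by simpa using hγ), Set.indicator_of_notMem]
            exact hγ
        rw [e]
      · refine Measurable.aemeasurable ?_
        refine Measurable.pow_const ?_ 2
        exact (hF.sub (measurable_const.indicator hA)).enorm
    rw [h1]
    exact hFint

end Pool.Agent.T4h92.DC.LOC
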