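import Pool.Agent.T4h92.DC.Stm2

set_option autoImplicit false

open MeasureTheory Filter Topology ENNReal
open Pool.Agent.T4h92.DC

namespace Pool.Agent.T4h92.DC.MAIN2

theorem t_MAIN2 (hFRP : S_FRP) (hCOC : S_COC) (hSUP : S_SUP) (hTH : S_TH) (hFIM : S_FIM2)
    (hSUM : S_SUM) (hFRB : S_FRB) (hMBE : S_MBE) : S_MAIN2 := by
  intro G _ _ _ _ hT hD
  obtain ⟨Y, mY, sY, aY, f, X₀, hact, hf, hX₀, hX₀c, hX₀i, hred, hinv⟩ := hFRP G hD
  obtain ⟨F, u, w, hw, hu, hustab, hueq⟩ := hCOC G Y f X₀ hact hf hX₀ hX₀c hX₀i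
    (fun g x hx => (hred x hx (sh g x) (hX₀i g x hx)).1 ⟨g, rfl⟩)
  haveI : Countable (NQ F) := Function.Surjective.countable (QuotientGroup.mk'_surjective (F.subgroupOf (Nor F)))
  obtain ⟨b, ρ, hb, hbeq⟩ := hSUP G Bool (NQ F) coin w hT hw
  have hPMP := (hMBE G Bool coin).1
  obtain ⟨θ, hθ, hθorb, hθstab, hθeq⟩ := hTH G (G → Bool) (ber G coin) sh Y F u w b ρ hact
    hPMP hu hb (hustab.mono fun x hx => hx.2) hueq hbeq
  refine ⟨F, ρ, ?_, ?_⟩
  · -- infinite range
    by_contra hfin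
    rw [not_finite_iff_infinite] at hfin
    obtain ⟨y₀, hy₀⟩ := hFIM G Y F ρ θ hθ hθeq hfin
    have hall : ∀ᵐ x ∂(ber G coin), x ∈ X₀ ∧ f x ∈ MulAction.orbit G y₀ := by
      filter_upwards [hX₀c, hustab, hy₀] with x h1 h2 h3
      refine ⟨h1, ?_⟩
      have h4 := hθorb x
      rw [h3] at h4
      -- y₀ ∈ orbit (u x), u x ∈ orbit (f x)
      have h5 : MulAction.orbit G y₀ = MulAction.orbit G (u x) :=
        MulAction.orbit_eq_iff.2 h4
      have h6 : MulAction.orbit G (u x) = MulAction.orbit G (f x) :=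
        MulAction.orbit_eq_iff.2 h2.1
      rw [h5, h6]
      exact MulAction.mem_orbit_self _
    obtain ⟨x₁, hx₁, hfx₁⟩ := hall.exists
    have hctb : (Set.range (fun g : G => sh g x₁)).Countable := Set.countable_range _
    have hnull : ber G coin (Set.range (fun g : G => sh g x₁)) = 0 := by
      have : Set.range (fun g : G => sh g x₁) = ⋃ g : G, {sh g x₁} := by
        ext x; simp [eq_comm]
      rw [this, measure_iUnion_null_iff]
      intro g
      exact hFRB G _
    have hone : ∀ᵐ x ∂(ber G coin), x ∈ Set.range (fun g : G => sh g x₁) := by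
      filter_upwards [hall] with x hx
      have h5 : MulAction.orbit G (f x₁) = MulAction.orbit G y₀ :=
        MulAction.orbit_eq_iff.2 hfx₁
      have h6 : f x ∈ MulAction.orbit G (f x₁) := by rw [h5]; exact hx.2
      obtain ⟨g, hg⟩ := (hred x₁ hx₁ x hx.1).2 h6
      exact ⟨g, hg.symm⟩
    have h0 : ∀ᵐ x ∂(ber G coin), x ∉ Set.range (fun g : G => sh g x₁) :=
      measure_eq_zero_iff_ae_notMem.1 hnull
    obtain ⟨x, hx, hx'⟩ := (hone.and h0).exists
    exact hx' hx
  · intro hfi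
    set ν : Measure Y := (ber G coin).map θ with hν
    haveI : IsProbabilityMeasure ν := Measure.isProbabilityMeasure_map hθ.aemeasurable
    have hL : ∀ g ∈ pre F ρ, ν.map (fun y => g • y) = ν := by
      intro l hl
      unfold pre at hl
      rw [Subgroup.mem_map] at hl
      obtain ⟨n, hn, rfl⟩ := hl
      rw [Subgroup.mem_comap] at hn
      obtain ⟨g, hg⟩ := hn
      have h1 := hθeq g n hg.symm
      rw [hν, Measure.map_map (hact _) hθ]
      have h2 : (fun y : Y => ((Nor F).subtype n) • y) ∘ θ =ᵐ[ber G coin] θ ∘ sh g := by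
        filter_upwards [h1] with x hx
        simp only [Function.comp]
        rw [hx]; rfl
      rw [Measure.map_congr h2, ← Measure.map_map hθ (hPMP.mp g).measurable, (hPMP.mp g).map_eq]
    obtain ⟨ν', h1, h2, h3⟩ := hSUM G Y (pre F ρ) ν hact hfi (IsProbabilityMeasure.ne_zero ν) hL
    exact h2 (hinv ν' h1 h3)

end Pool.Agent.T4h92.DC.MAIN2
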