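import Pool.Agent.T4h92.DC.Stm

/-!
# MP_45e9b0_lc, task MBE: Bernoulli shifts preserve the measure and are mixing
-/

set_option autoImplicit false

open MeasureTheory Filter Topology ENNReal

namespace Pool.Agent.T4h92.DC.MBE

open Pool.Agent.T4h92.DC

theorem sh_meas {G B : Type} [Group G] [MeasurableSpace B] (g : G) :
    Measurable (sh g : (G → B) → (G → B)) :=
  measurable_pi_lambda _ fun h => measurable_pi_apply (g⁻¹ * h)

open Classical in
theorem sh_pre {G B : Type} [Group G] (g : G) (s : Finset G) (t : G → Set B) :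
    (sh g : (G → B) → (G → B)) ⁻¹' ((s : Set G).pi t) =
      ((s.image (fun h => g⁻¹ * h) : Finset G) : Set G).pi (fun k => t (g * k)) := by
  ext x
  simp only [Set.mem_preimage, Set.mem_pi, Finset.mem_coe, Finset.mem_image, sh]
  constructor
  · rintro h k ⟨l, hl, rfl⟩
    have := h l hl
    rwa [mul_inv_cancel_left]
  · intro h l hl
    have := h (g⁻¹ * l) ⟨l, hl, rfl⟩
    rwa [mul_inv_cancel_left] at this

theorem ber_box {G B : Type} [Group G] [MeasurableSpace B] (β : Measure B)
    [IsProbabilityMeasure β] (s : Finset G) (t : G → Set B) (ht : ∀ i, MeasurableSet (t i)) :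
    ber G β ((s : Set G).pi t) = ∏ i ∈ s, β (t i) := by
  unfold ber
  exact Measure.infinitePi_pi _ (fun i _ => ht i)

theorem ber_pre {G B : Type} [Group G] [MeasurableSpace B] (β : Measure B)
    [IsProbabilityMeasure β] (g : G) (s : Finset G) (t : G → Set B)
    (ht : ∀ i, MeasurableSet (t i)) :
    ber G β ((sh g : (G → B) → (G → B)) ⁻¹' ((s : Set G).pi t)) = ∏ i ∈ s, β (t i) := by
  classical
  rw [sh_pre, ber_box β _ _ (fun i => ht _), Finset.prod_image]
  · refine Finset.prod_congr rfl fun i _ => ?_
    rw [mul_inv_cancel_left]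
  · intro a _ b _ hab
    exact mul_left_cancel hab

theorem pmp {G B : Type} [Group G] [MeasurableSpace B] (β : Measure B)
    [IsProbabilityMeasure β] : PMP (ber G β) (sh : G → (G → B) → (G → B)) where
  one := fun x => by funext h; simp [sh]
  mul := fun g h x => by funext k; simp [sh, mul_assoc]
  mp := fun g => by
    refine ⟨sh_meas g, ?_⟩
    conv_rhs => unfold ber
    refine Measure.eq_infinitePi _ fun s t ht => ?_
    rw [Measure.map_apply (sh_meas g) (MeasurableSet.pi s.countable_toSet fun i _ => ht i)]
    exact ber_pre β g s t ht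

theorem t_MBE (hMPL : S_MPL) : S_MBE := by
  classical
  intro G B _ _ _ β _
  refine ⟨pmp β, ?_⟩
  refine hMPL G (G → B) (ber G β) sh
    (squareCylinders fun _ : G => {s : Set B | MeasurableSet s}) (pmp β)
    (isPiSystem_squareCylinders (fun _ => MeasurableSpace.isPiSystem_measurableSet) (by simp))
    generateFrom_squareCylinders ?_
  rintro _ ⟨s, a, ha, rfl⟩ _ ⟨s', b, hb, rfl⟩
  have ha' : ∀ i, MeasurableSet (a i) := fun i => ha i (Set.mem_univ i)
  have hb' : ∀ i, MeasurableSet (b i) := fun i => hb i (Set.mem_univ i)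
  refine tendsto_const_nhds.congr' ?_
  have hfin : (((s ×ˢ s').image (fun p => p.2 * p.1⁻¹) : Finset G) : Set G)ᶜ ∈
      (cofinite : Filter G) := by
    rw [mem_cofinite, compl_compl]
    exact Finset.finite_toSet _
  filter_upwards [hfin] with g hg
  have hdis : ∀ i ∈ s, g * i ∉ s' := by
    intro i hi hgi
    apply hg
    rw [Finset.mem_coe, Finset.mem_image]
    exact ⟨(i, g * i), Finset.mem_product.2 ⟨hi, hgi⟩, by simp⟩
  set c : G → Set B := fun k => if k ∈ s then a k else b (g * k) with hc
  have hcm : ∀ i, MeasurableSet (c i) := by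
    intro i; simp only [hc]; split_ifs; exacts [ha' i, hb' _]
  have hds : Disjoint s (s'.image (fun h => g⁻¹ * h)) := by
    rw [Finset.disjoint_left]
    intro i hi hi'
    obtain ⟨l, hl, rfl⟩ := Finset.mem_image.1 hi'
    have := hdis _ hi
    rw [mul_inv_cancel_left] at this
    exact this hl
  have hint : (s : Set G).pi a ∩ (sh g : (G → B) → (G → B)) ⁻¹' ((s' : Set G).pi b) =
      ((s ∪ s'.image (fun h => g⁻¹ * h) : Finset G) : Set G).pi c := by
    rw [sh_pre]
    ext x
    simp only [Set.mem_inter_iff, Set.mem_pi, Finset.mem_coe, Finset.mem_union, hc]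
    constructor
    · rintro ⟨h1, h2⟩ i hi
      by_cases his : i ∈ s
      · rw [if_pos his]; exact h1 i his
      · rw [if_neg his]
        rcases hi with hi | hi
        · exact absurd hi his
        · exact h2 i hi
    · intro h
      constructor
      · intro i hi
        have := h i (Or.inl hi)
        rwa [if_pos hi] at this
      · intro i hi
        have := h i (Or.inr hi)
        rwa [if_neg (fun h' => Finset.disjoint_left.1 hds h' hi)] at this
  rw [hint, ber_box β _ _ hcm, Finset.prod_union hds, ber_box β s a ha', ber_box β s' b hb']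
  congr 1
  · refine Finset.prod_congr rfl fun i hi => ?_
    simp only [hc, if_pos hi]
  · rw [Finset.prod_image (fun x _ y _ h => mul_left_cancel h)]
    refine Finset.prod_congr rfl fun i hi => ?_
    have hns : g⁻¹ * i ∉ s := fun h' =>
      Finset.disjoint_left.1 hds h' (Finset.mem_image_of_mem _ hi)
    have hgi : g * (g⁻¹ * i) = i := mul_inv_cancel_left g i
    simp only [hc, if_neg hns]
    exact (congrArg (fun j => β (b j)) hgi).symm

end Pool.Agent.T4h92.DC.MBE
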