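import Pool.Agent.T4h92.DC.Stm

set_option autoImplicit false

open MeasureTheory Filter Topology ENNReal

namespace Pool.Agent.T4h92.DC.MPL

open Pool.Agent.T4h92.DC

variable {G Ω : Type} [MeasurableSpace Ω]

/-- mixing of a pair of sets, in real numbers -/
def MR (m : Measure Ω) (T : G → Ω → Ω) (A B : Set Ω) : Prop :=
  Tendsto (fun g : G => m.real (A ∩ T g ⁻¹' B)) cofinite (𝓝 (m.real A * m.real B))

theorem mr_iff (m : Measure Ω) [IsProbabilityMeasure m] (T : G → Ω → Ω) (A B : Set Ω) :
    MR m T A B ↔ Tendsto (fun g : G => m (A ∩ T g ⁻¹' B)) cofinite (𝓝 (m A * m B)) := by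
  unfold MR
  have h := ENNReal.tendsto_toReal_iff (fi := (cofinite : Filter G))
    (f := fun g : G => m (A ∩ T g ⁻¹' B)) (x := m A * m B)
    (fun g => measure_ne_top m _) (ENNReal.mul_ne_top (measure_ne_top m _) (measure_ne_top m _))
  rw [ENNReal.toReal_mul] at h
  exact h

theorem sum_real (m : Measure Ω) [IsProbabilityMeasure m] (f : ℕ → Set Ω)
    (hd : Pairwise (Function.onFun Disjoint f)) (hf : ∀ i, MeasurableSet (f i)) :
    Summable (fun i => m.real (f i)) ∧ m.real (⋃ i, f i) = ∑' i, m.real (f i) := by
  have h := measure_iUnion (μ := m) hd hf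
  have h1 : ∑' i, m (f i) ≠ ⊤ := by rw [← h]; exact measure_ne_top m _
  refine ⟨ENNReal.summable_toReal h1, ?_⟩
  unfold Measure.real
  rw [h, ENNReal.tsum_toReal_eq (fun i => measure_ne_top m _)]

theorem t_MPL : S_MPL := by
  intro G Ω _ _ m _ T C hT hpi hgen hC
  have hmT : ∀ g, Measurable (T g) := fun g => (hT.mp g).measurable
  -- step 1: A in C, B measurable
  have h1 : ∀ A ∈ C, ∀ B, MeasurableSet B → MR m T A B := by
    intro A hA B hB
    have hAm : MeasurableSet A := by
      rw [← hgen]; exact MeasurableSpace.measurableSet_generateFrom hA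
    induction B, hB using MeasurableSpace.induction_on_inter hgen.symm hpi with
    | empty => simpa [MR] using (tendsto_const_nhds : Tendsto (fun _ : G => (0:ℝ)) cofinite (𝓝 0))
    | basic t ht => exact (mr_iff m T A t).2 (hC A hA t ht)
    | compl t htm ih =>
      unfold MR at ih ⊢
      have e1 : ∀ g : G, m.real (A ∩ T g ⁻¹' tᶜ) = m.real A - m.real (A ∩ T g ⁻¹' t) := by
        intro g
        have h := measureReal_inter_add_sdiff (μ := m) (s := A) (hmT g htm)
        rw [Set.preimage_compl, ← Set.sdiff_eq]
        linarith
      simp only [e1]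
      rw [probReal_compl_eq_one_sub htm, mul_sub, mul_one]
      exact tendsto_const_nhds.sub ih
    | iUnion f hd hf ih =>
      unfold MR at ih ⊢
      obtain ⟨hs, he⟩ := sum_real m f hd hf
      have e1 : ∀ g : G, m.real (A ∩ T g ⁻¹' (⋃ i, f i)) = ∑' i, m.real (A ∩ T g ⁻¹' f i) := by
        intro g
        rw [Set.preimage_iUnion, Set.inter_iUnion]
        refine (sum_real m (fun i => A ∩ T g ⁻¹' f i) ?_ ?_).2
        · intro i j hij
          have := hd hij
          unfold Function.onFun at this ⊢
          exact Disjoint.mono Set.inter_subset_right Set.inter_subset_right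
            (Disjoint.preimage (T g) this)
        · intro i
          exact hAm.inter (hmT g (hf i))
      simp only [e1]
      rw [he, ← tsum_mul_left]
      refine tendsto_tsum_of_dominated_convergence hs (fun k => ih k) ?_
      refine Filter.Eventually.of_forall (fun g k => ?_)
      rw [Real.norm_eq_abs, abs_of_nonneg measureReal_nonneg]
      calc m.real (A ∩ T g ⁻¹' f k) ≤ m.real (T g ⁻¹' f k) :=
            measureReal_mono Set.inter_subset_right
        _ = m.real (f k) := by
            unfold Measure.real
            rw [(hT.mp g).measure_preimage (hf k).nullMeasurableSet]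
  -- step 2: B measurable, A measurable
  have h2 : ∀ B, MeasurableSet B → ∀ A, MeasurableSet A → MR m T A B := by
    intro B hB A hA
    induction A, hA using MeasurableSpace.induction_on_inter hgen.symm hpi with
    | empty => simpa [MR] using (tendsto_const_nhds : Tendsto (fun _ : G => (0:ℝ)) cofinite (𝓝 0))
    | basic t ht => exact h1 t ht B hB
    | compl t htm ih =>
      unfold MR at ih ⊢
      have e1 : ∀ g : G, m.real (tᶜ ∩ T g ⁻¹' B) = m.real B - m.real (t ∩ T g ⁻¹' B) := by
        intro g
        have h := measureReal_inter_add_sdiff (μ := m) (s := T g ⁻¹' B) htm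
        have h' : m.real (T g ⁻¹' B) = m.real B := by
          unfold Measure.real
          rw [(hT.mp g).measure_preimage hB.nullMeasurableSet]
        rw [h', Set.inter_comm (T g ⁻¹' B) t, Set.sdiff_eq, Set.inter_comm (T g ⁻¹' B) tᶜ] at h
        linarith
      simp only [e1]
      rw [probReal_compl_eq_one_sub htm, sub_mul, one_mul]
      exact tendsto_const_nhds.sub ih
    | iUnion f hd hf ih =>
      unfold MR at ih ⊢
      obtain ⟨hs, he⟩ := sum_real m f hd hf
      have e1 : ∀ g : G, m.real ((⋃ i, f i) ∩ T g ⁻¹' B) = ∑' i, m.real (f i ∩ T g ⁻¹' B) := by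
        intro g
        rw [Set.iUnion_inter]
        refine (sum_real m (fun i => f i ∩ T g ⁻¹' B) ?_ ?_).2
        · intro i j hij
          have := hd hij
          unfold Function.onFun at this ⊢
          exact Disjoint.mono Set.inter_subset_left Set.inter_subset_left this
        · intro i
          exact (hf i).inter (hmT g hB)
      simp only [e1]
      rw [he, ← tsum_mul_right]
      refine tendsto_tsum_of_dominated_convergence hs (fun k => ih k) ?_
      refine Filter.Eventually.of_forall (fun g k => ?_)
      rw [Real.norm_eq_abs, abs_of_nonneg measureReal_nonneg]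
      exact measureReal_mono Set.inter_subset_left
  intro A B hA hB
  exact (mr_iff m T A B).1 (h2 B hB A hA)

end Pool.Agent.T4h92.DC.MPL
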