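import Pool.Agent.T4h92.DC.Stm

set_option autoImplicit false

open MeasureTheory Filter Topology ENNReal

namespace Pool.Agent.T4h92.DC.MPR

open Pool.Agent.T4h92.DC

theorem t_MPR (hMPL : S_MPL) : S_MPR := by
  intro G X Y _ _ _ μ ν _ _ T T' hT hT' hm hm'
  have hP : PMP (μ.prod ν) (pact T T') := by
    refine ⟨fun x => ?_, fun g h x => ?_, fun g => ?_⟩
    · show (T 1 x.1, T' 1 x.2) = x
      rw [hT.one, hT'.one]
    · show (T (g * h) x.1, T' (g * h) x.2) = (T g (T h x.1), T' g (T' h x.2))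
      rw [hT.mul, hT'.mul]
    · exact (hT.mp g).prod (hT'.mp g)
  refine ⟨hP, ?_⟩
  refine hMPL G (X × Y) (μ.prod ν) (pact T T')
    (Set.image2 (· ×ˢ ·) {s : Set X | MeasurableSet s} {t : Set Y | MeasurableSet t}) hP
    isPiSystem_prod generateFrom_prod ?_
  rintro _ ⟨A, hA, A', hA', rfl⟩ _ ⟨B, hB, B', hB', rfl⟩
  have e : ∀ g : G, (A ×ˢ A') ∩ (pact T T' g) ⁻¹' (B ×ˢ B')
      = (A ∩ T g ⁻¹' B) ×ˢ (A' ∩ T' g ⁻¹' B') := by
    intro g
    ext ⟨x, y⟩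
    simp only [Set.mem_inter_iff, Set.mem_prod, Set.mem_preimage, pact]
    tauto
  have h1 := hm A B hA hB
  have h2 := hm' A' B' hA' hB'
  have h3 : Tendsto (fun g : G => μ (A ∩ T g ⁻¹' B) * ν (A' ∩ T' g ⁻¹' B')) cofinite
      (𝓝 ((μ A * μ B) * (ν A' * ν B'))) :=
    ENNReal.Tendsto.mul h1 (Or.inr (ENNReal.mul_ne_top (measure_ne_top _ _) (measure_ne_top _ _)))
      h2 (Or.inr (ENNReal.mul_ne_top (measure_ne_top _ _) (measure_ne_top _ _)))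
  show Tendsto (fun g : G => (μ.prod ν) ((A ×ˢ A') ∩ (pact T T' g) ⁻¹' (B ×ˢ B'))) cofinite
      (𝓝 ((μ.prod ν) (A ×ˢ A') * (μ.prod ν) (B ×ˢ B')))
  simp only [e, Measure.prod_prod]
  have e2 : μ A * ν A' * (μ B * ν B') = (μ A * μ B) * (ν A' * ν B') := by ring
  rw [e2]
  exact h3

end Pool.Agent.T4h92.DC.MPR
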