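import Pool.Agent.T4h92.DC.Stm

set_option autoImplicit false

open MeasureTheory Filter Topology ENNReal

namespace Pool.Agent.T4h92.DC.NOZ

open Pool.Agent.T4h92.DC

/-- Multiplication by a unit complex number. -/
noncomputable def mulU (z : Circle) : ℂ ≃ₗᵢ[ℂ] ℂ where
  toFun v := (z : ℂ) * v
  invFun v := ((z⁻¹ : Circle) : ℂ) * v
  map_add' a b := by ring
  map_smul' a b := by simp [smul_eq_mul]; ring
  left_inv v := by
    simp only [Circle.coe_inv]
    rw [← mul_assoc, inv_mul_cancel₀ (Circle.coe_ne_zero z), one_mul]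
  right_inv v := by
    simp only [Circle.coe_inv]
    rw [← mul_assoc, mul_inv_cancel₀ (Circle.coe_ne_zero z), one_mul]
  norm_map' v := by
    have h : ‖(z : ℂ)‖ = 1 := Circle.norm_coe z
    show ‖(z : ℂ) * v‖ = ‖v‖
    rw [norm_mul, h, one_mul]

theorem mulU_apply (z : Circle) (v : ℂ) : mulU z v = (z : ℂ) * v := rfl

/-- The one dimensional representation. -/
noncomputable def rep (G : Type) [Group G] (χ : G →* Multiplicative ℤ) (z : Circle) :
    G →* (ℂ ≃ₗᵢ[ℂ] ℂ) where
  toFun g := mulU (z ^ (Multiplicative.toAdd (χ g)))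
  map_one' := by
    ext
    simp [mulU_apply]
  map_mul' a b := by
    ext
    simp [mulU_apply, zpow_add, mul_assoc]

theorem rep_apply (G : Type) [Group G] (χ : G →* Multiplicative ℤ) (z : Circle) (g : G) (v : ℂ) :
    rep G χ z g v = ((z ^ (Multiplicative.toAdd (χ g)) : Circle) : ℂ) * v := rfl

theorem exp_zpow (t : ℝ) (k : ℤ) : (Circle.exp t) ^ k = Circle.exp (k * t) := by
  rw [← zsmul_eq_mul, Circle.exp_zsmul]

theorem t_NOZ : S_NOZ := by
  intro G _ ⟨S, κ, hκ, hT⟩ χ g
  by_contra hne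
  set k : ℤ := Multiplicative.toAdd (χ g) with hk
  have hk0 : k ≠ 0 := by
    intro h
    apply hne
    rw [hk] at h
    exact Multiplicative.toAdd.injective (by simpa using h)
  -- choose a small angle
  have hev : ∀ᶠ t : ℝ in 𝓝 (0 : ℝ), (∀ s ∈ S,
      ‖((Circle.exp ((Multiplicative.toAdd (χ s) : ℤ) * t) : Circle) : ℂ) - 1‖ < κ) ∧
      |(k : ℝ) * t| < 2 * Real.pi := by
    apply Filter.Eventually.and
    · rw [Filter.eventually_all_finset]
      intro s _
      have hc : Continuous (fun t : ℝ =>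
          ‖((Circle.exp ((Multiplicative.toAdd (χ s) : ℤ) * t) : Circle) : ℂ) - 1‖) := by
        fun_prop
      have h0 : ‖((Circle.exp ((Multiplicative.toAdd (χ s) : ℤ) * (0 : ℝ)) : Circle) : ℂ) - 1‖
          < κ := by simpa using hκ
      exact hc.continuousAt.eventually_lt continuousAt_const h0
    · have hc : Continuous (fun t : ℝ => |(k : ℝ) * t|) := by fun_prop
      exact hc.continuousAt.eventually_lt continuousAt_const (by simp [Real.pi_pos])
  have hev2 : ∀ᶠ t : ℝ in 𝓝[≠] (0 : ℝ), ((∀ s ∈ S,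
      ‖((Circle.exp ((Multiplicative.toAdd (χ s) : ℤ) * t) : Circle) : ℂ) - 1‖ < κ) ∧
      |(k : ℝ) * t| < 2 * Real.pi) ∧ t ≠ 0 :=
    (hev.filter_mono nhdsWithin_le_nhds).and self_mem_nhdsWithin
  obtain ⟨t, ⟨h1, h2⟩, h3⟩ := hev2.exists
  obtain ⟨u, hu, hinv⟩ := hT ℂ (rep G χ (Circle.exp t)) 1 (by simp) (by
    intro s hs
    rw [rep_apply, mul_one, exp_zpow]
    exact h1 s hs)
  have h4 := hinv g
  rw [rep_apply, exp_zpow] at h4
  have h5 : ((Circle.exp (k * t) : Circle) : ℂ) = 1 := by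
    have h6 : ((Circle.exp (k * t) : Circle) : ℂ) * u = 1 * u := by rw [one_mul]; exact h4
    exact mul_right_cancel₀ hu h6
  rw [Circle.coe_exp, Complex.exp_eq_one_iff] at h5
  obtain ⟨n, hn⟩ := h5
  have h7 : (k : ℝ) * t = n * (2 * Real.pi) := by
    have h8 : (((k : ℝ) * t : ℝ) : ℂ) * Complex.I = ((n * (2 * Real.pi) : ℝ) : ℂ) * Complex.I := by
      rw [hn]; push_cast; ring
    exact_mod_cast mul_right_cancel₀ Complex.I_ne_zero h8
  rw [h7, abs_mul, abs_of_pos (by positivity : (0 : ℝ) < 2 * Real.pi)] at h2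
  have h9 : |(n : ℝ)| < 1 := by
    by_contra hc
    rw [not_lt] at hc
    have : 2 * Real.pi ≤ |(n : ℝ)| * (2 * Real.pi) := le_mul_of_one_le_left (by positivity) hc
    linarith
  have h10 : n = 0 := by
    have : |n| < 1 := by exact_mod_cast h9
    exact Int.abs_lt_one_iff.1 this
  rw [h10] at h7
  simp only [Int.cast_zero, zero_mul, mul_eq_zero, Int.cast_eq_zero] at h7
  rcases h7 with h7 | h7
  · exact hk0 h7
  · exact h3 h7

end Pool.Agent.T4h92.DC.NOZ
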