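import Pool.Agent.T4h92.DC.Stm

/-!
# MP_45e9b0_lc, task PRD: the product measure of a product base
-/

set_option autoImplicit false

open MeasureTheory Filter Topology ENNReal

namespace Pool.Agent.T4h92.DC.PRD

open Pool.Agent.T4h92.DC

theorem t_PRD : S_PRD := by
  classical
  intro G B C _ _ β γ _ _
  have hmeas : Measurable (fun p : G → B × C => ((fun h => (p h).1, fun h => (p h).2) :
      (G → B) × (G → C))) := by
    refine Measurable.prodMk ?_ ?_
    · exact measurable_pi_lambda _ fun h => measurable_fst.comp (measurable_pi_apply h)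
    · exact measurable_pi_lambda _ fun h => measurable_snd.comp (measurable_pi_apply h)
  refine ⟨hmeas, ?_⟩
  symm
  have spB : (ber G β).FiniteSpanningSetsIn
      (squareCylinders fun _ : G => {s : Set B | MeasurableSet s}) :=
    { set := fun _ => Set.univ
      set_mem := fun _ => by
        refine ⟨∅, fun _ => Set.univ, ?_, by simp⟩
        intro i _; exact MeasurableSet.univ
      finite := fun _ => measure_lt_top _ _
      spanning := Set.iUnion_const _ }
  have spC : (ber G γ).FiniteSpanningSetsIn
      (squareCylinders fun _ : G => {s : Set C | MeasurableSet s}) :=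
    { set := fun _ => Set.univ
      set_mem := fun _ => by
        refine ⟨∅, fun _ => Set.univ, ?_, by simp⟩
        intro i _; exact MeasurableSet.univ
      finite := fun _ => measure_lt_top _ _
      spanning := Set.iUnion_const _ }
  refine Measure.prod_eq_generateFrom generateFrom_squareCylinders generateFrom_squareCylinders
    (isPiSystem_squareCylinders (fun _ => MeasurableSpace.isPiSystem_measurableSet) (by simp))
    (isPiSystem_squareCylinders (fun _ => MeasurableSpace.isPiSystem_measurableSet) (by simp))
    spB spC ?_
  rintro _ ⟨s, A, hA, rfl⟩ _ ⟨s', D, hD, rfl⟩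
  have hA' : ∀ i, MeasurableSet (A i) := fun i => hA i (Set.mem_univ i)
  have hD' : ∀ i, MeasurableSet (D i) := fun i => hD i (Set.mem_univ i)
  have hpA : MeasurableSet ((s : Set G).pi A) :=
    MeasurableSet.pi s.countable_toSet fun i _ => hA' i
  have hpD : MeasurableSet ((s' : Set G).pi D) :=
    MeasurableSet.pi s'.countable_toSet fun i _ => hD' i
  rw [Measure.map_apply hmeas (hpA.prod hpD)]
  set A₁ : G → Set B := fun h => if h ∈ s then A h else Set.univ with hA₁
  set D₁ : G → Set C := fun h => if h ∈ s' then D h else Set.univ with hD₁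
  have hA₁m : ∀ i, MeasurableSet (A₁ i) := by
    intro i; simp only [hA₁]; split_ifs; exacts [hA' i, MeasurableSet.univ]
  have hD₁m : ∀ i, MeasurableSet (D₁ i) := by
    intro i; simp only [hD₁]; split_ifs; exacts [hD' i, MeasurableSet.univ]
  have hpre : (fun p : G → B × C => ((fun h => (p h).1, fun h => (p h).2) :
      (G → B) × (G → C))) ⁻¹' ((s : Set G).pi A ×ˢ (s' : Set G).pi D) =
      ((s ∪ s' : Finset G) : Set G).pi (fun h => A₁ h ×ˢ D₁ h) := by
    ext p
    simp only [Set.mem_preimage, Set.mem_prod, Set.mem_pi, Finset.coe_union, Set.mem_union,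
      Finset.mem_coe, hA₁, hD₁]
    constructor
    · rintro ⟨h1, h2⟩ i _
      constructor
      · by_cases hi : i ∈ s
        · rw [if_pos hi]; exact h1 i hi
        · rw [if_neg hi]; trivial
      · by_cases hi : i ∈ s'
        · rw [if_pos hi]; exact h2 i hi
        · rw [if_neg hi]; trivial
    · intro h
      constructor
      · intro i hi
        have := (h i (Or.inl hi)).1
        rwa [if_pos hi] at this
      · intro i hi
        have := (h i (Or.inr hi)).2
        rwa [if_pos hi] at this
  rw [hpre]
  unfold ber
  rw [Measure.infinitePi_pi _ (fun i _ => (hA₁m i).prod (hD₁m i)),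
    Measure.infinitePi_pi _ (fun i _ => hA' i), Measure.infinitePi_pi _ (fun i _ => hD' i)]
  simp only [Measure.prod_prod]
  rw [Finset.prod_mul_distrib]
  congr 1
  · rw [← Finset.prod_subset (Finset.subset_union_left : s ⊆ s ∪ s')]
    · refine Finset.prod_congr rfl fun i hi => ?_
      simp only [hA₁, if_pos hi]
    · intro i _ hi
      simp only [hA₁, if_neg hi, measure_univ]
  · rw [← Finset.prod_subset (Finset.subset_union_right : s' ⊆ s ∪ s')]
    · refine Finset.prod_congr rfl fun i hi => ?_
      simp only [hD₁, if_pos hi]
    · intro i _ hi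
      simp only [hD₁, if_neg hi, measure_univ]

end Pool.Agent.T4h92.DC.PRD
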