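import Pool.Agent.T4h92.DC.Stm

/-!
# MP_45e9b0_lc, task PT: the path `mixm` is measure preserving and continuous
-/

set_option autoImplicit false

open MeasureTheory Filter Topology ENNReal

namespace Pool.Agent.T4h92.DC.PT

open Pool.Agent.T4h92.DC

open Classical in
/-- The coordinate map. -/
noncomputable def phi {B : Type} (t : ℝ) (q : B × (B × unitInterval)) : B :=
  if (q.2.2 : ℝ) < t then q.2.1 else q.1

theorem meas_lt (t : ℝ) : MeasurableSet {u : unitInterval | (u : ℝ) < t} :=
  measurable_subtype_coe measurableSet_Iio

theorem phi_meas {B : Type} [MeasurableSpace B] (t : ℝ) :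
    Measurable (phi t : B × (B × unitInterval) → B) := by
  unfold phi
  refine Measurable.ite ?_ ?_ ?_
  · exact (measurable_snd.comp measurable_snd) (meas_lt t)
  · exact measurable_fst.comp measurable_snd
  · exact measurable_fst

theorem phi_map {B : Type} [MeasurableSpace B] (β : Measure B) [IsProbabilityMeasure β] (t : ℝ) :
    (β.prod (β.prod (volume : Measure unitInterval))).map (phi t) = β := by
  ext A hA
  rw [Measure.map_apply (phi_meas t) hA]
  set U : Set unitInterval := {u : unitInterval | (u : ℝ) < t} with hU
  have hUm : MeasurableSet U := meas_lt t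
  have hpre : (phi t : B × (B × unitInterval) → B) ⁻¹' A =
      (Set.univ ×ˢ (A ×ˢ U)) ∪ (A ×ˢ (Set.univ ×ˢ Uᶜ)) := by
    ext q
    simp only [Set.mem_preimage, phi, Set.mem_union, Set.mem_prod, Set.mem_univ, true_and,
      Set.mem_compl_iff, hU, Set.mem_setOf_eq]
    by_cases h : (q.2.2 : ℝ) < t
    · simp [h]
    · simp [h]
  have hdis : Disjoint ((Set.univ : Set B) ×ˢ (A ×ˢ U)) (A ×ˢ ((Set.univ : Set B) ×ˢ Uᶜ)) := by
    rw [Set.disjoint_left]
    rintro q hq hq'
    exact hq'.2.2 hq.2.2
  rw [hpre, measure_union hdis (hA.prod (MeasurableSet.univ.prod hUm.compl))]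
  simp only [Measure.prod_prod, measure_univ, one_mul]
  rw [← mul_add, measure_add_measure_compl hUm, measure_univ, mul_one]

theorem t_PT (hPRD : S_PRD) : S_PT := by
  intro G B _ _ _ β _
  constructor
  · intro t
    have h1 := hPRD G B (B × unitInterval) β (β.prod (volume : Measure unitInterval))
    have hphi : Measurable (fun (p : G → B × (B × unitInterval)) (h : G) => phi t (p h)) :=
      measurable_pi_lambda _ fun h => (phi_meas t).comp (measurable_pi_apply h)
    have hmix : Measurable (mixm t : BZ G B → (G → B)) := by
      refine measurable_pi_lambda _ fun h => ?_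
      have : (fun z : BZ G B => mixm t z h) =
          (phi t) ∘ (fun z : BZ G B => (z.1 h, z.2 h)) := by
        funext z
        simp only [mixm, phi, Function.comp]
      rw [this]
      refine (phi_meas t).comp (Measurable.prodMk ?_ ?_)
      · exact (measurable_pi_apply h).comp measurable_fst
      · exact (measurable_pi_apply h).comp measurable_snd
    refine ⟨hmix, ?_⟩
    unfold bz
    rw [← h1.map_eq, Measure.map_map hmix h1.measurable]
    have : (mixm t : BZ G B → (G → B)) ∘ (fun p : G → B × (B × unitInterval) =>
        ((fun h => (p h).1, fun h => (p h).2) : (G → B) × (G → B × unitInterval))) =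
        fun (p : G → B × (B × unitInterval)) (h : G) => phi t (p h) := by
      funext p h
      simp only [mixm, phi, Function.comp]
    rw [this]
    unfold ber
    rw [Measure.infinitePi_map_pi _ (fun _ => phi_meas t)]
    congr 1
    funext h
    exact phi_map β t
  · intro s t hst h
    have hsub : {z : BZ G B | mixm s z h ≠ mixm t z h} ⊆
        (fun z : BZ G B => (z.2 h).2) ⁻¹' {u : unitInterval | s ≤ (u : ℝ) ∧ (u : ℝ) < t} := by
      intro z hz
      simp only [Set.mem_setOf_eq, mixm] at hz
      simp only [Set.mem_preimage, Set.mem_setOf_eq]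
      by_contra hcon
      apply hz
      by_cases h1 : ((z.2 h).2 : ℝ) < s
      · rw [if_pos h1, if_pos (lt_of_lt_of_le h1 hst)]
      · rw [if_neg h1]
        have : ¬ ((z.2 h).2 : ℝ) < t := fun h2 => hcon ⟨not_lt.1 h1, h2⟩
        rw [if_neg this]
    have hmp : MeasurePreserving (fun z : BZ G B => (z.2 h).2) (bz G β)
        (volume : Measure unitInterval) := by
      have e1 : MeasurePreserving (Prod.snd : BZ G B → (G → B × unitInterval)) (bz G β)
          (ber G (β.prod (volume : Measure unitInterval))) := by
        unfold bz
        exact measurePreserving_snd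
      have e2 : MeasurePreserving (Function.eval h : (G → B × unitInterval) → B × unitInterval)
          (ber G (β.prod (volume : Measure unitInterval)))
          (β.prod (volume : Measure unitInterval)) := by
        unfold ber
        exact measurePreserving_eval_infinitePi _ h
      have e3 : MeasurePreserving (Prod.snd : B × unitInterval → unitInterval)
          (β.prod (volume : Measure unitInterval)) (volume : Measure unitInterval) :=
        measurePreserving_snd
      exact e3.comp (e2.comp e1)
    have hms : MeasurableSet {u : unitInterval | s ≤ (u : ℝ) ∧ (u : ℝ) < t} :=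
      measurable_subtype_coe measurableSet_Ico
    calc bz G β {z : BZ G B | mixm s z h ≠ mixm t z h}
        ≤ bz G β ((fun z : BZ G B => (z.2 h).2) ⁻¹'
          {u : unitInterval | s ≤ (u : ℝ) ∧ (u : ℝ) < t}) := measure_mono hsub
      _ = volume {u : unitInterval | s ≤ (u : ℝ) ∧ (u : ℝ) < t} :=
          hmp.measure_preimage hms.nullMeasurableSet
      _ = volume (Subtype.val '' {u : unitInterval | s ≤ (u : ℝ) ∧ (u : ℝ) < t}) :=
          unitInterval.volume_apply
      _ ≤ volume (Set.Ico s t) := by
          refine measure_mono ?_
          rintro _ ⟨u, hu, rfl⟩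
          exact hu
      _ = ENNReal.ofReal (t - s) := Real.volume_Ico

end Pool.Agent.T4h92.DC.PT
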