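import Pool.Agent.T4h92.DC.Stm

set_option autoImplicit false

open MeasureTheory Filter Topology ENNReal

namespace Pool.Agent.T4h92.DC.SE1

open Pool.Agent.T4h92.DC

theorem t_SE1 : S_SE1 := by
  intro G P V Γ _ _ _ μ ν _ _ _ T h hE hm hinv
  set E : Set (P × (V × V)) := {z | h z.1 z.2.1 = h z.1 z.2.2} with hEdef
  have hEm : MeasurableSet E := by
    have e : E = ⋃ γ : Γ, ((fun z : P × (V × V) => (z.1, z.2.1)) ⁻¹' {z : P × V | h z.1 z.2 = γ}) ∩
        ((fun z : P × (V × V) => (z.1, z.2.2)) ⁻¹' {z : P × V | h z.1 z.2 = γ}) := by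
      ext z
      simp only [hEdef, Set.mem_ofPred_eq, Set.mem_iUnion, Set.mem_inter_iff, Set.mem_preimage]
      constructor
      · intro hz
        exact ⟨h z.1 z.2.2, hz, rfl⟩
      · rintro ⟨γ, h1, h2⟩
        rw [h1, h2]
    rw [e]
    refine MeasurableSet.iUnion (fun γ => ?_)
    refine MeasurableSet.inter ?_ ?_
    · exact (hm γ).preimage (measurable_fst.prodMk (measurable_fst.comp measurable_snd))
    · exact (hm γ).preimage (measurable_fst.prodMk (measurable_snd.comp measurable_snd))
  have h1 := hE E hEm (fun g _ => by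
    refine Filter.eventuallyEq_set.2 ?_
    filter_upwards [hinv g] with z hz
    exact hz)
  rcases h1 with h0 | h1
  · exfalso
    have h2 := Measure.measure_ae_null_of_prod_null h0
    obtain ⟨p, hp⟩ := h2.exists
    have h3 : ∀ γ : Γ, ν {v | h p v = γ} = 0 := by
      intro γ
      have h4 : (ν.prod ν) ({v | h p v = γ} ×ˢ {v | h p v = γ}) = 0 := by
        refine measure_mono_null ?_ hp
        rintro ⟨v, v'⟩ ⟨hv, hv'⟩
        simp only [Set.mem_ofPred_eq] at hv hv'
        simp only [Set.mem_preimage, hEdef, Set.mem_ofPred_eq]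
        rw [hv, hv']
      rw [Measure.prod_prod] at h4
      exact mul_self_eq_zero.1 h4
    have h5 : ν (Set.univ : Set V) = 0 := by
      have e : (Set.univ : Set V) = ⋃ γ : Γ, {v | h p v = γ} := by
        ext v; simp
      rw [e]
      exact measure_iUnion_null h3
    rw [measure_univ] at h5
    exact one_ne_zero h5
  · have h2 := (mem_ae_iff_prob_eq_one hEm).2 h1
    filter_upwards [h2] with z hz
    exact hz

end Pool.Agent.T4h92.DC.SE1
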