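import Pool.Agent.T4h92.DC.Stm

set_option autoImplicit false

open MeasureTheory Filter Topology ENNReal

namespace Pool.Agent.T4h92.DC.SE2

open Pool.Agent.T4h92.DC

theorem t_SE2 : S_SE2 := by
  intro X V Γ _ _ μ ν _ _ _ _ Φ hΦ h
  have h1 := Measure.measurePreserving_swap (μ := ν) (ν := μ.prod (μ.prod ν))
  have h2 := (measurePreserving_prodAssoc μ μ ν).symm
  have h3 := (Measure.measurePreserving_swap (μ := μ) (ν := μ)).prod (MeasurePreserving.id ν)
  have h4 := (h3.comp h2).prod (MeasurePreserving.id ν)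
  have h5 := measurePreserving_prodAssoc (μ.prod μ) ν ν
  have h6 := h5.comp (h4.comp h1)
  have h7 := h6.quasiMeasurePreserving.ae h
  have h8 := Measure.ae_ae_of_ae_prod h7
  obtain ⟨v0, hv0⟩ := h8.exists
  have h9 := Measure.ae_ae_of_ae_prod hv0
  obtain ⟨x0, hx0⟩ := h9.exists
  refine ⟨fun v => Φ (x0, v), fun x => (Φ (x0, v0))⁻¹ * Φ (x, v0), ?_, ?_, ?_⟩
  · intro γ
    exact (hΦ γ).preimage (measurable_prodMk_left (x := x0))
  · intro γ
    have e : {x | (Φ (x0, v0))⁻¹ * Φ (x, v0) = γ} =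
        (fun x => (x, v0)) ⁻¹' {z | Φ z = Φ (x0, v0) * γ} := by
      ext x
      simp only [Set.mem_ofPred_eq, Set.mem_preimage]
      rw [inv_mul_eq_iff_eq_mul]
    rw [e]
    exact (hΦ _).preimage measurable_prodMk_right
  · filter_upwards [hx0] with z hz
    obtain ⟨x, v⟩ := z
    have hz' : (Φ (x0, v))⁻¹ * Φ (x, v) = (Φ (x0, v0))⁻¹ * Φ (x, v0) := hz
    show Φ (x, v) = Φ (x0, v) * ((Φ (x0, v0))⁻¹ * Φ (x, v0))
    rw [← hz']
    group

end Pool.Agent.T4h92.DC.SE2
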