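import Pool.Agent.T4h92.DC.Stm

set_option autoImplicit false

open MeasureTheory Filter Topology ENNReal

namespace Pool.Agent.T4h92.DC.SE3

open Pool.Agent.T4h92.DC

theorem t_SE3 : S_SE3 := by
  intro G X V Γ _ _ _ _ μ ν _ _ _ _ T T' w w₂ A b hT hT' hw hw₂ hA hb h
  have key : ∀ g : G, ∃ r : Γ, ∀ᵐ x ∂μ, b (T g x) * w g x * (b x)⁻¹ = r := by
    intro g
    have h1 : ∀ᵐ z ∂(ν.prod μ), b (T g z.2) * w g z.2 * (b z.2)⁻¹
        = (A (T' g z.1))⁻¹ * w₂ g z.1 * A z.1 := by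
      have h2 := (Measure.measurePreserving_swap (μ := ν) (ν := μ)).quasiMeasurePreserving.ae (h g)
      filter_upwards [h2] with z hz
      simp only [Prod.fst_swap, Prod.snd_swap] at hz
      rw [hz]
      group
    have h3 := Measure.ae_ae_of_ae_prod h1
    obtain ⟨v, hv⟩ := h3.exists
    exact ⟨(A (T' g v))⁻¹ * w₂ g v * A v, hv⟩
  choose ρ hρ using key
  have hmul : ∀ g k : G, ρ (g * k) = ρ g * ρ k := by
    intro g k
    have h1 := (hT.mp k).quasiMeasurePreserving.ae (hρ g)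
    have h2 : ∀ᵐ x ∂μ, ρ (g * k) = ρ g * ρ k := by
      filter_upwards [hρ (g * k), hρ k, h1] with x a1 a2 a3
      rw [← a1, ← a2, ← a3, hT.mul, hw.mul]
      group
    obtain ⟨x, hx⟩ := h2.exists
    exact hx
  exact ⟨MonoidHom.mk' ρ hmul, hρ⟩

end Pool.Agent.T4h92.DC.SE3
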