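import Pool.Agent.T4h92.DC.Stm

set_option autoImplicit false

open MeasureTheory Filter Topology ENNReal

namespace Pool.Agent.T4h92.DC.SEP

open Pool.Agent.T4h92.DC

theorem t_SEP (hSE1 : S_SE1) (hSE2 : S_SE2) (hSE3 : S_SE3) : S_SEP := by
  intro G X V Γ _ _ _ _ μ ν _ _ _ _ T T' w w₂ Φ hT hT' hErg hw hw₂ hΦ h
  -- the difference function
  set D : X × X → V → Γ := fun p v => (Φ (p.2, v))⁻¹ * Φ (p.1, v) with hD
  have p11 : MeasurePreserving (Prod.map Prod.fst Prod.fst : (X × X) × (V × V) → X × V)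
      ((μ.prod μ).prod (ν.prod ν)) (μ.prod ν) :=
    (measurePreserving_fst (μ := μ) (ν := μ)).prod (measurePreserving_fst (μ := ν) (ν := ν))
  have p12 : MeasurePreserving (Prod.map Prod.fst Prod.snd : (X × X) × (V × V) → X × V)
      ((μ.prod μ).prod (ν.prod ν)) (μ.prod ν) :=
    (measurePreserving_fst (μ := μ) (ν := μ)).prod (measurePreserving_snd (μ := ν) (ν := ν))
  have p21 : MeasurePreserving (Prod.map Prod.snd Prod.fst : (X × X) × (V × V) → X × V)
      ((μ.prod μ).prod (ν.prod ν)) (μ.prod ν) :=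
    (measurePreserving_snd (μ := μ) (ν := μ)).prod (measurePreserving_fst (μ := ν) (ν := ν))
  have p22 : MeasurePreserving (Prod.map Prod.snd Prod.snd : (X × X) × (V × V) → X × V)
      ((μ.prod μ).prod (ν.prod ν)) (μ.prod ν) :=
    (measurePreserving_snd (μ := μ) (ν := μ)).prod (measurePreserving_snd (μ := ν) (ν := ν))
  have hmeas : ∀ γ : Γ, MeasurableSet {z : (X × X) × V | D z.1 z.2 = γ} := by
    intro γ
    have e : {z : (X × X) × V | D z.1 z.2 = γ}
        = ⋃ a : Γ, ((fun z : (X × X) × V => (z.1.2, z.2)) ⁻¹' {y | Φ y = a}) ∩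
          ((fun z : (X × X) × V => (z.1.1, z.2)) ⁻¹' {y | Φ y = a * γ}) := by
      ext z
      simp only [Set.mem_ofPred_eq, Set.mem_iUnion, Set.mem_inter_iff, Set.mem_preimage, hD]
      constructor
      · intro hz
        refine ⟨Φ (z.1.2, z.2), rfl, ?_⟩
        rw [← hz]
        group
      · rintro ⟨a, h1, h2⟩
        rw [h1, h2]
        group
    rw [e]
    refine MeasurableSet.iUnion fun a => ?_
    refine MeasurableSet.inter ?_ ?_
    · exact (hΦ a).preimage (by fun_prop)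
    · exact (hΦ (a * γ)).preimage (by fun_prop)
  -- the transformation rule
  have rule : ∀ g : G, ∀ᵐ z ∂((μ.prod μ).prod (ν.prod ν)),
      (D (pact T T g z.1) (T' g z.2.1) = w g z.1.2 * D z.1 z.2.1 * (w g z.1.1)⁻¹) ∧
      (D (pact T T g z.1) (T' g z.2.2) = w g z.1.2 * D z.1 z.2.2 * (w g z.1.1)⁻¹) := by
    intro g
    have a11 := p11.quasiMeasurePreserving.ae (h g)
    have a12 := p12.quasiMeasurePreserving.ae (h g)
    have a21 := p21.quasiMeasurePreserving.ae (h g)
    have a22 := p22.quasiMeasurePreserving.ae (h g)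
    filter_upwards [a11, a12, a21, a22] with z b11 b12 b21 b22
    simp only [Prod.map_fst, Prod.map_snd, pact, Prod.map] at b11 b12 b21 b22
    simp only [hD, pact]
    have c11 : Φ (T g z.1.1, T' g z.2.1) = w₂ g z.2.1 * Φ (z.1.1, z.2.1) * (w g z.1.1)⁻¹ := by
      rw [b11]; group
    have c12 : Φ (T g z.1.1, T' g z.2.2) = w₂ g z.2.2 * Φ (z.1.1, z.2.2) * (w g z.1.1)⁻¹ := by
      rw [b12]; group
    have c21 : Φ (T g z.1.2, T' g z.2.1) = w₂ g z.2.1 * Φ (z.1.2, z.2.1) * (w g z.1.2)⁻¹ := by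
      rw [b21]; group
    have c22 : Φ (T g z.1.2, T' g z.2.2) = w₂ g z.2.2 * Φ (z.1.2, z.2.2) * (w g z.1.2)⁻¹ := by
      rw [b22]; group
    constructor
    · rw [c11, c21]; group
    · rw [c12, c22]; group
  have hinv : ∀ g : G, ∀ᵐ z ∂((μ.prod μ).prod (ν.prod ν)),
      (D (pact (pact T T) (pact T' T') g z).1 (pact (pact T T) (pact T' T') g z).2.1
          = D (pact (pact T T) (pact T' T') g z).1 (pact (pact T T) (pact T' T') g z).2.2
        ↔ D z.1 z.2.1 = D z.1 z.2.2) := by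
    intro g
    filter_upwards [rule g] with z hz
    show D (pact T T g z.1) (T' g z.2.1) = D (pact T T g z.1) (T' g z.2.2) ↔ _
    rw [hz.1, hz.2]
    constructor
    · intro hh
      have := mul_right_cancel hh
      exact mul_left_cancel this
    · intro hh
      rw [hh]
  have h1 := hSE1 G (X × X) V Γ (μ.prod μ) ν (pact (pact T T) (pact T' T')) D hErg hmeas hinv
  obtain ⟨A, b, hA, hb, hAb⟩ := hSE2 X V Γ μ ν Φ hΦ h1
  have hP : ∀ g, MeasurePreserving (pact T T' g) (μ.prod ν) (μ.prod ν) := fun g =>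
    (hT.mp g).prod (hT'.mp g)
  obtain ⟨ρ, hρ⟩ := hSE3 G X V Γ μ ν T T' w w₂ A b hT hT' hw hw₂ hA hb (by
    intro g
    filter_upwards [h g, hAb, (hP g).quasiMeasurePreserving.ae hAb] with z h1 h2 h3
    rw [h1, h2, h3]
    rfl)
  exact ⟨b, ρ, hb, hρ⟩

end Pool.Agent.T4h92.DC.SEP
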