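import Pool.Agent.T4h92.DC.Stm

set_option autoImplicit false

open MeasureTheory Filter Topology ENNReal

namespace Pool.Agent.T4h92.DC.SUM

open Pool.Agent.T4h92.DC

theorem t_SUM : S_SUM := by
  intro G _ Y _ _ L ν _ hm hL hν hinv
  classical
  have := hL
  have : Finite (G ⧸ L) := L.finite_quotient_of_finiteIndex
  let _ : Fintype (G ⧸ L) := Fintype.ofFinite _
  -- the pushforward only depends on the coset
  have hcomp : ∀ a b : G, (ν.map (fun y => a • y)).map (fun y => b • y)
      = ν.map (fun y => (b * a) • y) := by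
    intro a b
    rw [Measure.map_map (hm b) (hm a)]
    congr 1
    funext y
    simp [mul_smul]
  have hcoset : ∀ a b : G, (QuotientGroup.mk a : G ⧸ L) = QuotientGroup.mk b →
      ν.map (fun y => a • y) = ν.map (fun y => b • y) := by
    intro a b hab
    have h1 : a⁻¹ * b ∈ L := QuotientGroup.eq.1 hab
    have h2 := hinv _ h1
    have h3 : b = a * (a⁻¹ * b) := by group
    rw [h3, ← hcomp (a⁻¹ * b) a, h2]
  have hfin : ∀ a : G, IsFiniteMeasure (ν.map (fun y => a • y)) := by
    intro a; infer_instance
  refine ⟨∑ q : G ⧸ L, ν.map (fun y => (Quotient.out q) • y), ?_, ?_, ?_⟩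
  · infer_instance
  · intro h0
    apply hν
    have h1 : (ν.map (fun y => (Quotient.out (QuotientGroup.mk (1 : G) : G ⧸ L)) • y)) = 0 := by
      apply le_antisymm _ (Measure.zero_le _)
      rw [← h0]
      exact Finset.single_le_sum (f := fun q : G ⧸ L => ν.map (fun y => (Quotient.out q) • y))
        (fun _ _ => Measure.zero_le _) (Finset.mem_univ _)
    have h2 := Measure.map_eq_zero_iff (μ := ν)
      (hm (Quotient.out (QuotientGroup.mk (1 : G) : G ⧸ L))).aemeasurable
    exact h2.1 h1
  · intro g
    have h1 : (∑ q : G ⧸ L, ν.map (fun y => (Quotient.out q) • y)).map (fun y => g • y)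
        = ∑ q : G ⧸ L, (ν.map (fun y => (Quotient.out q) • y)).map (fun y => g • y) := by
      ext s hs
      rw [Measure.map_apply (hm g) hs, Measure.coe_finsetSum, Measure.coe_finsetSum,
        Finset.sum_apply, Finset.sum_apply]
      apply Finset.sum_congr rfl
      intro q _
      rw [Measure.map_apply (hm g) hs]
    rw [h1]
    have h2 : ∀ q : G ⧸ L, (ν.map (fun y => (Quotient.out q) • y)).map (fun y => g • y)
        = ν.map (fun y => (Quotient.out (g • q)) • y) := by
      intro q
      rw [hcomp]
      apply hcoset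
      rw [QuotientGroup.out_eq', ← smul_eq_mul, ← MulAction.Quotient.coe_smul_out]
    simp_rw [h2]
    exact (Equiv.sum_comp (MulAction.toPerm g : Equiv.Perm (G ⧸ L))
      (fun q => ν.map (fun y => (Quotient.out q) • y)))

end Pool.Agent.T4h92.DC.SUM
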