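import Pool.Agent.T4h92.DC.Stm

set_option autoImplicit false

open MeasureTheory Filter Topology ENNReal
open Pool.Agent.T4h92.DC

namespace Pool.Agent.T4h92.DC.SUP

theorem t_SUP (hCHA : S_CHA) (hSEP : S_SEP) (hMBE : S_MBE) (hMPR : S_MPR) (hERG : S_ERG) :
    S_SUP := by
  intro G B Γ _ _ _ _ β _ _ _ w hT hw
  obtain ⟨Φ, hΦ, hΦeq⟩ := hCHA G B Γ β w hT hw
  obtain ⟨hP1, hM1⟩ := hMBE G B β
  obtain ⟨hP2, hM2⟩ := hMBE G (B × unitInterval) (β.prod (volume : Measure unitInterval))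
  obtain ⟨hP11, hM11⟩ := hMPR G (G → B) (G → B) (ber G β) (ber G β) sh sh hP1 hP1 hM1 hM1
  obtain ⟨hP22, hM22⟩ := hMPR G (G → B × unitInterval) (G → B × unitInterval)
    (ber G (β.prod (volume : Measure unitInterval)))
    (ber G (β.prod (volume : Measure unitInterval))) sh sh hP2 hP2 hM2 hM2
  obtain ⟨hP4, hM4⟩ := hMPR G _ _ _ _ (pact sh sh) (pact sh sh) hP11 hP22 hM11 hM22
  have hE := hERG G _ _ _ hP4 hM4 Set.univ Set.infinite_univ
  have hsnd : Measurable (snd' : (G → B × unitInterval) → (G → B)) := by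
    unfold snd'; fun_prop
  have hw2 : Coc (sh : G → (G → B × unitInterval) → (G → B × unitInterval))
      (fun g v => w g (snd' v)) := by
    refine ⟨?_, ?_⟩
    · intro g h v
      exact hw.mul g h (snd' v)
    · intro g γ
      exact hsnd (hw.meas g γ)
  exact hSEP G (G → B) (G → B × unitInterval) Γ (ber G β)
    (ber G (β.prod (volume : Measure unitInterval))) sh sh w (fun g v => w g (snd' v)) Φ
    hP1 hP2 hE hw hw2 hΦ hΦeq

end Pool.Agent.T4h92.DC.SUP
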