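import Pool.Agent.T4h92.DC.Stm

set_option autoImplicit false

open MeasureTheory Filter Topology ENNReal

namespace Pool.Agent.T4h92.DC.TH

open Pool.Agent.T4h92.DC

/-- A representative in the normaliser. -/
noncomputable def r {G : Type} [Group G] {F : Subgroup G} (q : NQ F) : Nor F := Quotient.out q

theorem r_mk {G : Type} [Group G] {F : Subgroup G} (q : NQ F) :
    (QuotientGroup.mk (r q) : NQ F) = q := Quotient.out_eq q

/-- Two representatives of the same class act in the same way on points with stabiliser `F`. -/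
theorem same {G : Type} [Group G] {Y : Type} [MulAction G Y] {F : Subgroup G} (n n' : Nor F)
    (h : (QuotientGroup.mk n : NQ F) = QuotientGroup.mk n') (y : Y)
    (hy : MulAction.stabilizer G y = F) : (n : G) • y = (n' : G) • y := by
  have h1 : n⁻¹ * n' ∈ F.subgroupOf (Nor F) := QuotientGroup.eq.1 h
  rw [Subgroup.mem_subgroupOf] at h1
  have h2 : ((n⁻¹ * n' : Nor F) : G) ∈ MulAction.stabilizer G y := by rw [hy]; exact h1
  rw [MulAction.mem_stabilizer_iff] at h2
  have h3 : ((n : G)⁻¹ * (n' : G)) • y = y := by simpa using h2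
  rw [mul_smul, inv_smul_eq_iff] at h3
  exact h3.symm

theorem stab {G : Type} [Group G] {Y : Type} [MulAction G Y] {F : Subgroup G} (n : Nor F) (y : Y)
    (hy : MulAction.stabilizer G y = F) : MulAction.stabilizer G ((n : G) • y) = F := by
  have hn : (n : G) ∈ Subgroup.normalizer (F : Set G) := n.2
  ext a
  rw [MulAction.mem_stabilizer_iff]
  constructor
  · intro h
    have h1 : ((n : G)⁻¹ * a * (n : G)) • y = y := by
      rw [mul_smul, mul_smul, h, inv_smul_smul]
    rw [← MulAction.mem_stabilizer_iff, hy] at h1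
    have h2 := (Subgroup.mem_normalizer_iff.1 hn ((n : G)⁻¹ * a * (n : G))).1 h1
    have h3 : (n : G) * ((n : G)⁻¹ * a * (n : G)) * (n : G)⁻¹ = a := by group
    rwa [h3] at h2
  · intro h
    have h3 : (n : G) * ((n : G)⁻¹ * a * (n : G)) * (n : G)⁻¹ = a := by group
    rw [← h3] at h
    have h2 := (Subgroup.mem_normalizer_iff.1 hn ((n : G)⁻¹ * a * (n : G))).2 h
    have h4 : (n : G)⁻¹ * a * (n : G) ∈ MulAction.stabilizer G y := by rw [hy]; exact h2
    rw [MulAction.mem_stabilizer_iff] at h4
    have h2 := h4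
    rw [mul_smul, mul_smul, inv_smul_eq_iff] at h2
    exact h2

theorem t_TH : S_TH := by
  intro G _ _ Ω _ m T Y _ _ F u w b ρ hm hT hu hb hst hw hρ
  have : Countable (NQ F) := Quotient.countable
  refine ⟨fun x => ((r (b x) : Nor F) : G) • u x, ?_, fun x => ⟨_, rfl⟩, ?_, ?_⟩
  · -- measurability
    intro s hs
    have h1 : (fun x => ((r (b x) : Nor F) : G) • u x) ⁻¹' s
        = ⋃ q : NQ F, ({x | b x = q} ∩ (fun x => ((r q : Nor F) : G) • u x) ⁻¹' s) := by
      ext x
      simp only [Set.mem_preimage, Set.mem_iUnion, Set.mem_inter_iff, Set.mem_ofPred_eq]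
      constructor
      · intro h; exact ⟨b x, rfl, h⟩
      · rintro ⟨q, rfl, h⟩; exact h
    rw [h1]
    refine MeasurableSet.iUnion fun q => (hb q).inter ?_
    exact ((hm (r q : G)).comp hu) hs
  · filter_upwards [hst] with x hx
    exact stab _ _ hx
  · intro g n hn
    have hst' : ∀ᵐ x ∂m, MulAction.stabilizer G (u (T g x)) = F :=
      (hT.mp g).quasiMeasurePreserving.ae hst
    filter_upwards [hst, hw g, hρ g] with x h1 h2 h3
    show ((r (b (T g x)) : Nor F) : G) • u (T g x) = (n : G) • (((r (b x) : Nor F) : G) • u x)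
    have h4 := h2 (r (w g x)) (r_mk _)
    rw [h4, smul_smul, smul_smul]
    have h5 := same (r (b (T g x)) * r (w g x)) (n * r (b x)) (by
      rw [QuotientGroup.mk_mul, QuotientGroup.mk_mul, r_mk, r_mk, r_mk, hn, ← h3]
      group) (u x) h1
    simpa using h5

end Pool.Agent.T4h92.DC.TH
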