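import Pool.Agent.T4h92.DC.Stm

/-!
# MP_45e9b0_lc, task UNI: uniform continuity along the path
-/

set_option autoImplicit false

open MeasureTheory Filter Topology ENNReal

namespace Pool.Agent.T4h92.DC.UNI

open Pool.Agent.T4h92.DC

/-- The set where membership in `A` differs at the times `s` and `t`. -/
def xs {G B : Type} (A : Set (G → B)) (s t : ℝ) : Set (BZ G B) :=
  {z | ¬ (mixm s z ∈ A ↔ mixm t z ∈ A)}

/-- Continuity for a family of events. -/
def Good {G B : Type} [MeasurableSpace B] (β : Measure B) [IsProbabilityMeasure β]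
    (E : ℝ → ℝ → Set (BZ G B)) : Prop :=
  ∀ ε : ℝ≥0∞, ε ≠ 0 → ∃ δ : ℝ, 0 < δ ∧ ∀ s t : ℝ, s ≤ t → t - s ≤ δ → bz G β (E s t) ≤ ε

theorem good_biUnion {G B ι : Type} [MeasurableSpace B] (β : Measure B) [IsProbabilityMeasure β]
    (K : Finset ι) (E : ι → ℝ → ℝ → Set (BZ G B)) (hE : ∀ i ∈ K, Good β (E i)) :
    Good β (fun s t => ⋃ i ∈ K, E i s t) := by
  classical
  induction K using Finset.induction_on with
  | empty =>
    intro ε _
    refine ⟨1, one_pos, fun s t _ _ => ?_⟩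
    simp
  | insert a K ha ih =>
    intro ε hε
    have h2 : ε / 2 ≠ 0 := by
      simp [ENNReal.div_eq_zero_iff, hε]
    obtain ⟨δ₁, hδ₁, h₁⟩ := hE a (Finset.mem_insert_self a K) (ε / 2) h2
    obtain ⟨δ₂, hδ₂, h₂⟩ := ih (fun i hi => hE i (Finset.mem_insert_of_mem hi)) (ε / 2) h2
    refine ⟨min δ₁ δ₂, lt_min hδ₁ hδ₂, fun s t hst hd => ?_⟩
    have hins : (⋃ i ∈ insert a K, E i s t) = E a s t ∪ ⋃ i ∈ K, E i s t :=
      Finset.set_biUnion_insert a K (fun i => E i s t)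
    show bz G β (⋃ i ∈ insert a K, E i s t) ≤ ε
    rw [hins]
    calc bz G β (E a s t ∪ ⋃ i ∈ K, E i s t)
        ≤ bz G β (E a s t) + bz G β (⋃ i ∈ K, E i s t) := measure_union_le _ _
      _ ≤ ε / 2 + ε / 2 := add_le_add (h₁ s t hst (hd.trans (min_le_left _ _)))
          (h₂ s t hst (hd.trans (min_le_right _ _)))
      _ = ε := ENNReal.add_halves ε

theorem tail {ι Ω : Type} [Countable ι] [MeasurableSpace Ω] (m : Measure Ω)
    [IsProbabilityMeasure m] (A : ι → Set Ω) (hA : ∀ i, MeasurableSet (A i))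
    (hd : Pairwise (fun i j => Disjoint (A i) (A j))) (ε : ℝ≥0∞) (hε : ε ≠ 0) :
    ∃ K : Finset ι, m (⋃ i : {i // i ∉ K}, A i) ≤ ε := by
  have h1 : ∑' i, m (A i) ≠ ∞ := by
    rw [← measure_iUnion hd hA]
    exact measure_ne_top _ _
  have h2 := ENNReal.tendsto_tsum_compl_atTop_zero h1
  have h3 : ∀ᶠ K : Finset ι in atTop, ∑' b : {x // x ∉ K}, m (A b) < ε :=
    h2.eventually (gt_mem_nhds (pos_iff_ne_zero.2 hε))
  obtain ⟨K, hK⟩ := h3.exists
  exact ⟨K, (measure_iUnion_le _).trans hK.le⟩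

theorem good_box {G B : Type} [Group G] [Countable G] [MeasurableSpace B] (β : Measure B)
    [IsProbabilityMeasure β] (hPT : S_PT) (F : Finset G) (a : G → Set B) :
    Good β (xs ((F : Set G).pi a)) := by
  obtain ⟨-, h2⟩ := hPT G B β
  have hg : Good β (fun s t => ⋃ h ∈ F, {z : BZ G B | mixm s z h ≠ mixm t z h}) := by
    refine good_biUnion β F (fun h s t => {z : BZ G B | mixm s z h ≠ mixm t z h}) fun h _ => ?_
    intro ε hε
    by_cases htop : ε = ∞
    · exact ⟨1, one_pos, fun s t _ _ => by rw [htop]; exact le_top⟩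
    · refine ⟨ε.toReal, ENNReal.toReal_pos hε htop, fun s t hst hd => ?_⟩
      refine (h2 s t hst h).trans ?_
      rw [← ENNReal.ofReal_toReal htop]
      exact ENNReal.ofReal_le_ofReal hd
  intro ε hε
  obtain ⟨δ, hδ, h⟩ := hg ε hε
  refine ⟨δ, hδ, fun s t hst hd => (measure_mono ?_).trans (h s t hst hd)⟩
  intro z hz
  by_contra hcon
  apply hz
  have heq : ∀ h ∈ F, mixm s z h = mixm t z h := by
    intro h hh
    by_contra hne
    apply hcon
    simp only [Set.mem_iUnion]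
    exact ⟨h, hh, hne⟩
  simp only [Set.mem_pi, Finset.mem_coe]
  constructor
  · intro h1 i hi
    rw [← heq i hi]; exact h1 i hi
  · intro h1 i hi
    rw [heq i hi]; exact h1 i hi

theorem good_meas {G B : Type} [Group G] [Countable G] [MeasurableSpace B] (β : Measure B)
    [IsProbabilityMeasure β] (hPT : S_PT) (A : Set (G → B)) (hA : MeasurableSet A) :
    Good β (xs A) := by
  obtain ⟨hmp, -⟩ := hPT G B β
  refine MeasurableSpace.induction_on_inter (C := fun A _ => Good β (xs A))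
    generateFrom_squareCylinders.symm
    (isPiSystem_squareCylinders (fun _ => MeasurableSpace.isPiSystem_measurableSet) (by simp))
    ?_ ?_ ?_ ?_ A hA
  · intro ε _
    refine ⟨1, one_pos, fun s t _ _ => ?_⟩
    simp [xs]
  · rintro _ ⟨s, a, -, rfl⟩
    exact good_box β hPT s a
  · intro A _ hg ε hε
    obtain ⟨δ, hδ, h⟩ := hg ε hε
    refine ⟨δ, hδ, fun s t hst hd => ?_⟩
    have : xs Aᶜ s t = xs A s t := by
      ext z
      simp only [xs, Set.mem_compl_iff, not_iff_not, Set.mem_ofPred_eq]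
    rw [this]
    exact h s t hst hd
  · intro f hdis hf hg ε hε
    have h2 : ε / 2 ≠ 0 := by
      simp [ENNReal.div_eq_zero_iff, hε]
    have h4 : ε / 2 / 2 ≠ 0 := by
      simp [ENNReal.div_eq_zero_iff, hε]
    obtain ⟨K, hK⟩ := tail (ber G β) f hf hdis (ε / 2 / 2) h4
    obtain ⟨δ, hδ, h⟩ := good_biUnion β K (fun n => xs (f n)) (fun n _ => hg n) (ε / 2) h2
    refine ⟨δ, hδ, fun s t hst hd => ?_⟩
    set R : Set (G → B) := ⋃ i : {i // i ∉ K}, f i with hR
    have hRm : MeasurableSet R := MeasurableSet.iUnion fun i => hf i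
    have hsub : xs (⋃ i, f i) s t ⊆ (⋃ n ∈ K, xs (f n) s t) ∪ (mixm s ⁻¹' R ∪ mixm t ⁻¹' R) := by
      intro z hz
      by_contra hcon
      simp only [Set.mem_union, Set.mem_iUnion, Set.mem_preimage, not_or, not_exists] at hcon
      obtain ⟨hc1, hc2, hc3⟩ := hcon
      apply hz
      have hk : ∀ n ∈ K, (mixm s z ∈ f n ↔ mixm t z ∈ f n) := by
        intro n hn
        by_contra hne
        exact hc1 n hn hne
      simp only [Set.mem_iUnion]
      constructor
      · rintro ⟨n, hn⟩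
        by_cases hnK : n ∈ K
        · exact ⟨n, (hk n hnK).1 hn⟩
        · exact absurd (Set.mem_iUnion.2 ⟨⟨n, hnK⟩, hn⟩) hc2
      · rintro ⟨n, hn⟩
        by_cases hnK : n ∈ K
        · exact ⟨n, (hk n hnK).2 hn⟩
        · exact absurd (Set.mem_iUnion.2 ⟨⟨n, hnK⟩, hn⟩) hc3
    calc bz G β (xs (⋃ i, f i) s t)
        ≤ bz G β ((⋃ n ∈ K, xs (f n) s t) ∪ (mixm s ⁻¹' R ∪ mixm t ⁻¹' R)) := measure_mono hsub
      _ ≤ bz G β (⋃ n ∈ K, xs (f n) s t) +
          (bz G β (mixm s ⁻¹' R) + bz G β (mixm t ⁻¹' R)) :=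
          (measure_union_le _ _).trans (add_le_add le_rfl (measure_union_le _ _))
      _ ≤ ε / 2 + (ε / 2 / 2 + ε / 2 / 2) := by
          refine add_le_add (h s t hst hd) (add_le_add ?_ ?_)
          · rw [(hmp s).measure_preimage hRm.nullMeasurableSet]; exact hK
          · rw [(hmp t).measure_preimage hRm.nullMeasurableSet]; exact hK
      _ = ε := by rw [ENNReal.add_halves, ENNReal.add_halves]

theorem t_UNI (hPT : S_PT) : S_UNI := by
  intro G B Γ _ _ _ β _ _ Φ hΦ ε hε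
  obtain ⟨hmp, -⟩ := hPT G B β
  set e : ℝ≥0∞ := ENNReal.ofReal ε with he
  have he0 : e ≠ 0 := by
    rw [he]; exact (ENNReal.ofReal_pos.2 hε).ne'
  have h2 : e / 2 ≠ 0 := by
    simp [ENNReal.div_eq_zero_iff, he0]
  have hdis : Pairwise (fun γ γ' : Γ => Disjoint {x : G → B | Φ x = γ} {x : G → B | Φ x = γ'}) := by
    intro γ γ' hne
    rw [Set.disjoint_left]
    intro x hx hx'
    exact hne (hx.symm.trans hx')
  obtain ⟨K, hK⟩ := tail (ber G β) (fun γ : Γ => {x : G → B | Φ x = γ}) hΦ hdis (e / 2) h2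
  obtain ⟨δ, hδ, h⟩ := good_biUnion β K (fun γ => xs {x : G → B | Φ x = γ})
    (fun γ _ => good_meas β hPT _ (hΦ γ)) (e / 2) h2
  refine ⟨δ, hδ, fun s t hst hd => ?_⟩
  set R : Set (G → B) := ⋃ i : {i // i ∉ K}, {x : G → B | Φ x = (i : Γ)} with hR
  have hRm : MeasurableSet R := MeasurableSet.iUnion fun i => hΦ i
  have hsub : {z : BZ G B | Φ (mixm s z) ≠ Φ (mixm t z)} ⊆
      (⋃ γ ∈ K, xs {x : G → B | Φ x = γ} s t) ∪ mixm s ⁻¹' R := by
    intro z hz
    by_cases hk : Φ (mixm s z) ∈ K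
    · left
      simp only [Set.mem_iUnion]
      refine ⟨Φ (mixm s z), hk, ?_⟩
      intro hiff
      exact hz (hiff.1 rfl).symm
    · right
      exact Set.mem_iUnion.2 ⟨⟨Φ (mixm s z), hk⟩, rfl⟩
  calc bz G β {z : BZ G B | Φ (mixm s z) ≠ Φ (mixm t z)}
      ≤ bz G β ((⋃ γ ∈ K, xs {x : G → B | Φ x = γ} s t) ∪ mixm s ⁻¹' R) := measure_mono hsub
    _ ≤ bz G β (⋃ γ ∈ K, xs {x : G → B | Φ x = γ} s t) + bz G β (mixm s ⁻¹' R) :=
        measure_union_le _ _
    _ ≤ e / 2 + e / 2 := by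
        refine add_le_add (h s t hst hd) ?_
        rw [(hmp s).measure_preimage hRm.nullMeasurableSet]; exact hK
    _ = e := ENNReal.add_halves e

end Pool.Agent.T4h92.DC.UNI
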