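import Pool.Agent.T4h92.DC.T_CHA
import Pool.Agent.T4h92.DC.T_CMP
import Pool.Agent.T4h92.DC.T_CO1
import Pool.Agent.T4h92.DC.T_CO2
import Pool.Agent.T4h92.DC.T_COC
import Pool.Agent.T4h92.DC.T_CONV
import Pool.Agent.T4h92.DC.T_CRIT
import Pool.Agent.T4h92.DC.T_ERC
import Pool.Agent.T4h92.DC.T_ERG
import Pool.Agent.T4h92.DC.T_FIM2
import Pool.Agent.T4h92.DC.T_FRA
import Pool.Agent.T4h92.DC.T_FRB
import Pool.Agent.T4h92.DC.T_FRP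
import Pool.Agent.T4h92.DC.T_KOO
import Pool.Agent.T4h92.DC.T_KRP
import Pool.Agent.T4h92.DC.T_LOA
import Pool.Agent.T4h92.DC.T_LOB
import Pool.Agent.T4h92.DC.T_LOC
import Pool.Agent.T4h92.DC.T_MAIN2
import Pool.Agent.T4h92.DC.T_MBE
import Pool.Agent.T4h92.DC.T_MPL
import Pool.Agent.T4h92.DC.T_MPR
import Pool.Agent.T4h92.DC.T_NOZ
import Pool.Agent.T4h92.DC.T_PRD
import Pool.Agent.T4h92.DC.T_PT
import Pool.Agent.T4h92.DC.T_QT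
import Pool.Agent.T4h92.DC.T_SE1
import Pool.Agent.T4h92.DC.T_SE2
import Pool.Agent.T4h92.DC.T_SE3
import Pool.Agent.T4h92.DC.T_SEP
import Pool.Agent.T4h92.DC.T_SUM
import Pool.Agent.T4h92.DC.T_SUP
import Pool.Agent.T4h92.DC.T_TH
import Pool.Agent.T4h92.DC.T_UNI

/-!
# MP_45e9b0_lc: assembly
-/

set_option autoImplicit false

namespace Pool.Agent.T4h92.DC

theorem h_MPL : S_MPL := MPL.t_MPL
theorem h_MBE : S_MBE := MBE.t_MBE h_MPL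
theorem h_MPR : S_MPR := MPR.t_MPR h_MPL
theorem h_ERG : S_ERG := ERG.t_ERG
theorem h_ERC : S_ERC := ERC.t_ERC
theorem h_KOO : S_KOO := KOO.t_KOO QT.t_QT KRP.t_KRP
theorem h_LOC : S_LOC := LOC.t_LOC h_KOO LOA.t_LOA LOB.t_LOB
theorem h_PT : S_PT := PT.t_PT PRD.t_PRD
theorem h_UNI : S_UNI := UNI.t_UNI h_PT
theorem h_CHA : S_CHA := CHA.t_CHA h_LOC h_PT h_UNI h_MBE h_MPR h_ERG
theorem h_SEP : S_SEP := SEP.t_SEP SE1.t_SE1 SE2.t_SE2 SE3.t_SE3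
/-- Popa's cocycle superrigidity theorem (Bernoulli shifts, property (T), countable targets). -/
theorem h_SUP : S_SUP := SUP.t_SUP h_CHA h_SEP h_MBE h_MPR h_ERG
theorem h_COC : S_COC := COC.t_COC (CO1.t_CO1 h_MBE h_ERG) CO2.t_CO2 h_MBE
theorem h_FRP : S_FRP := FRP.t_FRP FRA.t_FRA FRB.t_FRB CMP.t_CMP
theorem h_MAIN2 : S_MAIN2 :=
  MAIN2.t_MAIN2 h_FRP h_COC h_SUP TH.t_TH (FIM2.t_FIM2 h_MBE h_ERG h_ERC) SUM.t_SUM FRB.t_FRB h_MBE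
theorem h_CRIT : S_CRIT := CRIT.t_CRIT h_MAIN2 CONV.t_CONV

end Pool.Agent.T4h92.DC
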