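import Pool.Agent.T4h92.DC.Def

/-!
# MP_45e9b0_lc: the statements of the tasks (each is a `Prop`, to be proved as a theorem)
-/

set_option autoImplicit false

open MeasureTheory Filter Topology ENNReal

namespace Pool.Agent.T4h92.DC

/-- Mixing is enough on a generating π-system. -/
def S_MPL : Prop := ∀ (G Ω : Type) [Group G] [MeasurableSpace Ω] (m : Measure Ω)
  [IsProbabilityMeasure m] (T : G → Ω → Ω) (C : Set (Set Ω)),
  PMP m T → IsPiSystem C → MeasurableSpace.generateFrom C = ‹MeasurableSpace Ω› →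
  (∀ A ∈ C, ∀ B ∈ C, Tendsto (fun g : G => m (A ∩ T g ⁻¹' B)) cofinite (𝓝 (m A * m B))) →
  Mix m T

/-- Bernoulli shifts preserve the measure and are mixing. -/
def S_MBE : Prop := ∀ (G B : Type) [Group G] [Countable G] [MeasurableSpace B] (β : Measure B)
  [IsProbabilityMeasure β],
  PMP (ber G β) (sh : G → (G → B) → (G → B)) ∧ Mix (ber G β) (sh : G → (G → B) → (G → B))

/-- Products of mixing actions are mixing. -/
def S_MPR : Prop := ∀ (G X Y : Type) [Group G] [MeasurableSpace X] [MeasurableSpace Y]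
  (μ : Measure X) (ν : Measure Y) [IsProbabilityMeasure μ] [IsProbabilityMeasure ν]
  (T : G → X → X) (T' : G → Y → Y),
  PMP μ T → PMP ν T' → Mix μ T → Mix ν T' →
  PMP (μ.prod ν) (pact T T') ∧ Mix (μ.prod ν) (pact T T')

/-- Mixing actions are ergodic for every infinite set of group elements. -/
def S_ERG : Prop := ∀ (G Ω : Type) [Group G] [MeasurableSpace Ω] (m : Measure Ω)
  [IsProbabilityMeasure m] (T : G → Ω → Ω), PMP m T → Mix m T →
  ∀ K : Set G, K.Infinite → ErgOn m T K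

/-- Invariant maps into standard Borel spaces are constant. -/
def S_ERC : Prop := ∀ (G Ω Y : Type) [Group G] [MeasurableSpace Ω] (m : Measure Ω)
  [IsProbabilityMeasure m] (T : G → Ω → Ω) [MeasurableSpace Y] [StandardBorelSpace Y]
  (K : Set G), ErgOn m T K → ∀ θ : Ω → Y, Measurable θ →
  (∀ g ∈ K, ∀ᵐ x ∂m, θ (T g x) = θ x) → ∃ y₀ : Y, ∀ᵐ x ∂m, θ x = y₀

/-- Quantitative property (T). -/
def S_QT : Prop := ∀ (G : Type) [Group G], PropertyT G →
  ∃ (S : Finset G) (κ : ℝ), 0 < κ ∧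
    ∀ (H : Type) [NormedAddCommGroup H] [InnerProductSpace ℂ H] [CompleteSpace H]
      (π : G →* (H ≃ₗᵢ[ℂ] H)) (v : H) (δ : ℝ), 0 < δ → (∀ s ∈ S, ‖π s v - v‖ < κ * δ) →
        ∃ u : H, (∀ g : G, π g u = u) ∧ ‖v - u‖ ≤ δ

/-- The Koopman representation. -/
def S_KRP : Prop := ∀ (G : Type) [Group G] (Λ : Type) [MeasurableSpace Λ] (ℓ : Measure Λ)
  (R : G → Λ → Λ), PMP ℓ R →
  ∃ π : G →* (Lp ℂ 2 ℓ ≃ₗᵢ[ℂ] Lp ℂ 2 ℓ), ∀ (g : G) (f : Lp ℂ 2 ℓ),
    (π g f : Λ → ℂ) =ᵐ[ℓ] fun z => f (R g⁻¹ z)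

/-- Quantitative property (T) for measure preserving actions (the measure may be infinite):
almost invariant sets of finite measure are close in `L²` to invariant functions. -/
def S_KOO : Prop := ∀ (G : Type) [Group G] [Countable G], PropertyT G →
  ∃ S : Finset G, ∀ δ : ℝ, 0 < δ → ∃ η : ℝ, 0 < η ∧
    ∀ (Λ : Type) [MeasurableSpace Λ] (ℓ : Measure Λ) [SigmaFinite ℓ] (R : G → Λ → Λ),
      PMP ℓ R → ∀ A : Set Λ, MeasurableSet A → ℓ A ≠ ⊤ →
      (∀ s ∈ S, ℓ (symmDiff A (R s ⁻¹' A)) ≤ ENNReal.ofReal η) →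
      ∃ F : Λ → ℂ, Measurable F ∧ (∀ g : G, ∀ᵐ z ∂ℓ, F (R g z) = F z) ∧
        ∫⁻ z, ‖F z - A.indicator (fun _ => (1 : ℂ)) z‖ₑ ^ 2 ∂ℓ ≤ ENNReal.ofReal δ

/-- The action on `Ω × Γ` twisted by two cocycles preserves `m × counting`, and moves
`Ω × {1}` by `m {w ≠ w'}`. -/
def S_LOA : Prop := ∀ (G Ω Γ : Type) [Group G] [MeasurableSpace Ω] (m : Measure Ω)
  [IsProbabilityMeasure m] [Group Γ] [Countable Γ] [MeasurableSpace Γ] [DiscreteMeasurableSpace Γ]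
  (T : G → Ω → Ω) (w w' : G → Ω → Γ), PMP m T → Coc T w → Coc T w' →
  PMP (m.prod (Measure.count : Measure Γ))
    (fun g z => (T g z.1, w' g z.1 * z.2 * (w g z.1)⁻¹)) ∧
  ∀ g : G, (m.prod (Measure.count : Measure Γ))
      (symmDiff {z : Ω × Γ | z.2 = 1}
        ((fun z : Ω × Γ => (T g z.1, w' g z.1 * z.2 * (w g z.1)⁻¹)) ⁻¹' {z : Ω × Γ | z.2 = 1}))
      ≤ 2 * m {x | w g x ≠ w' g x}

/-- From an invariant function near the indicator of `Ω × {1}` to a transfer function. -/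
def S_LOB : Prop := ∀ (G Ω Γ : Type) [Group G] [Countable G] [MeasurableSpace Ω] (m : Measure Ω)
  [IsProbabilityMeasure m] [Group Γ] [Countable Γ] (T : G → Ω → Ω) (w w' : G → Ω → Γ)
  (F : Ω → Γ → ℂ), PMP m T → ErgOn m T Set.univ → Coc T w → Coc T w' →
  (∀ γ : Γ, Measurable (fun x => F x γ)) →
  (∀ g : G, ∀ᵐ x ∂m, ∀ γ : Γ, F (T g x) (w' g x * γ * (w g x)⁻¹) = F x γ) →
  (∑' γ : Γ, ∫⁻ x, ‖F x γ - Set.indicator {(1 : Γ)} (fun _ => (1 : ℂ)) γ‖ₑ ^ 2 ∂m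
    ≤ ENNReal.ofReal (1 / 8)) →
  ∃ Φ : Ω → Γ, CM Φ ∧ ∀ g : G, ∀ᵐ x ∂m, w' g x = Φ (T g x) * w g x * (Φ x)⁻¹

/-- Local rigidity of cocycles. -/
def S_LOC : Prop := ∀ (G : Type) [Group G] [Countable G], PropertyT G →
  ∃ (S : Finset G) (η : ℝ), 0 < η ∧
    ∀ (Ω Γ : Type) [MeasurableSpace Ω] (m : Measure Ω) [IsProbabilityMeasure m] [Group Γ]
      [Countable Γ] (T : G → Ω → Ω) (w w' : G → Ω → Γ),
      PMP m T → ErgOn m T Set.univ → Coc T w → Coc T w' →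
      (∀ s ∈ S, m {x | w s x ≠ w' s x} ≤ ENNReal.ofReal η) →
      ∃ Φ : Ω → Γ, CM Φ ∧ ∀ g : G, ∀ᵐ x ∂m, w' g x = Φ (T g x) * w g x * (Φ x)⁻¹

/-- The product measure of a product base. -/
def S_PRD : Prop := ∀ (G B C : Type) [MeasurableSpace B] [MeasurableSpace C] (β : Measure B)
  (γ : Measure C) [IsProbabilityMeasure β] [IsProbabilityMeasure γ],
  MeasurePreserving (fun p : G → B × C => ((fun h => (p h).1, fun h => (p h).2) :
    (G → B) × (G → C))) (ber G (β.prod γ)) ((ber G β).prod (ber G γ))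

/-- The path `mixm`: measure preserving, and continuous. -/
def S_PT : Prop := ∀ (G B : Type) [Group G] [Countable G] [MeasurableSpace B] (β : Measure B)
  [IsProbabilityMeasure β],
  (∀ t : ℝ, MeasurePreserving (mixm t : BZ G B → (G → B)) (bz G β) (ber G β)) ∧
  (∀ s t : ℝ, s ≤ t → ∀ h : G,
    bz G β {z | mixm s z h ≠ mixm t z h} ≤ ENNReal.ofReal (t - s))

/-- Uniform continuity along the path of maps with countably many values. -/
def S_UNI : Prop := ∀ (G B Γ : Type) [Group G] [Countable G] [MeasurableSpace B] (β : Measure B)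
  [IsProbabilityMeasure β] [Countable Γ] (Φ : (G → B) → Γ), CM Φ → ∀ ε : ℝ, 0 < ε →
  ∃ δ : ℝ, 0 < δ ∧ ∀ s t : ℝ, s ≤ t → t - s ≤ δ →
    bz G β {z | Φ (mixm s z) ≠ Φ (mixm t z)} ≤ ENNReal.ofReal ε

/-- Cocycles of Bernoulli shifts pulled back by the two coordinates are cohomologous. -/
def S_CHA : Prop := ∀ (G B Γ : Type) [Group G] [Countable G] [Infinite G] [MeasurableSpace B]
  (β : Measure B) [IsProbabilityMeasure β] [Group Γ] [Countable Γ]
  (w : G → (G → B) → Γ), PropertyT G → Coc sh w →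
  ∃ Φ : BZ G B → Γ, CM Φ ∧ ∀ g : G, ∀ᵐ z ∂(bz G β),
    w g (snd' z.2) = Φ (pact sh sh g z) * w g z.1 * (Φ z)⁻¹

/-- Separation of variables, step 1: an invariant coincidence relation is conull. -/
def S_SE1 : Prop := ∀ (G P V Γ : Type) [Group G] [MeasurableSpace P] [MeasurableSpace V]
  (μ : Measure P) (ν : Measure V) [IsProbabilityMeasure μ] [IsProbabilityMeasure ν] [Countable Γ]
  (T : G → P × (V × V) → P × (V × V)) (h : P → V → Γ),
  ErgOn (μ.prod (ν.prod ν)) T Set.univ →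
  (∀ γ : Γ, MeasurableSet {z : P × V | h z.1 z.2 = γ}) →
  (∀ g : G, ∀ᵐ z ∂(μ.prod (ν.prod ν)),
    (h (T g z).1 (T g z).2.1 = h (T g z).1 (T g z).2.2 ↔ h z.1 z.2.1 = h z.1 z.2.2)) →
  ∀ᵐ z ∂(μ.prod (ν.prod ν)), h z.1 z.2.1 = h z.1 z.2.2

/-- Separation of variables, step 2. -/
def S_SE2 : Prop := ∀ (X V Γ : Type) [MeasurableSpace X] [MeasurableSpace V] (μ : Measure X)
  (ν : Measure V) [IsProbabilityMeasure μ] [IsProbabilityMeasure ν] [Group Γ] [Countable Γ]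
  (Φ : X × V → Γ), CM Φ →
  (∀ᵐ z ∂((μ.prod μ).prod (ν.prod ν)),
    (Φ (z.1.2, z.2.1))⁻¹ * Φ (z.1.1, z.2.1) = (Φ (z.1.2, z.2.2))⁻¹ * Φ (z.1.1, z.2.2)) →
  ∃ (A : V → Γ) (b : X → Γ), CM A ∧ CM b ∧ ∀ᵐ z ∂(μ.prod ν), Φ z = A z.2 * b z.1

/-- Separation of variables, step 3. -/
def S_SE3 : Prop := ∀ (G X V Γ : Type) [Group G] [Countable G] [MeasurableSpace X]
  [MeasurableSpace V] (μ : Measure X) (ν : Measure V) [IsProbabilityMeasure μ]
  [IsProbabilityMeasure ν] [Group Γ] [Countable Γ] (T : G → X → X) (T' : G → V → V)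
  (w : G → X → Γ) (w₂ : G → V → Γ) (A : V → Γ) (b : X → Γ),
  PMP μ T → PMP ν T' → Coc T w → Coc T' w₂ → CM A → CM b →
  (∀ g : G, ∀ᵐ z ∂(μ.prod ν),
    w₂ g z.2 = (A (T' g z.2) * b (T g z.1)) * w g z.1 * (A z.2 * b z.1)⁻¹) →
  ∃ ρ : G →* Γ, ∀ g : G, ∀ᵐ x ∂μ, b (T g x) * w g x * (b x)⁻¹ = ρ g

/-- Separation of variables. -/
def S_SEP : Prop := ∀ (G X V Γ : Type) [Group G] [Countable G] [MeasurableSpace X]
  [MeasurableSpace V] (μ : Measure X) (ν : Measure V) [IsProbabilityMeasure μ]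
  [IsProbabilityMeasure ν] [Group Γ] [Countable Γ] (T : G → X → X) (T' : G → V → V)
  (w : G → X → Γ) (w₂ : G → V → Γ) (Φ : X × V → Γ),
  PMP μ T → PMP ν T' →
  ErgOn ((μ.prod μ).prod (ν.prod ν)) (pact (pact T T) (pact T' T')) Set.univ →
  Coc T w → Coc T' w₂ → CM Φ →
  (∀ g : G, ∀ᵐ z ∂(μ.prod ν), w₂ g z.2 = Φ (pact T T' g z) * w g z.1 * (Φ z)⁻¹) →
  ∃ (b : X → Γ) (ρ : G →* Γ), CM b ∧
    ∀ g : G, ∀ᵐ x ∂μ, b (T g x) * w g x * (b x)⁻¹ = ρ g

/-- Popa's cocycle superrigidity for Bernoulli shifts of property (T) groups and countable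
targets. -/
def S_SUP : Prop := ∀ (G B Γ : Type) [Group G] [Countable G] [Infinite G] [MeasurableSpace B]
  (β : Measure B) [IsProbabilityMeasure β] [Group Γ] [Countable Γ]
  (w : G → (G → B) → Γ), PropertyT G → Coc sh w →
  ∃ (b : (G → B) → Γ) (ρ : G →* Γ), CM b ∧
    ∀ g : G, ∀ᵐ x ∂(ber G β), b (sh g x) * w g x * (b x)⁻¹ = ρ g

/-- The shift on `2^G` is a.e. free. -/
def S_FRA : Prop := ∀ (G : Type) [Group G] [Countable G] [Infinite G],
  ∀ g : G, g ≠ 1 → ∀ᵐ x ∂(ber G coin), sh g x ≠ x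

/-- Points of `2^G` are null. -/
def S_FRB : Prop := ∀ (G : Type) [Countable G] [Infinite G] (x : G → Bool), ber G coin {x} = 0

/-- One subgroup `F` is, up to conjugation, the stabiliser of almost every `f x`. -/
def S_CO1 : Prop := ∀ (G : Type) [Group G] [Countable G] [Infinite G] [Countable (Subgroup G)]
  (Y : Type) [MeasurableSpace Y] [StandardBorelSpace Y] [MulAction G Y]
  (f : (G → Bool) → Y) (X₀ : Set (G → Bool)),
  (∀ g : G, Measurable (fun y : Y => g • y)) → Measurable f →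
  MeasurableSet X₀ → (∀ᵐ x ∂(ber G coin), x ∈ X₀) → (∀ g : G, ∀ x ∈ X₀, sh g x ∈ X₀) →
  (∀ g : G, ∀ x ∈ X₀, f (sh g x) ∈ MulAction.orbit G (f x)) →
  ∃ (F : Subgroup G) (u : (G → Bool) → Y) (X₁ : Set (G → Bool)),
    Measurable u ∧ MeasurableSet X₁ ∧ X₁ ⊆ X₀ ∧ (∀ᵐ x ∂(ber G coin), x ∈ X₁) ∧
    (∀ g : G, ∀ x ∈ X₁, sh g x ∈ X₁) ∧
    (∀ x ∈ X₁, u x ∈ MulAction.orbit G (f x) ∧ MulAction.stabilizer G (u x) = F)

/-- The cocycle of a map with constant stabiliser. -/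
def S_CO2 : Prop := ∀ (G : Type) [Group G] [Countable G] (Ω : Type) [MeasurableSpace Ω]
  (m : Measure Ω) (T : G → Ω → Ω) (Y : Type) [MeasurableSpace Y] [StandardBorelSpace Y]
  [MulAction G Y] (F : Subgroup G) (u : Ω → Y) (X₁ : Set Ω),
  (∀ g : G, Measurable (fun y : Y => g • y)) → PMP m T → Measurable u → MeasurableSet X₁ →
  (∀ᵐ x ∂m, x ∈ X₁) → (∀ g : G, ∀ x ∈ X₁, T g x ∈ X₁) →
  (∀ x ∈ X₁, MulAction.stabilizer G (u x) = F) →
  (∀ g : G, ∀ x ∈ X₁, u (T g x) ∈ MulAction.orbit G (u x)) →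
  ∃ w : G → Ω → NQ F, Coc T w ∧
    ∀ g : G, ∀ x ∈ X₁, ∀ n : Nor F, (QuotientGroup.mk n : NQ F) = w g x →
      u (T g x) = (n : G) • u x

/-- Equivariant maps up to orbits give cocycles into `N(F)/F`. -/
def S_COC : Prop := ∀ (G : Type) [Group G] [Countable G] [Infinite G] [Countable (Subgroup G)]
  (Y : Type) [MeasurableSpace Y] [StandardBorelSpace Y] [MulAction G Y]
  (f : (G → Bool) → Y) (X₀ : Set (G → Bool)),
  (∀ g : G, Measurable (fun y : Y => g • y)) → Measurable f →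
  MeasurableSet X₀ → (∀ᵐ x ∂(ber G coin), x ∈ X₀) → (∀ g : G, ∀ x ∈ X₀, sh g x ∈ X₀) →
  (∀ g : G, ∀ x ∈ X₀, f (sh g x) ∈ MulAction.orbit G (f x)) →
  ∃ (F : Subgroup G) (u : (G → Bool) → Y) (w : G → (G → Bool) → NQ F),
    Coc sh w ∧ Measurable u ∧
    (∀ᵐ x ∂(ber G coin), u x ∈ MulAction.orbit G (f x) ∧ MulAction.stabilizer G (u x) = F) ∧
    (∀ g : G, ∀ᵐ x ∂(ber G coin), ∀ n : Nor F, (QuotientGroup.mk n : NQ F) = w g x →
      u (sh g x) = (n : G) • u x)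

/-- Untwisting `u` by `b`. -/
def S_TH : Prop := ∀ (G : Type) [Group G] [Countable G] (Ω : Type) [MeasurableSpace Ω]
  (m : Measure Ω) (T : G → Ω → Ω) (Y : Type) [MeasurableSpace Y] [MulAction G Y]
  (F : Subgroup G) (u : Ω → Y) (w : G → Ω → NQ F) (b : Ω → NQ F) (ρ : G →* NQ F),
  (∀ g : G, Measurable (fun y : Y => g • y)) → PMP m T → Measurable u → CM b →
  (∀ᵐ x ∂m, MulAction.stabilizer G (u x) = F) →
  (∀ g : G, ∀ᵐ x ∂m, ∀ n : Nor F, (QuotientGroup.mk n : NQ F) = w g x →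
      u (T g x) = (n : G) • u x) →
  (∀ g : G, ∀ᵐ x ∂m, b (T g x) * w g x * (b x)⁻¹ = ρ g) →
  ∃ θ : Ω → Y, Measurable θ ∧ (∀ x, θ x ∈ MulAction.orbit G (u x)) ∧
    (∀ᵐ x ∂m, MulAction.stabilizer G (θ x) = F) ∧
    (∀ g : G, ∀ n : Nor F, (QuotientGroup.mk n : NQ F) = ρ g →
      ∀ᵐ x ∂m, θ (T g x) = (n : G) • θ x)

/-- If `ρ` has finite image, `θ` is a.e. constant. -/
def S_FIM : Prop := ∀ (G : Type) [Group G] [Countable G] [Infinite G]
  (Y : Type) [MeasurableSpace Y] [StandardBorelSpace Y] [MulAction G Y]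
  (F : Subgroup G) (ρ : G →* NQ F) (θ : (G → Bool) → Y),
  Measurable θ →
  (∀ g : G, ∀ n : Nor F, (QuotientGroup.mk n : NQ F) = ρ g →
      ∀ᵐ x ∂(ber G coin), θ (sh g x) = (n : G) • θ x) →
  Finite ρ.range → ∃ y₀ : Y, ∀ᵐ x ∂(ber G coin), θ x = y₀

/-- Invariant finite measures pass from finite index subgroups to the group. -/
def S_SUM : Prop := ∀ (G : Type) [Group G] (Y : Type) [MeasurableSpace Y] [MulAction G Y]
  (L : Subgroup G) (ν : Measure Y) [IsFiniteMeasure ν],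
  (∀ g : G, Measurable (fun y : Y => g • y)) → L.FiniteIndex → ν ≠ 0 →
  (∀ g ∈ L, ν.map (fun y => g • y) = ν) →
  ∃ ν' : Measure Y, IsFiniteMeasure ν' ∧ ν' ≠ 0 ∧ ∀ g : G, ν'.map (fun y => g • y) = ν'

/-- Compressible orbit equivalence relations have no invariant finite measure. -/
def S_CMP : Prop := ∀ (G : Type) [Group G] [Countable G] (Y : Type) [MeasurableSpace Y]
  [StandardBorelSpace Y] [MulAction G Y] (c : Y → Y),
  (∀ g : G, Measurable (fun y : Y => g • y)) → Measurable c → Function.Injective c →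
  (∀ y : Y, c y ∈ MulAction.orbit G y) →
  (∀ y : Y, ∃ z ∈ MulAction.orbit G y, ∀ w : Y, c w ≠ z) →
  ∀ (ν : Measure Y) [IsFiniteMeasure ν], (∀ g : G, ν.map (fun y => g • y) = ν) → ν = 0

/-- Groups with property (T) have no nontrivial homomorphism into `ℤ`. -/
def S_NOZ : Prop := ∀ (G : Type) [Group G], PropertyT G →
  ∀ (χ : G →* Multiplicative ℤ) (g : G), χ g = 1

/-- A dynamically compressible countably infinite group: what one gets for the free part of the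
shift on `2^G`. -/
def S_FRP : Prop := ∀ (G : Type) [Group G] [Countable G] [Infinite G], DynComp G →
  ∃ (Y : Type) (_ : MeasurableSpace Y) (_ : StandardBorelSpace Y) (_ : MulAction G Y)
    (f : (G → Bool) → Y) (X₀ : Set (G → Bool)),
    (∀ g : G, Measurable (fun y : Y => g • y)) ∧ Measurable f ∧
    MeasurableSet X₀ ∧ (∀ᵐ x ∂(ber G coin), x ∈ X₀) ∧ (∀ g : G, ∀ x ∈ X₀, sh g x ∈ X₀) ∧
    (∀ x ∈ X₀, ∀ x' ∈ X₀, ((∃ g : G, x' = sh g x) ↔ f x' ∈ MulAction.orbit G (f x))) ∧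
    (∀ ν : Measure Y, IsFiniteMeasure ν → (∀ g : G, ν.map (fun y => g • y) = ν) → ν = 0)

/-- The general theorem. -/
def S_MAIN : Prop := ∀ (G : Type) [Group G] [Countable G] [Infinite G] [Countable (Subgroup G)],
  PropertyT G → DynComp G →
  ∃ (F : Subgroup G) (ρ : G →* NQ F), Infinite ρ.range ∧ ¬ (pre F ρ).FiniteIndex

/-- Tarski-monster-like groups with property (T) are not dynamically compressible. -/
def S_MON : Prop := ∀ (G : Type) [Group G] [Countable G] [Infinite G], PropertyT G →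
  (∀ H : Subgroup G, H ≠ ⊤ → Finite H ∨ IsCyclic H) → ¬ DynComp G

end Pool.Agent.T4h92.DC
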