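import Pool.Agent.T4h92.DC.Stm

/-!
# MP_45e9b0_lc: the sharpened statements (exact criterion)
-/

set_option autoImplicit false

open MeasureTheory Filter Topology ENNReal

namespace Pool.Agent.T4h92.DC

/-- If `ρ` has infinite kernel, `θ` is a.e. constant. -/
def S_FIM2 : Prop := ∀ (G : Type) [Group G] [Countable G] [Infinite G]
  (Y : Type) [MeasurableSpace Y] [StandardBorelSpace Y] [MulAction G Y]
  (F : Subgroup G) (ρ : G →* NQ F) (θ : (G → Bool) → Y),
  Measurable θ →
  (∀ g : G, ∀ n : Nor F, (QuotientGroup.mk n : NQ F) = ρ g →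
      ∀ᵐ x ∂(ber G coin), θ (sh g x) = (n : G) • θ x) →
  Infinite ρ.ker → ∃ y₀ : Y, ∀ᵐ x ∂(ber G coin), θ x = y₀

/-- The general theorem, necessity. -/
def S_MAIN2 : Prop := ∀ (G : Type) [Group G] [Countable G] [Infinite G] [Countable (Subgroup G)],
  PropertyT G → DynComp G →
  ∃ (F : Subgroup G) (ρ : G →* NQ F), Finite ρ.ker ∧ ¬ (pre F ρ).FiniteIndex

/-- Sufficiency (for every group): a subgroup of infinite index maps onto `G/M`, `M` finite. -/
def S_CONV : Prop := ∀ (G : Type) [Group G] [Countable G] [Infinite G]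
  (M : Subgroup G) [M.Normal] (L : Subgroup G) (p : L →* G ⧸ M),
  Finite M → ¬ L.FiniteIndex → Function.Surjective p → DynComp G

/-- The exact criterion. -/
def S_CRIT : Prop := ∀ (G : Type) [Group G] [Countable G] [Infinite G] [Countable (Subgroup G)],
  PropertyT G →
  (DynComp G ↔ ∃ (M : Subgroup G) (_ : M.Normal) (L : Subgroup G) (p : L →* G ⧸ M),
    Finite M ∧ ¬ L.FiniteIndex ∧ Function.Surjective p)

end Pool.Agent.T4h92.DC
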