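import Pool.Agent.T4h92.DC.Stm

/-!
# MP_45e9b0_lc, task CHA (helper7): the cocycles pulled back by the two coordinates are
cohomologous
-/

set_option autoImplicit false

open MeasureTheory Filter Topology ENNReal

namespace Pool.Agent.T4h92.DC.CHA

open Pool.Agent.T4h92.DC

theorem mixm_T {G B : Type} [Group G] (t : ℝ) (g : G) (z : BZ G B) :
    mixm t (pact sh sh g z) = sh g (mixm t z) := rfl

theorem mixm_zero {G B : Type} (z : BZ G B) : mixm 0 z = z.1 := by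
  funext h
  exact if_neg (not_lt.2 (z.2 h).2.2.1)

theorem mixm_big {G B : Type} {t : ℝ} (ht : 1 < t) (z : BZ G B) : mixm t z = snd' z.2 := by
  funext h
  exact if_pos (lt_of_le_of_lt (z.2 h).2.2.2 ht)

theorem cm_mul {Ω Γ : Type} [MeasurableSpace Ω] [Group Γ] [Countable Γ] {Φ Ψ : Ω → Γ} (h : CM Φ)
    (h' : CM Ψ) : CM (fun x => Ψ x * Φ x) := by
  intro γ
  have e : {x | Ψ x * Φ x = γ} = ⋃ a : Γ, {x | Ψ x = a} ∩ {x | Φ x = a⁻¹ * γ} := by
    ext x
    rw [Set.mem_iUnion]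
    constructor
    · intro hx
      exact ⟨Ψ x, rfl, eq_inv_mul_of_mul_eq hx⟩
    · rintro ⟨a, ha, hb⟩
      have ha : Ψ x = a := ha
      have hb : Φ x = a⁻¹ * γ := hb
      show Ψ x * Φ x = γ
      rw [ha, hb, mul_inv_cancel_left]
  rw [e]
  exact MeasurableSet.iUnion fun a => (h' a).inter (h _)

theorem t_CHA (hLOC : S_LOC) (hPT : S_PT) (hUNI : S_UNI) (hMBE : S_MBE) (hMPR : S_MPR)
    (hERG : S_ERG) : S_CHA := by
  intro G B Γ _ _ _ _ β _ _ _ w hG hw
  classical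
  obtain ⟨hT1, hM1⟩ := hMBE G B β
  obtain ⟨hT2, hM2⟩ := hMBE G (B × unitInterval) (β.prod (volume : Measure unitInterval))
  obtain ⟨hT, hM⟩ := hMPR G (G → B) (G → B × unitInterval) (ber G β)
    (ber G (β.prod (volume : Measure unitInterval))) sh sh hT1 hT2 hM1 hM2
  have hE := hERG G (BZ G B) (bz G β) (pact sh sh) hT hM Set.univ Set.infinite_univ
  obtain ⟨hP, -⟩ := hPT G B β
  have hcoc : ∀ t : ℝ, Coc (pact sh sh : G → BZ G B → BZ G B) (fun g z => w g (mixm t z)) := by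
    intro t
    refine ⟨fun g h z => ?_, fun g γ => (hP t).measurable (hw.meas g γ)⟩
    show w (g * h) (mixm t z) = w g (mixm t (pact sh sh h z)) * w h (mixm t z)
    rw [mixm_T, hw.mul]
  obtain ⟨S, η, hη, hloc⟩ := hLOC G hG
  -- a common `δ`
  have hδ : ∀ S : Finset G, ∃ δ : ℝ, 0 < δ ∧ ∀ g ∈ S, ∀ s t : ℝ, s ≤ t → t - s ≤ δ →
      bz G β {z | w g (mixm s z) ≠ w g (mixm t z)} ≤ ENNReal.ofReal η := by
    intro S
    induction S using Finset.induction_on with
    | empty => exact ⟨1, one_pos, fun g hg => absurd hg (Finset.notMem_empty g)⟩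
    | insert a S _ ih =>
      obtain ⟨δ, hδ0, hδ⟩ := ih
      obtain ⟨δ', hδ'0, hδ'⟩ := hUNI G B Γ β (w a) (hw.meas a) η hη
      refine ⟨min δ δ', lt_min hδ0 hδ'0, fun g hg s t hst h => ?_⟩
      rcases Finset.mem_insert.1 hg with rfl | hg
      · exact hδ' s t hst (h.trans (min_le_right _ _))
      · exact hδ g hg s t hst (h.trans (min_le_left _ _))
  obtain ⟨δ, hδ0, hδ⟩ := hδ S
  obtain ⟨n, hn⟩ := exists_nat_gt (2 / δ)
  have hn0 : (0 : ℝ) < n := lt_trans (by positivity) hn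
  have hstep : (2 : ℝ) / n ≤ δ := by
    rw [div_le_iff₀ hn0]
    rw [div_lt_iff₀ hδ0] at hn
    linarith
  -- the induction
  have key : ∀ i : ℕ, ∃ Φ : BZ G B → Γ, CM Φ ∧ ∀ g : G, ∀ᵐ z ∂(bz G β),
      w g (mixm (2 / n * i) z) = Φ (pact sh sh g z) * w g z.1 * (Φ z)⁻¹ := by
    intro i
    induction i with
    | zero =>
      refine ⟨fun _ => 1, fun γ => MeasurableSet.const _, fun g => ?_⟩
      filter_upwards with z
      rw [Nat.cast_zero, mul_zero, mixm_zero, one_mul, inv_one, mul_one]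
    | succ i ih =>
      obtain ⟨Φ, hΦ, hΦ2⟩ := ih
      obtain ⟨Ψ, hΨ, hΨ2⟩ := hloc (BZ G B) Γ (bz G β) (pact sh sh)
        (fun g z => w g (mixm (2 / n * i) z)) (fun g z => w g (mixm (2 / n * (i + 1 : ℕ)) z))
        hT hE (hcoc _) (hcoc _) (fun s hs => hδ s hs _ _ (by
          push_cast
          have : (0 : ℝ) ≤ 2 / n := by positivity
          nlinarith) (by
          push_cast
          linarith))
      refine ⟨fun z => Ψ z * Φ z, cm_mul hΦ hΨ, fun g => ?_⟩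
      filter_upwards [hΦ2 g, hΨ2 g] with z h1 h2
      rw [h2, h1, mul_inv_rev]
      simp only [mul_assoc]
  obtain ⟨Φ, hΦ, hΦ2⟩ := key n
  refine ⟨Φ, hΦ, fun g => ?_⟩
  filter_upwards [hΦ2 g] with z hz
  rw [← hz, mixm_big]
  rw [div_mul_cancel₀ _ hn0.ne']
  norm_num

end Pool.Agent.T4h92.DC.CHA
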