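import Pool.Agent.T4h92.DC.Stm

set_option autoImplicit false

open MeasureTheory Filter Topology ENNReal
open Pool.Agent.T4h92.DC

namespace Pool.Agent.T4h92.DC.FIM

theorem t_FIM (hMBE : S_MBE) (hERG : S_ERG) (hERC : S_ERC) : S_FIM := by
  intro G _ _ _ Y _ _ _ F ρ θ hθ heq hfin
  obtain ⟨hP, hM⟩ := hMBE G Bool coin
  have hK : (ρ.ker : Set G).Infinite := by
    intro hk
    have : Finite ρ.ker := hk
    have h1 : Finite (G ⧸ ρ.ker) := Finite.of_equiv _ (QuotientGroup.quotientKerEquivRange ρ).symm.toEquiv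
    have h2 : Finite G := Finite.of_equiv _ (Subgroup.groupEquivQuotientProdSubgroup (s := ρ.ker)).symm
    exact not_finite G
  refine hERC G (G → Bool) Y (ber G coin) sh (ρ.ker : Set G) (hERG G _ _ _ hP hM _ hK) θ hθ ?_
  intro g hg
  have h1 := heq g 1 (by
    rw [SetLike.mem_coe, MonoidHom.mem_ker] at hg
    rw [hg]; rfl)
  filter_upwards [h1] with x hx
  rw [hx]
  simp

end Pool.Agent.T4h92.DC.FIM
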