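import Pool.Agent.T4h92.DC.Stm

set_option autoImplicit false

open MeasureTheory Filter Topology ENNReal

namespace Pool.Agent.T4h92.DC.FRP

open Pool.Agent.T4h92.DC

section

variable {G : Type} [Group G]

theorem sh_one (x : G → Bool) : sh (1 : G) x = x := by
  funext h
  simp [sh]

theorem sh_mul (g k : G) (x : G → Bool) : sh (g * k) x = sh g (sh k x) := by
  funext h
  simp [sh, mul_assoc]

/-- the free part -/
def X0 (G : Type) [Group G] : Set (G → Bool) := {x | ∀ g : G, g ≠ 1 → sh g x ≠ x}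

theorem sh_mem {x : G → Bool} (hx : x ∈ X0 G) (g : G) : sh g x ∈ X0 G := by
  intro k hk h
  rw [← sh_mul] at h
  have h2 : sh (g⁻¹ * (k * g)) x = x := by
    rw [sh_mul, h, ← sh_mul]
    simp [sh_one]
  refine hx (g⁻¹ * (k * g)) ?_ h2
  intro h3
  apply hk
  have : k * g = g := by
    have := congrArg (g * ·) h3
    simpa using this
  exact mul_eq_right.1 this

instance actX0 : MulAction G (X0 G) where
  smul g x := ⟨sh g x.1, sh_mem x.2 g⟩
  one_smul x := Subtype.ext (sh_one x.1)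
  mul_smul g k x := Subtype.ext (sh_mul g k x.1)

theorem smul_val (g : G) (x : X0 G) : ((g • x : X0 G) : G → Bool) = sh g x.1 := rfl

theorem sh_meas (g : G) : Measurable (fun x : G → Bool => sh g x) := by
  refine measurable_pi_lambda _ fun h => ?_
  exact measurable_pi_apply (g⁻¹ * h)

theorem meas_X0 [Countable G] : MeasurableSet (X0 G) := by
  have e : X0 G = ⋂ g : G, ⋂ _ : g ≠ 1, {x | sh g x = x}ᶜ := by
    ext x
    simp only [X0, Set.mem_ofPred_eq, Set.mem_iInter, Set.mem_compl_iff]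
  rw [e]
  refine MeasurableSet.iInter fun g => MeasurableSet.iInter fun _ => MeasurableSet.compl ?_
  have e2 : {x : G → Bool | sh g x = x} = ⋂ h : G, {x | x (g⁻¹ * h) = x h} := by
    ext x
    simp only [Set.mem_ofPred_eq, Set.mem_iInter]
    constructor
    · intro hx h
      exact congrFun hx h
    · intro hx
      funext h
      exact hx h
  rw [e2]
  exact MeasurableSet.iInter fun h =>
    measurableSet_eq_fun (measurable_pi_apply _) (measurable_pi_apply _)

theorem orb_inf [Infinite G] (x : X0 G) : (MulAction.orbit G x).Infinite := by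
  refine Set.infinite_range_of_injective ?_
  intro g k h
  have h1 : sh g x.1 = sh k x.1 := congrArg Subtype.val h
  by_contra hne
  have h2 : sh (k⁻¹ * g) x.1 = x.1 := by
    rw [sh_mul, h1, ← sh_mul]
    simp [sh_one]
  refine x.2 (k⁻¹ * g) ?_ h2
  intro h3
  exact hne (inv_mul_eq_one.1 h3).symm

end

theorem t_FRP (hFRA : S_FRA) (hFRB : S_FRB) (hCMP : S_CMP) : S_FRP := by
  intro G _ _ _ hG
  haveI hsb : StandardBorelSpace (X0 G) := MeasurableSet.standardBorel meas_X0
  obtain ⟨Y, mY, sY, aY, hYm, -, ⟨c, hc1, hc2, hc3, hc4⟩, f0, hf0, hf0'⟩ := hG (X0 G) (by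
    intro g
    exact ((sh_meas g).comp measurable_subtype_coe).subtype_mk) orb_inf
  have hae : ∀ᵐ x ∂(ber G coin), x ∈ X0 G := by
    have h1 : ∀ᵐ x ∂(ber G coin), ∀ g : G, g ≠ 1 → sh g x ≠ x := by
      rw [ae_all_iff]
      intro g
      by_cases hg : g = 1
      · exact Eventually.of_forall fun x h => absurd hg h
      · filter_upwards [hFRA G g hg] with x hx _
        exact hx
    exact h1
  obtain ⟨x1, hx1⟩ := hae.exists
  obtain ⟨f, hf, hff⟩ := (MeasurableEmbedding.subtype_coe meas_X0).exists_measurable_extend hf0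
    (fun _ => ⟨f0 ⟨x1, hx1⟩⟩)
  have hfx : ∀ x (hx : x ∈ X0 G), f x = f0 ⟨x, hx⟩ := fun x hx => congrFun hff ⟨x, hx⟩
  refine ⟨Y, mY, sY, aY, f, X0 G, hYm, hf, meas_X0, hae, fun g x hx => sh_mem hx g, ?_, ?_⟩
  · intro x hx x' hx'
    rw [hfx x hx, hfx x' hx', ← hf0' ⟨x, hx⟩ ⟨x', hx'⟩]
    constructor
    · rintro ⟨g, hg⟩
      exact ⟨g, Subtype.ext hg.symm⟩
    · rintro ⟨g, hg⟩
      exact ⟨g, (congrArg Subtype.val hg).symm⟩
  · intro ν hν hinv
    exact hCMP G Y c hYm hc1 hc2 hc3 hc4 ν hinv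

end Pool.Agent.T4h92.DC.FRP
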