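import Pool.Agent.T4h92.DC.Stm

set_option autoImplicit false

open MeasureTheory Filter Topology ENNReal
open Pool.Agent.T4h92.DC

namespace Pool.Agent.T4h92.DC.MON

/-- Subgroups of a countable group all proper subgroups of which are finite or cyclic. -/
theorem countable_subgroups (G : Type) [Group G] [Countable G]
    (h : ∀ H : Subgroup G, H ≠ ⊤ → Finite H ∨ IsCyclic H) : Countable (Subgroup G) := by
  classical
  have hU : (Set.univ : Set (Subgroup G)) ⊆
      {⊤} ∪ (Set.range (fun s : Finset G => Subgroup.closure (s : Set G))) := by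
    intro H _
    by_cases hH : H = ⊤
    · left; exact hH
    · right
      rcases h H hH with hf | hc
      · refine ⟨(Set.toFinite (H : Set G)).toFinset, ?_⟩
        simp
      · obtain ⟨g, hg⟩ := hc.exists_generator
        refine ⟨{(g : G)}, ?_⟩
        simp only [Finset.coe_singleton]
        apply le_antisymm
        · rw [Subgroup.closure_le]; simp
        · intro x hx
          obtain ⟨n, hn⟩ := Subgroup.mem_zpowers_iff.1 (hg ⟨x, hx⟩)
          rw [← Subgroup.zpowers_eq_closure, Subgroup.mem_zpowers_iff]
          exact ⟨n, by simpa using congrArg Subtype.val hn⟩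
  have : (Set.univ : Set (Subgroup G)).Countable :=
    ((Set.countable_singleton _).union (Set.countable_range _)).mono hU
  exact Set.countable_univ_iff.1 this

theorem t_MON (hMAIN : S_MAIN) (hNOZ : S_NOZ) : S_MON := by
  intro G _ _ _ hT hsub hD
  have hcs : Countable (Subgroup G) := countable_subgroups G hsub
  obtain ⟨F, ρ, hinf, hidx⟩ := hMAIN G hT hD
  have hL : pre F ρ ≠ ⊤ := by
    intro h
    apply hidx
    rw [h]
    infer_instance
  -- the surjection
  set L := pre F ρ with hLdef
  let M : Subgroup (Nor F) := (ρ.range).comap (QuotientGroup.mk' (F.subgroupOf (Nor F)))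
  have hML : L = M.map (Nor F).subtype := rfl
  -- M is isomorphic to L
  let e : M ≃* L := M.equivMapOfInjective (Nor F).subtype (Nor F).subtype_injective
  let q : M →* ρ.range :=
    ((QuotientGroup.mk' (F.subgroupOf (Nor F))).comp M.subtype).codRestrict ρ.range
      (fun m => m.2)
  have hq : Function.Surjective q := by
    rintro ⟨y, hy⟩
    obtain ⟨n, hn⟩ := QuotientGroup.mk'_surjective (F.subgroupOf (Nor F)) y
    refine ⟨⟨n, ?_⟩, ?_⟩
    · show QuotientGroup.mk' (F.subgroupOf (Nor F)) n ∈ ρ.range
      rw [hn]; exact hy
    · apply Subtype.ext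
      exact hn
  let p : L →* ρ.range := q.comp e.symm.toMonoidHom
  have hp : Function.Surjective p := hq.comp e.symm.surjective
  rcases hsub L hL with hf | hc
  · have : Finite ρ.range := Finite.of_surjective p hp
    exact not_finite ρ.range
  · have hcyc : IsCyclic ρ.range := isCyclic_of_surjective p hp
    let E := intCyclicMulEquiv (G := ρ.range)
    let χ : G →* Multiplicative ℤ := E.symm.toMonoidHom.comp ρ.rangeRestrict
    have h1 := hNOZ G hT χ
    have h2 : Function.Surjective χ := E.symm.surjective.comp ρ.rangeRestrict_surjective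
    obtain ⟨g, hg⟩ := h2 (Multiplicative.ofAdd 1)
    rw [h1 g] at hg
    have : (0 : ℤ) = 1 := congrArg Multiplicative.toAdd hg
    omega

end Pool.Agent.T4h92.DC.MON
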