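import Pool.Agent.T4h92.DC.Stm

set_option autoImplicit false

open MeasureTheory Filter Topology ENNReal

namespace Pool.Agent.T4h92.DC.QT

open Pool.Agent.T4h92.DC

/-- The invariant vectors. -/
def invt {G H : Type} [Group G] [NormedAddCommGroup H] [InnerProductSpace ℂ H]
    (π : G →* (H ≃ₗᵢ[ℂ] H)) : Submodule ℂ H where
  carrier := {u | ∀ g, π g u = u}
  add_mem' := by
    intro a b ha hb g
    rw [map_add, ha g, hb g]
  zero_mem' := by
    intro g
    exact map_zero _
  smul_mem' := by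
    intro c a ha g
    rw [map_smul, ha g]

theorem invt_closed {G H : Type} [Group G] [NormedAddCommGroup H] [InnerProductSpace ℂ H]
    (π : G →* (H ≃ₗᵢ[ℂ] H)) : IsClosed (invt π : Set H) := by
  have : (invt π : Set H) = ⋂ g, {u | π g u = u} := by
    ext u
    simp [invt]
  rw [this]
  exact isClosed_iInter fun g => isClosed_eq (π g).continuous continuous_id

theorem orth_inv {G H : Type} [Group G] [NormedAddCommGroup H] [InnerProductSpace ℂ H]
    (π : G →* (H ≃ₗᵢ[ℂ] H)) (g : G) (w : H) (hw : w ∈ (invt π)ᗮ) : π g w ∈ (invt π)ᗮ := by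
  rw [Submodule.mem_orthogonal] at hw ⊢
  intro u hu
  have h1 : π g u = u := hu g
  calc inner ℂ u (π g w) = inner ℂ (π g u) (π g w) := by rw [h1]
    _ = inner ℂ u w := (π g).inner_map_map u w
    _ = 0 := hw u hu

theorem inv_mul_apply {G H : Type} [Group G] [NormedAddCommGroup H] [InnerProductSpace ℂ H]
    (π : G →* (H ≃ₗᵢ[ℂ] H)) (g : G) (w : H) : π g⁻¹ (π g w) = w := by
  have : π g⁻¹ (π g w) = (π g⁻¹ * π g) w := rfl
  rw [this, ← map_mul, inv_mul_cancel, map_one]
  rfl

theorem mul_inv_apply {G H : Type} [Group G] [NormedAddCommGroup H] [InnerProductSpace ℂ H]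
    (π : G →* (H ≃ₗᵢ[ℂ] H)) (g : G) (w : H) : π g (π g⁻¹ w) = w := by
  have : π g (π g⁻¹ w) = (π g * π g⁻¹) w := rfl
  rw [this, ← map_mul, mul_inv_cancel, map_one]
  rfl

/-- The restriction to the orthogonal complement of the invariant vectors. -/
def res {G H : Type} [Group G] [NormedAddCommGroup H] [InnerProductSpace ℂ H]
    (π : G →* (H ≃ₗᵢ[ℂ] H)) : G →* ((invt π)ᗮ ≃ₗᵢ[ℂ] (invt π)ᗮ) where
  toFun g :=
    { toFun := fun w => ⟨π g w, orth_inv π g w w.2⟩
      invFun := fun w => ⟨π g⁻¹ w, orth_inv π g⁻¹ w w.2⟩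
      map_add' := fun a b => Subtype.ext (map_add (π g) (a : H) (b : H))
      map_smul' := fun c a => Subtype.ext (map_smul (π g) c (a : H))
      left_inv := fun a => Subtype.ext (inv_mul_apply π g a)
      right_inv := fun a => Subtype.ext (mul_inv_apply π g a)
      norm_map' := fun a => (π g).norm_map a }
  map_one' := by
    ext w
    show π 1 (w : H) = w
    rw [map_one]; rfl
  map_mul' := by
    intro a b
    ext w
    show π (a * b) (w : H) = π a (π b w)
    rw [map_mul]; rfl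

theorem res_apply {G H : Type} [Group G] [NormedAddCommGroup H] [InnerProductSpace ℂ H]
    (π : G →* (H ≃ₗᵢ[ℂ] H)) (g : G) (w : (invt π)ᗮ) : ((res π g w : (invt π)ᗮ) : H) = π g w := rfl

theorem t_QT : S_QT := by
  intro G _ hT
  obtain ⟨S, κ, hκ, h⟩ := hT
  refine ⟨S, κ, hκ, ?_⟩
  intro H _ _ _ π v δ hδ hv
  haveI : CompleteSpace (invt π) := (invt_closed π).completeSpace_coe
  haveI : CompleteSpace ((invt π)ᗮ : Submodule ℂ H) :=
    ((invt π).isClosed_orthogonal).completeSpace_coe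
  have hu : (invt π).starProjection v ∈ invt π := Submodule.starProjection_apply_mem _ v
  refine ⟨(invt π).starProjection v, hu, ?_⟩
  by_contra hcon
  push Not at hcon
  have hv' : v - (invt π).starProjection v ∈ (invt π)ᗮ :=
    Submodule.sub_starProjection_mem_orthogonal v
  set u := (invt π).starProjection v with hudef
  have hpos : 0 < ‖v - u‖ := lt_trans hδ hcon
  have hne : (‖v - u‖ : ℂ) ≠ 0 := by
    exact_mod_cast hpos.ne'
  set w : (invt π)ᗮ := (‖v - u‖ : ℂ)⁻¹ • (⟨v - u, hv'⟩ : (invt π)ᗮ) with hw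
  have hw1 : ‖w‖ = 1 := by
    rw [hw, norm_smul, norm_inv, Complex.norm_real, norm_norm]
    show ‖v - u‖⁻¹ * ‖v - u‖ = 1
    exact inv_mul_cancel₀ hpos.ne'
  obtain ⟨z, hz0, hz⟩ := h _ (res π) w hw1 (by
    intro s hs
    have h1 : ((res π s w - w : (invt π)ᗮ) : H) = (‖v - u‖ : ℂ)⁻¹ • (π s v - v) := by
      have e1 : ((res π s w - w : (invt π)ᗮ) : H) = π s (w : H) - (w : H) := rfl
      have e2 : (w : H) = (‖v - u‖ : ℂ)⁻¹ • (v - u) := rfl
      rw [e1, e2, map_smul, map_sub, hu s]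
      rw [← smul_sub]
      congr 1
      abel
    have h2 : ‖res π s w - w‖ = ‖v - u‖⁻¹ * ‖π s v - v‖ := by
      have : ‖res π s w - w‖ = ‖((res π s w - w : (invt π)ᗮ) : H)‖ := rfl
      rw [this, h1, norm_smul, norm_inv, Complex.norm_real, norm_norm]
    rw [h2]
    have h3 := hv s hs
    calc ‖v - u‖⁻¹ * ‖π s v - v‖ < ‖v - u‖⁻¹ * (κ * δ) := by
          exact mul_lt_mul_of_pos_left h3 (inv_pos.2 hpos)
      _ ≤ ‖v - u‖⁻¹ * (κ * ‖v - u‖) := by
          apply mul_le_mul_of_nonneg_left _ (inv_pos.2 hpos).le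
          exact mul_le_mul_of_nonneg_left hcon.le hκ.le
      _ = κ := by
          field_simp)
  apply hz0
  have hzK : (z : H) ∈ invt π := by
    intro g
    have := hz g
    have h4 := congrArg (Subtype.val) this
    exact h4
  have h5 := (Submodule.mem_orthogonal _ _).1 z.2 (z : H) hzK
  have h6 : (z : H) = 0 := inner_self_eq_zero.1 h5
  exact Subtype.ext h6

end Pool.Agent.T4h92.DC.QT
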